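import Pool.Agent.MP_3ee8cb_gt.D3OD.Defs
import Pool.Agent.MP_3ee8cb_gt.D3.Defs

/-! Block OD: rescaling of time, and coordinates in a plane of three-space. -/

namespace Pool.Agent.MP_3ee8cb_gt.D3OD

open Matrix
open scoped RealInnerProductSpace

noncomputable section

theorem Sol.scale {k : ℝ → M} {j j' : ℝ → V} (h : Sol k j j') (r : ℝ) :
    Sol (fun t => r ^ 2 • k (r * t)) (fun t => j (r * t)) fun t => r • j' (r * t) := by
  have hr : ∀ t, HasDerivAt (fun t => r * t) r t := fun t => by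
    simpa using (hasDerivAt_id t).const_mul r
  refine ⟨fun t => (h.d1 _).scomp t (hr t), fun t => ?_⟩
  have := ((h.d2 _).scomp t (hr t)).const_smul r
  rwa [smul_smul, ← sq, ← smul_mulVec] at this

theorem Cur.scale {a : ℝ} {k : ℝ → M} (h : Cur a k) (r : ℝ) :
    Cur (r ^ 2 * a) fun t => r ^ 2 • k (r * t) := by
  refine ⟨fun i l => continuous_const.mul ((h.cont i l).comp (continuous_const.mul continuous_id)),
    fun t => by rw [transpose_smul, h.symm], fun t x => ?_⟩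
  rw [smul_mulVec, dotProduct_smul, smul_eq_mul, mul_assoc]
  exact mul_le_mul_of_nonneg_left (h.low _ x) (sq_nonneg r)

theorem dot_nonneg (x : V) : 0 ≤ x ⬝ᵥ x := Finset.sum_nonneg fun _ _ => mul_self_nonneg _

theorem n2_smul (r : ℝ) (x e : V) : n2 x (r • e) ≤ (1 + r ^ 2) * n2 x e := by
  simp only [n2, smul_dotProduct, dotProduct_smul, smul_eq_mul]
  nlinarith [dot_nonneg x, dot_nonneg e, mul_nonneg (sq_nonneg r) (dot_nonneg x)]

theorem orb_scale {a C : ℝ} {kM kN hh hv vh vv : ℝ → M} (ha : 0 < a) (hC : 0 ≤ C)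
    (cM : Cur 0 kM) (cN : Cur (a ^ 2) kN) (map : ∀ j j', Sol kM j j' →
      Sol kN (fun t => hh t *ᵥ j t + hv t *ᵥ j' t) (fun t => vh t *ᵥ j t + vv t *ᵥ j' t))
    (symp : ∀ t x e x' e', om (hh t *ᵥ x + hv t *ᵥ e) (vh t *ᵥ x + vv t *ᵥ e)
      (hh t *ᵥ x' + hv t *ᵥ e') (vh t *ᵥ x' + vv t *ᵥ e') = om x e x' e')
    (up : ∀ t x e, n2 (hh t *ᵥ x + hv t *ᵥ e) (vh t *ᵥ x + vv t *ᵥ e) ≤ C * n2 x e) :
    Orb ((1 + a⁻¹ ^ 2) * (C * (1 + a ^ 2))) (fun t => a⁻¹ ^ 2 • kM (a⁻¹ * t))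
      (fun t => a⁻¹ ^ 2 • kN (a⁻¹ * t)) (fun t => hh (a⁻¹ * t)) (fun t => a • hv (a⁻¹ * t))
      (fun t => a⁻¹ • vh (a⁻¹ * t)) fun t => vv (a⁻¹ * t) := by
  have e1 : ∀ (A : M) (e : V), (a • A) *ᵥ e = A *ᵥ (a • e) := fun A e => by
    rw [smul_mulVec, mulVec_smul]
  have e2 : ∀ (A B : M) (x e : V), (a⁻¹ • A) *ᵥ x + B *ᵥ e = a⁻¹ • (A *ᵥ x + B *ᵥ (a • e)) :=
    fun A B x e => by
      rw [smul_mulVec, mulVec_smul, smul_add, smul_smul, inv_mul_cancel₀ ha.ne', one_smul]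
  refine ⟨by simpa using cM.scale a⁻¹, ?_, fun j j' h => ?_, fun t x e x' e' => ?_,
    fun t x e => ?_⟩
  · have := cN.scale a⁻¹
    rwa [← mul_pow, inv_mul_cancel₀ ha.ne', one_pow] at this
  · have h1 := h.scale a
    simp only [smul_smul, ← mul_pow, mul_inv_cancel₀ ha.ne', one_pow, one_smul,
      inv_mul_cancel_left₀ ha.ne'] at h1
    have h2 := (map _ _ h1).scale a⁻¹
    simp only [mul_inv_cancel_left₀ ha.ne'] at h2
    simpa only [e1, e2] using h2
  · have := symp (a⁻¹ * t) x (a • e) x' (a • e')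
    rw [e1, e1, e2, e2]
    simp only [om, smul_dotProduct, dotProduct_smul, smul_eq_mul] at this ⊢
    rw [← mul_sub, this, ← mul_sub, inv_mul_cancel_left₀ ha.ne']
  · rw [e1, e2, mul_assoc, mul_assoc]
    refine (n2_smul _ _ _).trans (mul_le_mul_of_nonneg_left ((up _ _ _).trans
      (mul_le_mul_of_nonneg_left (n2_smul _ _ _) hC)) (by positivity))

/-- Orthonormal bases of three-space. -/
abbrev OB := OrthonormalBasis (Fin 3) ℝ D3.V

/-- The last two coordinates. -/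
def co (β : OB) (v : D3.V) : V := fun i => ⟪β i.succ, v⟫

/-- The vector with given last two coordinates. -/
def pv (β : OB) (x : V) : D3.V := ∑ i, x i • β i.succ

/-- The lower right block of the matrix of a map. -/
def mat (β β' : OB) (f : D3.V →L[ℝ] D3.V) : M := Matrix.of fun i l => ⟪β' i.succ, f (β l.succ)⟫

variable {β β' : OB} {v w : D3.V}

theorem inn (β : OB) (i l : Fin 3) : ⟪β i, β l⟫ = if i = l then 1 else 0 :=
  orthonormal_iff_ite.1 β.orthonormal i l

theorem co_pv (β : OB) (x : V) : co β (pv β x) = x := funext fun i => by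
  simp only [co, pv, inner_sum, inner_smul_right, inn, Fin.succ_inj]
  simp

theorem pv_perp (β : OB) (x : V) : ⟪β 0, pv β x⟫ = 0 := by
  simp only [pv, inner_sum, inner_smul_right, inn, (Fin.succ_ne_zero _).symm]
  simp

theorem pv_co (h : ⟪β 0, v⟫ = 0) : pv β (co β v) = v := by
  rw [← β.sum_repr' v, Fin.sum_univ_succ, h, zero_smul, zero_add]
  exact congrArg (pv β) (co_pv β (co β v))

theorem inner_co (h : ⟪β 0, v⟫ = 0) (w : D3.V) : ⟪v, w⟫ = co β v ⬝ᵥ co β w := by
  rw [← β.sum_inner_mul_inner v w, Fin.sum_univ_succ, real_inner_comm, h, zero_mul, zero_add]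
  exact Finset.sum_congr rfl fun i _ => by rw [real_inner_comm]; rfl

theorem mat_mulVec (f : D3.V →L[ℝ] D3.V) (x : V) : mat β β' f *ᵥ x = co β' (f (pv β x)) :=
  funext fun i => by
    simp only [mat, co, pv, mulVec, dotProduct, map_sum, map_smul, inner_sum, inner_smul_right,
      of_apply, mul_comm]

theorem co_add (β : OB) (v w : D3.V) : co β (v + w) = co β v + co β w :=
  funext fun _ => inner_add_right _ _ _

theorem det_mat (β β' : OB) : ∃ ε : ℝ, |ε| = 1 ∧ ∀ f : D3.V →L[ℝ] D3.V, f (β 0) = β' 0 →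
    f.det = ε * (mat β β' f).det := by
  refine ⟨β.toBasis.det β', by
    rcases β.det_to_matrix_orthonormalBasis_real β' with h | h <;> simp [h], fun f h => ?_⟩
  rw [ContinuousLinearMap.det, ← LinearMap.det_toMatrix β.toBasis,
    ← basis_toMatrix_mul_linearMap_toMatrix β.toBasis β.toBasis β'.toBasis, det_mul]
  refine congrArg₂ _ rfl ?_
  rw [det_succ_column_zero, Fin.sum_univ_succ, Finset.sum_eq_zero, add_zero]
  · have e : (LinearMap.toMatrix β.toBasis β'.toBasis (f : D3.V →ₗ[ℝ] D3.V)) 0 0 = 1 := by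
      simp [LinearMap.toMatrix_apply, h]
    rw [e, Fin.val_zero, pow_zero, one_mul, one_mul]
    congr 1
    ext i l
    simp [LinearMap.toMatrix_apply, mat, OrthonormalBasis.repr_apply_apply]
  · intro i _
    simp [LinearMap.toMatrix_apply, h]

end

end Pool.Agent.MP_3ee8cb_gt.D3OD
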