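import Pool.Agent.MP_3ee8cb_gt.D3OD.LinkB

/-! Block OD: from the equation in the plane to the Riccati inequality for a conjugacy. -/

namespace Pool.Agent.MP_3ee8cb_gt.D3

open Matrix Filter Topology
open D3OD (OB co pv mat Sol Cur Orb Bm Fm co_pv pv_perp pv_co inner_co mat_mulVec co_add)
open scoped RealInnerProductSpace

noncomputable section

namespace LK

variable {m m' : MF} {z y : V × V} {β β' : ℝ → OB} {b b' : OB} {φ : V × V → V × V}

/-- The block that acts on horizontal vectors. -/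
def bH (m : MF) (y : V × V) (b b' : OB) (f : V × V →L[ℝ] V) : D3OD.M := mat b b' (f.comp (tH m y))

/-- The block that acts on vertical vectors. -/
def bV (b b' : OB) (f : V × V →L[ℝ] V) : D3OD.M := mat b b' (f.comp (.inr ℝ V V))

/-- The horizontal part of the derivative. -/
def dH (m' : MF) (φ : V × V → V × V) (y : V × V) : V × V →L[ℝ] V :=
  (m'.hor (φ y)).comp (fderiv ℝ φ y)

/-- The vertical part of the derivative. -/
def dV (m' : MF) (φ : V × V → V × V) (y : V × V) : V × V →L[ℝ] V :=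
  (m'.ver (φ y)).comp (fderiv ℝ φ y)

theorem blk (f : V × V →L[ℝ] V) (x e : D3OD.V) :
    bH m y b b' f *ᵥ x + bV b b' f *ᵥ e = co b' (f (tv m y (pv b x) (pv b e))) := by
  rw [bH, bV, mat_mulVec, mat_mulVec, ← co_add, tv, map_add]
  rfl

theorem pp_tv (o : m.OK) (hb : b 0 = y.2) (x e : D3OD.V) : Pp m y (tv m y (pv b x) (pv b e)) :=
  ⟨by rw [hor_tv o, ← hb, pv_perp], by rw [ver_tv, ← hb, pv_perp]⟩

theorem inner_pv (b : OB) (x e : D3OD.V) : ⟪pv b x, pv b e⟫ = x ⬝ᵥ e := by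
  rw [inner_co (pv_perp b x), co_pv, co_pv]

theorem orb (uq : D3OD.S_UQ) (o : m.OK) (j : m.Jac) (o' : m'.OK) (j' : m'.Jac) (cf : CF m m' φ)
    (sy : Sy m m' φ) {a : ℝ} (ha : 0 < a) (u : m.Up 0) (u' : m'.Up (a ^ 2)) (hz : ‖z.2‖ = 1)
    (F : Fr m z β) (F' : Fr m' (φ z) β') : ∃ C kM kN hh vh, Orb C kM kN hh
      (fun t => a • bV (β (a⁻¹ * t)) (β' (a⁻¹ * t)) (dH m' φ (m.Z (a⁻¹ * t) z))) vh
      fun t => bV (β (a⁻¹ * t)) (β' (a⁻¹ * t)) (dV m' φ (m.Z (a⁻¹ * t) z)) := by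
  obtain ⟨C, hC⟩ := cf.bdd
  have n1 : ∀ t, ‖(m.Z t z).2‖ = 1 := fun t => (j.norm t z).trans hz
  have z0 : z.2 ≠ 0 := fun e => by simp [e] at hz
  have n0 : ∀ t, (m.Z t z).2 ≠ 0 := fun t e => by simpa [e] using n1 t
  have p0 : ∀ t x e, ⟪β' t 0, dH m' φ (m.Z t z) (tv m (m.Z t z) (pv (β t) x) (pv (β t) e))⟫ = 0 ∧
      ⟪β' t 0, dV m' φ (m.Z t z) (tv m (m.Z t z) (pv (β t) x) (pv (β t) e))⟫ = 0 := fun t x e => by
    rw [F'.b0, ← cf.flow t z z0]
    exact pp_phi o o' cf sy (n0 t) (pp_tv o (F.b0 t) x e)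
  refine ⟨_, _, _, _, _, D3OD.orb_scale (C := 2 * C ^ 2)
    (hh := fun t => bH m (m.Z t z) (β t) (β' t) (dH m' φ (m.Z t z)))
    (hv := fun t => bV (β t) (β' t) (dH m' φ (m.Z t z)))
    (vh := fun t => bH m (m.Z t z) (β t) (β' t) (dV m' φ (m.Z t z)))
    (vv := fun t => bV (β t) (β' t) (dV m' φ (m.Z t z))) ha (by positivity) (cur o j F u)
    (cur o' j' F' u') (fun i i' h => ?_) (fun t x e x' e' => ?_) fun t x e => ?_⟩
  · have p := pp_tv o ((F.b0 0).trans (by rw [o.zero])) (y := z) (i 0) (i' 0)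
    have e := uq _ (cur o j F u).cont _ _ _ _ 0 h (sol o j F p)
      (by rw [J0 o, hor_tv o, co_pv]) (by rw [J0' o, ver_tv, co_pv])
    have e1 : ∀ t, fderiv ℝ φ (m.Z t z) (tv m (m.Z t z) (pv (β t) (i t)) (pv (β t) (i' t))) =
        fderiv ℝ (m'.Z t) (φ z) (fderiv ℝ φ z (tv m z (pv (β 0) (i 0)) (pv (β 0) (i' 0)))) :=
      fun t => by
        rw [← chain o j o' cf z0, (e t).1, (e t).2, pv_co (perp o j F p t).1,
          pv_co (perp o j F p t).2, MF.J, MF.J', tv_eq o]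
    simp only [blk, dH, dV, ContinuousLinearMap.comp_apply, e1, cf.flow _ z z0]
    exact sol o' j' F' (pp_phi o o' cf sy z0 p)
  · simp only [blk, D3OD.om]
    rw [← inner_co (p0 t x e).1, ← inner_co (p0 t x e).2]
    refine (sy.om _ _ _ (n0 t)).trans ?_
    rw [hor_tv o, hor_tv o, ver_tv, ver_tv, inner_pv, inner_pv]
  · have h := (hC _ (tv m (m.Z t z) (pv (β t) x) (pv (β t) e)) (n1 t)).1
    rw [hor_tv o, ver_tv] at h
    simp only [blk, D3OD.n2]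
    rw [← inner_co (p0 t x e).1, ← inner_co (p0 t x e).2, ← inner_pv (β t) x, ← inner_pv (β t) e]
    simp only [real_inner_self_eq_norm_sq]
    have h2 := pow_le_pow_left₀ (by positivity) h 2
    refine le_trans ?_ (h2.trans ?_)
    · rw [add_sq, add_assoc]
      exact add_le_add le_rfl (le_add_of_nonneg_left (by positivity))
    · nlinarith [mul_nonneg (sq_nonneg C) (sq_nonneg (‖pv (β t) x‖ - ‖pv (β t) e‖))]

theorem A_eq (cf : CF m m' φ) (hy : y.2 ≠ 0) :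
    m'.A (fr φ y.1) y.2 = (dH m' φ y).comp (.inr ℝ V V) ∧
      m'.A' (fr φ y.1) y.2 = (dV m' φ y).comp (.inr ℝ V V) := by
  rw [MF.A, MF.A', (SC.fr_der cf.c1 hy).fderiv]
  exact ⟨rfl, rfl⟩

theorem rad (cf : CF m m' φ) (hy : y.2 ≠ 0) : (dH m' φ y).comp (.inr ℝ V V) y.2 = 0 ∧
    (dV m' φ y).comp (.inr ℝ V V) y.2 = (φ y).2 := by
  simp [dH, dV, radial cf hy, MF.hor, MF.ver]

theorem scal (cf : CF m m' φ) (hy : ‖y.2‖ = 1) (hb : b 0 = y.2) (hb' : b' 0 = (φ y).2) :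
    ∃ ε : ℝ, |ε| = 1 ∧ (∀ c, m'.dt (fr φ y.1) c y.2 =
      ε * (bV b b' (dV m' φ y) + c • bV b b' (dH m' φ y)).det) ∧
      m'.dl (fr φ y.1) y.2 = ε * (bV b b' (dH m' φ y)).det := by
  have y0 : y.2 ≠ 0 := fun e => by simp [e] at hy
  obtain ⟨ε, h1, h2⟩ := D3OD.det_mat b b'
  obtain ⟨r1, r2⟩ := rad (m' := m') cf y0
  refine ⟨ε, h1, fun c => ?_, ?_⟩
  · rw [MF.dt, (A_eq cf y0).1, (A_eq cf y0).2, h2 _ (by
      rw [hb, hb', _root_.add_apply, _root_.smul_apply, r1, r2, smul_zero, add_zero])]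
    congr 2
    ext i l
    simp [mat, bV, inner_add_right, inner_smul_right]
  · rw [MF.dl, (A_eq cf y0).1, h2 _ (by
      rw [hb, hb', _root_.add_apply, r1, zero_add, ContinuousLinearMap.smulRight_apply,
        innerSL_apply_apply, real_inner_self_eq_norm_sq, hy, one_pow, one_smul]
      rfl)]
    congr 2
    ext i l
    simp [mat, bV, ← hb, (Fin.succ_ne_zero _).symm]

theorem A_zero (o : m.OK) (o' : m'.OK) (cf : CF m m' φ) (sy : Sy m m' φ) (y0 : y.2 ≠ 0)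
    (hb : b 0 = y.2) (hb' : b' 0 = (φ y).2) (h : bV b b' (dH m' φ y) = 0) :
    m'.A (fr φ y.1) y.2 = 0 := by
  rw [(A_eq cf y0).1]
  ext1 v
  have e : v = ⟪b 0, v⟫ • y.2 + pv b (co b v) := by
    rw [← hb]
    exact (b.sum_repr' v).symm.trans (Fin.sum_univ_succ _)
  have h1 := blk (m := m) (y := y) (b := b) (b' := b') (dH m' φ y) 0 (co b v)
  have h2 := (pp_phi o o' cf sy y0 (pp_tv o hb 0 (co b v))).1
  rw [← hb'] at h2
  rw [h, mulVec_zero, zero_mulVec, add_zero] at h1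
  have h3 := (congrArg (pv b') h1).trans (pv_co h2)
  rw [e, map_add, map_smul, (rad cf y0).1, smul_zero, zero_add]
  simpa [pv, tv, dH] using h3.symm

theorem alg {P Q : D3OD.M} {a : ℝ} (ha : 0 < a) (G : D3OD.Good (a • P) Q) :
    (∀ s, (Q + s • P).det = (1 + (s / a) • Bm (a • P) Q).det * Q.det) ∧
    P.det = (Bm (a • P) Q).det / a ^ 2 * Q.det ∧
    ∀ r : ℝ, |r| ≤ 1 → (1 + r • Bm (a • P) Q).det ≠ 0 := by
  have e : Bm (a • P) Q * Q = a • P := nonsing_inv_mul_cancel_right _ _ (Ne.isUnit G.det)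
  refine ⟨fun s => ?_, ?_, fun r hr h => ?_⟩
  · rw [← det_mul, add_mul, one_mul, smul_mul_assoc, e, smul_smul, div_mul_cancel₀ _ ha.ne']
  · rw [div_mul_eq_mul_div, ← det_mul, e, det_smul, Fintype.card_fin,
      mul_div_cancel_left₀ _ (pow_ne_zero 2 ha.ne')]
  · obtain ⟨x, h0, hx⟩ := exists_mulVec_eq_zero_iff.2 h
    have h1 := congrArg (x ⬝ᵥ ·) hx
    simp only [add_mulVec, one_mulVec, smul_mulVec, dotProduct_add, dotProduct_smul,
      dotProduct_zero, smul_eq_mul] at h1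
    have h2 := G.lt x h0
    have h3 := neg_abs_le (r * (x ⬝ᵥ Bm (a • P) Q *ᵥ x))
    rw [abs_mul] at h3
    nlinarith [abs_nonneg (x ⬝ᵥ Bm (a • P) Q *ᵥ x)]

theorem tr_sq (B : D3OD.M) (r : ℝ) : (((1 + r • B).det - (1 + (-r) • B).det) / 2) ^ 2 -
    2 * (r ^ 2 * B.det) = r ^ 2 * (B * B).trace := by
  simp [det_fin_two, trace_fin_two, mul_apply]
  ring

end LK

open LK in
theorem ric_of (uq : D3OD.S_UQ) (dg : D3OD.S_DIAG) (rc : D3OD.S_RIC) (en : D3OD.S_END) :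
    OnC fun m m' φ a _ => Sy m m' φ →
      ∀ c, 0 < c → c < a → ∀ z : V × V, ‖z.2‖ = 1 → Ric m m' φ a c z := by
  intro m m' φ a hi o j o' j' cf ha u u' _ sy c c0 ca z hz
  have z0 : z.2 ≠ 0 := fun e => by simp [e] at hz
  obtain ⟨β, F⟩ := exists_fr j hz
  obtain ⟨β', F'⟩ := exists_fr (z := φ z) j' ((cf.norm z z0).trans hz)
  obtain ⟨C, kM, kN, hh, vh, O⟩ := orb uq o j o' j' cf sy ha u u' hz F F'
  have G := fun t => dg _ _ _ _ _ _ _ O (a * t)
  obtain ⟨d, hd, hi⟩ := rc _ _ _ _ _ _ _ O (c / a) (div_pos c0 ha) ((div_lt_one ha).2 ca) 0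
  have hd' := (HasDerivAt.comp_of_eq (0 : ℝ) hd ((hasDerivAt_id (0 : ℝ)).const_mul a)
    (by simp)).div_const a
  simp only [inv_mul_cancel_left₀ ha.ne', Function.comp_def, id, mul_one, mul_zero,
    mul_div_cancel_right₀ _ ha.ne'] at G hd' hi
  have S := fun t => scal (y := m.Z t z) cf ((j.norm t z).trans hz) (F.b0 t)
    ((F'.b0 t).trans (by rw [cf.flow t z z0]))
  have ca' : ∀ s, |s| ≤ c → |s / a| ≤ 1 := fun s hs => by
    rw [abs_div, abs_of_pos ha, div_le_one ha]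
    exact hs.trans ca.le
  have mu : ∀ t, m'.mu (fr φ (m.Z t z).1) c (m.Z t z).2 = Fm (c / a) (Bm (a • bV (β t) (β' t)
      (dH m' φ (m.Z t z))) (bV (β t) (β' t) (dV m' φ (m.Z t z)))) / a := fun t => by
    obtain ⟨ε, h1, h2, -⟩ := S t
    obtain ⟨a1, -, a3⟩ := alg ha (G t)
    have e0 : ε ≠ 0 := fun e => by simp [e] at h1
    have n1 := a3 _ (ca' c (abs_of_pos c0).le)
    have n2 := a3 _ (ca' (-c) (by rw [abs_neg, abs_of_pos c0]))
    rw [MF.mu, h2, h2, a1, a1, Real.log_mul e0 (mul_ne_zero n1 (G t).det),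
      Real.log_mul e0 (mul_ne_zero n2 (G t).det), Real.log_mul n1 (G t).det,
      Real.log_mul n2 (G t).det, Fm, neg_div, neg_smul, ← sub_eq_add_neg]
    field_simp
    ring
  obtain ⟨ε, h1, h2, h3⟩ := S 0
  have G0 := G 0
  have b0 := F.b0 0
  have b0' := F'.b0 0
  simp only [o.zero, o'.zero] at h2 h3 G0 hi b0 b0'
  obtain ⟨a1, a2, a3⟩ := alg ha G0
  obtain ⟨e1, e2⟩ := en _ _ G0
  have e0 : ε ≠ 0 := fun e => by simp [e] at h1
  have q0 := G0.det
  generalize hB : Bm (a • bV (β 0) (β' 0) (dH m' φ z)) (bV (β 0) (β' 0) (dV m' φ z)) = B at *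
  have sq : m'.sq (fr φ z.1) z.2 = (B * B).trace / a ^ 2 := by
    have := tr_sq B (1 / a)
    rw [MF.sq, h2, h2, h2, h3, a1, a1, a2, zero_smul, add_zero, neg_div, div_eq_iff
      (pow_ne_zero 2 (mul_ne_zero e0 q0))]
    linear_combination (ε * (bV (β 0) (β' 0) (dV m' φ z)).det) ^ 2 * this
  refine ⟨fun s hs => ?_, sq ▸ div_nonneg e1 (sq_nonneg a), fun h => ?_, d, ?_, ?_⟩
  · rw [h2, a1]
    exact mul_ne_zero e0 (mul_ne_zero (a3 _ (ca' s hs)) q0)
  · rw [sq, div_eq_zero_iff, or_iff_left (pow_ne_zero 2 ha.ne')] at h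
    exact A_zero o o' cf sy z0 b0 b0' ((smul_eq_zero.1 (e2 h)).resolve_left ha.ne')
  · simpa only [mu] using hd'
  · obtain ⟨lam, l1, l2⟩ : ∃ lam, |lam| ≤ (c / a) ^ 2 ∧ lam * B.det = (c / a) ^ 2 * |B.det| := by
      rcases abs_cases B.det with h | h
      · exact ⟨_, (abs_of_nonneg (sq_nonneg _)).le, by rw [h.1]⟩
      · exact ⟨-(c / a) ^ 2, by rw [abs_neg, abs_of_nonneg (sq_nonneg _)], by rw [h.1]; ring⟩
    have := hi lam l1
    rw [l2] at this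
    rw [sq, h2, h3, a2, zero_smul, add_zero, abs_mul, abs_mul, abs_mul, abs_div, h1, abs_sq]
    refine le_of_sub_nonneg ((sub_nonneg.2 this).trans (le_of_eq ?_))
    field_simp
    ring

end

end Pool.Agent.MP_3ee8cb_gt.D3
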