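import Pool.Agent.MP_3ee8cb_gt.D3OD.Spec

/-! The algebraic inequality of the Riccati step. -/

namespace Pool.Agent.MP_3ee8cb_gt.D3OD

open Matrix

namespace RALG

theorem one (c b κ : ℝ) (hc0 : 0 < c) (hc1 : c < 1) (hb : |b| < 1) (hκ : 1 ≤ κ) :
    0 < 1 + c * b ∧ 0 < 1 - c * b ∧ ∃ g : ℝ, 0 < g ∧ g * (1 - c ^ 2 * b ^ 2) = 1 ∧
      (1 + c * b)⁻¹ + (1 - c * b)⁻¹ = 2 * g ∧
      g * (1 - b * κ * b) ≤ 1 - (1 - c ^ 2) * b ^ 2 := by
  obtain ⟨h1, h2⟩ := abs_lt.1 hb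
  have p1 : 0 < 1 + c * b := by nlinarith
  have p2 : 0 < 1 - c * b := by nlinarith
  have p3 : 0 < 1 - c ^ 2 * b ^ 2 := by nlinarith [mul_pos p1 p2]
  have e : (1 - c ^ 2 * b ^ 2)⁻¹ * (1 - c ^ 2 * b ^ 2) = 1 := inv_mul_cancel₀ p3.ne'
  refine ⟨p1, p2, (1 - c ^ 2 * b ^ 2)⁻¹, inv_pos.2 p3, e, ?_, ?_⟩
  · have : 1 - c ^ 2 * b ^ 2 = (1 + c * b) * (1 - c * b) := by ring
    rw [this]; field_simp; ring
  · set g := (1 - c ^ 2 * b ^ 2)⁻¹
    have g0 : 0 < g := inv_pos.2 p3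
    have g1 : 1 ≤ g := by nlinarith [mul_nonneg g0.le (mul_nonneg (sq_nonneg c) (sq_nonneg b))]
    have c2 : 0 ≤ 1 - c ^ 2 := by nlinarith
    have a1 : 0 ≤ g * (b ^ 2 * (κ - 1)) := mul_nonneg g0.le (mul_nonneg (sq_nonneg b) (by linarith))
    have a2 : 0 ≤ (g - 1) * ((1 - c ^ 2) * b ^ 2) :=
      mul_nonneg (by linarith) (mul_nonneg c2 (sq_nonneg b))
    nlinarith

theorem two (c lam b1 b2 g1 g2 W1 W2 d y : ℝ) (hc0 : 0 < c) (hc1 : c < 1) (h1 : |b1| < 1)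
    (h2 : |b2| < 1) (hl : |lam| ≤ c ^ 2) (g10 : 0 < g1) (g20 : 0 < g2)
    (e1 : g1 * (1 - c ^ 2 * b1 ^ 2) = 1) (e2 : g2 * (1 - c ^ 2 * b2 ^ 2) = 1)
    (w1 : 0 ≤ W1) (w2 : 0 ≤ W2) (hd : d ^ 2 ≤ W1 * W2) (y0 : 0 < y) (hy : y ^ 2 * d ^ 2 = 1) :
    2 - (g1 * W1 + g2 * W2) / 2 ≤ y * (1 - lam * (b1 * b2)) := by
  set X := g1 * W1 + g2 * W2 with hX
  set u := 1 - lam * (b1 * b2) with hu
  set m := |b1| * |b2| with hm
  have m0 : 0 ≤ m := mul_nonneg (abs_nonneg _) (abs_nonneg _)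
  have m1 : m ≤ 1 := mul_le_one₀ h1.le (abs_nonneg _) h2.le
  have c2 : c ^ 2 < 1 := by nlinarith
  have hlm : lam * (b1 * b2) ≤ c ^ 2 * m := by
    refine (le_abs_self _).trans ?_
    rw [abs_mul, abs_mul]
    exact mul_le_mul_of_nonneg_right hl m0
  have v0 : 0 < 1 - c ^ 2 * m := by nlinarith [sq_nonneg c]
  have uv : 1 - c ^ 2 * m ≤ u := by linarith
  have s1 : b1 ^ 2 = |b1| ^ 2 := (sq_abs _).symm
  have s2 : b2 ^ 2 = |b2| ^ 2 := (sq_abs _).symm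
  have k1 : (1 - c ^ 2 * b1 ^ 2) * (1 - c ^ 2 * b2 ^ 2) ≤ (1 - c ^ 2 * m) ^ 2 := by
    rw [s1, s2, hm]
    nlinarith [mul_nonneg (sq_nonneg c) (sq_nonneg (|b1| - |b2|))]
  have k2 : (1 - c ^ 2 * m) ^ 2 ≤ u ^ 2 := pow_le_pow_left₀ v0.le uv 2
  have gg : 0 < g1 * g2 := mul_pos g10 g20
  have k3 : 1 ≤ g1 * g2 * u ^ 2 := by
    have : g1 * g2 * ((1 - c ^ 2 * b1 ^ 2) * (1 - c ^ 2 * b2 ^ 2)) = 1 := by
      calc _ = (g1 * (1 - c ^ 2 * b1 ^ 2)) * (g2 * (1 - c ^ 2 * b2 ^ 2)) := by ring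
        _ = 1 := by rw [e1, e2]; ring
    rw [← this]
    exact mul_le_mul_of_nonneg_left (k1.trans k2) gg.le
  have k4 : 4 * (g1 * g2 * d ^ 2) ≤ X ^ 2 := by
    have := mul_le_mul_of_nonneg_left hd gg.le
    rw [hX]
    nlinarith [sq_nonneg (g1 * W1 - g2 * W2)]
  have X0 : 0 ≤ X := add_nonneg (mul_nonneg g10.le w1) (mul_nonneg g20.le w2)
  have a0 : 0 < y * u := mul_pos y0 (v0.trans_le uv)
  have k5 : 2 ^ 2 ≤ (y * u * X) ^ 2 := by
    have := mul_le_mul_of_nonneg_left k4 (sq_nonneg (y * u))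
    have e : (y * u) ^ 2 * (4 * (g1 * g2 * d ^ 2)) = 4 * (g1 * g2 * u ^ 2) * (y ^ 2 * d ^ 2) := by
      ring
    rw [e, hy] at this
    rw [mul_pow (y * u)]
    linarith
  have k6 : 2 ≤ y * u * X := le_of_sq_le_sq k5 (mul_nonneg a0.le X0)
  have k7 : 2 ^ 2 ≤ (y * u + X / 2) ^ 2 := by nlinarith [sq_nonneg (y * u - X / 2)]
  have k8 : 2 ≤ y * u + X / 2 := le_of_sq_le_sq k7 (by positivity)
  linarith

end RALG

theorem rALG : R_ALG := by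
  intro hE B κ Z c lam hB hlt hκ hZ hc0 hc1 hl
  obtain ⟨R, b, hR1, hR2, hBe⟩ := hE B hB
  have quad : ∀ (X : M) (i : Fin 2), (R *ᵥ Pi.single i 1) ⬝ᵥ X *ᵥ (R *ᵥ Pi.single i 1) =
      (Rᵀ * X * R) i i := fun X i => by
    fin_cases i <;>
      simp [dotProduct, mulVec, Matrix.mul_apply, Fin.sum_univ_two] <;> ring
  have unit : ∀ i : Fin 2, (R *ᵥ Pi.single i 1) ⬝ᵥ (R *ᵥ Pi.single i 1) = 1 := fun i => by
    have := quad 1 i
    rw [one_mulVec, Matrix.mul_one, hR2, one_apply_eq] at this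
    exact this
  have hD : Rᵀ * B * R = diagonal b := by
    rw [hBe]
    calc Rᵀ * (R * diagonal b * Rᵀ) * R = (Rᵀ * R) * diagonal b * (Rᵀ * R) := by
          simp only [Matrix.mul_assoc]
      _ = diagonal b := by rw [hR2, Matrix.one_mul, Matrix.mul_one]
  have hb : ∀ i, |b i| < 1 := fun i => by
    have := hlt (R *ᵥ Pi.single i 1) (fun h => by
      have h1 := unit i
      rw [h, dotProduct_zero] at h1
      exact zero_ne_one h1)
    rwa [quad, unit, hD, diagonal_apply_eq] at this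
  have hk : ∀ i, 1 ≤ (Rᵀ * κ * R) i i := fun i => by
    have := hκ (R *ᵥ Pi.single i 1)
    rwa [quad, unit] at this
  have dR : R.det * R.det = 1 := by
    have := congrArg Matrix.det hR1
    rwa [det_mul, det_transpose, det_one] at this
  have cj : ∀ v : V, (R * diagonal v * Rᵀ).det = v 0 * v 1 := fun v => by
    rw [det_mul, det_mul, det_transpose, det_diagonal, Fin.prod_univ_two]
    linear_combination (v 0 * v 1) * dR
  have sh : ∀ s : ℝ, 1 + s • B = R * diagonal (fun i => 1 + s * b i) * Rᵀ := fun s => by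
    have : (diagonal fun i => 1 + s * b i) = 1 + s • diagonal b := by
      ext i l
      fin_cases i <;> fin_cases l <;> simp
    rw [this, Matrix.mul_add, Matrix.add_mul, Matrix.mul_one, hR1, hBe, Matrix.mul_smul,
      Matrix.smul_mul]
  have sh' : 1 - c • B = R * diagonal (fun i => 1 - c * b i) * Rᵀ := by
    have := sh (-c)
    simpa only [neg_smul, neg_mul, ← sub_eq_add_neg] using this
  have iv : ∀ v : V, (∀ i, v i ≠ 0) →
      (R * diagonal v * Rᵀ)⁻¹ = R * diagonal (fun i => (v i)⁻¹) * Rᵀ := fun v hv => by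
    refine inv_eq_right_inv ?_
    calc R * diagonal v * Rᵀ * (R * diagonal (fun i => (v i)⁻¹) * Rᵀ)
        = R * (diagonal v * (Rᵀ * R) * diagonal (fun i => (v i)⁻¹)) * Rᵀ := by
          simp only [Matrix.mul_assoc]
      _ = 1 := by
          rw [hR2, Matrix.mul_one, diagonal_mul_diagonal]
          simp only [mul_inv_cancel₀ (hv _), diagonal_one, Matrix.mul_one, hR1]
  obtain ⟨p0, q0, g0, g00, e0, s0, t0⟩ := RALG.one c (b 0) _ hc0 hc1 (hb 0) (hk 0)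
  obtain ⟨p1, q1, g1, g10, e1, s1, t1⟩ := RALG.one c (b 1) _ hc0 hc1 (hb 1) (hk 1)
  refine ⟨by rw [sh, cj]; exact mul_pos p0 p1, by rw [sh', cj]; exact mul_pos q0 q1, ?_⟩
  set Y : M := Z⁻¹ * R with hY
  set K : M := Rᵀ * κ * R with hK
  have hG : (1 + c • B)⁻¹ + (1 - c • B)⁻¹ = R * diagonal ![2 * g0, 2 * g1] * Rᵀ := by
    rw [sh, sh', iv _ (Fin.forall_fin_two.2 ⟨p0.ne', p1.ne'⟩),
      iv _ (Fin.forall_fin_two.2 ⟨q0.ne', q1.ne'⟩), ← Matrix.add_mul, ← Matrix.mul_add,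
      diagonal_add]
    have : (fun i => (1 + c * b i)⁻¹ + (1 - c * b i)⁻¹) = ![2 * g0, 2 * g1] := by
      funext i
      fin_cases i
      · exact s0
      · exact s1
    rw [this]
  have hT : Rᵀ * (1 - B * κ * B - (Z⁻¹)ᵀ * Z⁻¹) * R =
      1 - diagonal b * K * diagonal b - Yᵀ * Y := by
    rw [Matrix.mul_sub, Matrix.mul_sub, Matrix.sub_mul, Matrix.sub_mul, Matrix.mul_one, hR2, hY,
      transpose_mul, ← hD, hK]
    have : Rᵀ * B * R * (Rᵀ * κ * R) * (Rᵀ * B * R) =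
        Rᵀ * B * (R * Rᵀ) * κ * (R * Rᵀ) * B * R := by simp only [Matrix.mul_assoc]
    rw [this, hR1]
    simp only [Matrix.mul_assoc, Matrix.one_mul]
  have hTr : (((1 + c • B)⁻¹ + (1 - c • B)⁻¹) * (1 - B * κ * B - (Z⁻¹)ᵀ * Z⁻¹)).trace =
      2 * g0 * (1 - b 0 * K 0 0 * b 0 - (Y 0 0 ^ 2 + Y 1 0 ^ 2)) +
      2 * g1 * (1 - b 1 * K 1 1 * b 1 - (Y 0 1 ^ 2 + Y 1 1 ^ 2)) := by
    rw [hG, Matrix.mul_assoc, Matrix.mul_assoc, trace_mul_comm, Matrix.mul_assoc, hT]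
    simp [trace_fin_two, Matrix.mul_apply, Fin.sum_univ_two, diagonal_apply]
    ring
  have hBB : (B * B).trace = b 0 ^ 2 + b 1 ^ 2 := by
    have : B * B = R * (diagonal b * (Rᵀ * R) * diagonal b * Rᵀ) := by
      rw [hBe]; simp only [Matrix.mul_assoc]
    rw [this, trace_mul_comm, Matrix.mul_assoc, hR2, Matrix.mul_one, Matrix.mul_one,
      diagonal_mul_diagonal, trace_diagonal, Fin.sum_univ_two]
    ring
  have hdet : B.det = b 0 * b 1 := by rw [hBe, cj]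
  have hy : |Z.det| ^ 2 * Y.det ^ 2 = 1 := by
    rw [sq_abs, hY, det_mul, det_nonsing_inv, Ring.inverse_eq_inv', mul_pow, sq R.det, dR]
    field_simp
  have := RALG.two c lam (b 0) (b 1) g0 g1 (Y 0 0 ^ 2 + Y 1 0 ^ 2) (Y 0 1 ^ 2 + Y 1 1 ^ 2) Y.det
    |Z.det| hc0 hc1 (hb 0) (hb 1) hl g00 g10 e0 e1 (by positivity) (by positivity)
    (by rw [det_fin_two]; nlinarith [sq_nonneg (Y 0 0 * Y 0 1 + Y 1 0 * Y 1 1)])
    (abs_pos.2 hZ) hy
  rw [hTr, hBB, hdet]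
  nlinarith

end Pool.Agent.MP_3ee8cb_gt.D3OD
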