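import Pool.Agent.MP_3ee8cb_gt.D3OD.Spec

/-! Derivatives of `B = A A'⁻¹` and of the potential. -/

namespace Pool.Agent.MP_3ee8cb_gt.D3OD

open Matrix

namespace RBDER

lemma inv_eq (P : M) :
    P⁻¹ = (P 0 0 * P 1 1 - P 0 1 * P 1 0)⁻¹ • !![P 1 1, -P 0 1; -P 1 0, P 0 0] := by
  rw [Matrix.inv_def, Ring.inverse_eq_inv', adjugate_fin_two, det_fin_two]

lemma md_mul {A B : ℝ → M} {X Y : M} {t : ℝ} (hA : MD A X t) (hB : MD B Y t) :
    MD (fun s => A s * B s) (X * B t + A t * Y) t := by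
  intro i l
  have h := ((hA i 0).fun_mul (hB 0 l)).fun_add ((hA i 1).fun_mul (hB 1 l))
  simp only [Matrix.mul_apply, Matrix.add_apply, Fin.sum_univ_two]
  exact h.congr_deriv (by ring)

lemma d_det {P : ℝ → M} {Y : M} {t : ℝ} (h : MD P Y t) :
    HasDerivAt (fun s => P s 0 0 * P s 1 1 - P s 0 1 * P s 1 0)
      (Y 0 0 * P t 1 1 + P t 0 0 * Y 1 1 - (Y 0 1 * P t 1 0 + P t 0 1 * Y 1 0)) t :=
  ((h 0 0).fun_mul (h 1 1)).fun_sub ((h 0 1).fun_mul (h 1 0))

lemma md_inv {P : ℝ → M} {Y : M} {t : ℝ} (h : MD P Y t) (hd : (P t).det ≠ 0) :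
    MD (fun s => (P s)⁻¹) (-((P t)⁻¹ * Y * (P t)⁻¹)) t := by
  rw [det_fin_two] at hd
  have hi := (d_det h).fun_inv hd
  have h00 := hi.fun_mul (h 1 1)
  have h01 := hi.fun_mul (h 0 1).fun_neg
  have h10 := hi.fun_mul (h 1 0).fun_neg
  have h11 := hi.fun_mul (h 0 0)
  simp only [MD, Fin.forall_fin_two, inv_eq, Matrix.neg_apply, Matrix.mul_apply, Fin.sum_univ_two,
    Matrix.smul_apply, smul_eq_mul, of_apply, cons_val', cons_val_zero, cons_val_one,
    cons_val_fin_one]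
  obtain ⟨d, hd'⟩ : ∃ d, d = P t 0 0 * P t 1 1 - P t 0 1 * P t 1 0 := ⟨_, rfl⟩
  rw [← hd'] at hd h00 h01 h10 h11 ⊢
  refine ⟨⟨h00.congr_deriv ?_, h01.congr_deriv ?_⟩, h10.congr_deriv ?_, h11.congr_deriv ?_⟩ <;>
    field_simp <;> rw [hd'] <;> ring

lemma d_log {P : ℝ → M} {Y : M} {t : ℝ} (h : MD P Y t) (hd : (P t).det ≠ 0) :
    HasDerivAt (fun s => Real.log (P s).det) ((P t)⁻¹ * Y).trace t := by
  rw [det_fin_two] at hd
  have hl := (d_det h).log hd
  simp only [det_fin_two, inv_eq, trace_fin_two, Matrix.mul_apply, Fin.sum_univ_two,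
    Matrix.smul_apply, smul_eq_mul, of_apply, cons_val', cons_val_zero, cons_val_one,
    cons_val_fin_one]
  exact hl.congr_deriv (by rw [div_eq_mul_inv]; ring)

end RBDER

open RBDER

theorem rBDER : S_BDER := by
  intro A A' X X' t hA hA' hd
  have h := md_mul hA (md_inv hA' hd)
  have e : X * (A' t)⁻¹ - Bm (A t) (A' t) * X' * (A' t)⁻¹ =
      X * (A' t)⁻¹ + A t * -((A' t)⁻¹ * X' * (A' t)⁻¹) := by
    simp only [Bm, Matrix.mul_neg, Matrix.mul_assoc, sub_eq_add_neg]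
  rw [e]
  exact h

theorem rFDER : S_FDER := by
  intro B Y c t hB hc hp hm
  have h1 : MD (fun s => 1 + c • B s) (c • Y) t := fun i l =>
    ((hB i l).const_mul c).const_add ((1 : M) i l)
  have h2 : MD (fun s => 1 - c • B s) (-(c • Y)) t := fun i l =>
    ((hB i l).const_mul c).const_sub ((1 : M) i l)
  have h := ((d_log h1 hp).fun_sub (d_log h2 hm)).div_const (2 * c)
  refine h.congr_deriv ?_
  simp only [Matrix.mul_neg, Matrix.mul_smul, trace_neg, trace_smul, smul_eq_mul, Matrix.add_mul,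
    trace_add]
  field_simp
  ring

end Pool.Agent.MP_3ee8cb_gt.D3OD
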