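import Pool.Agent.MP_3ee8cb_gt.D3OD.Spec

/-! The Riccati inequality for a general curvature bound, by rescaling. -/

namespace Pool.Agent.MP_3ee8cb_gt.D3OD

open Matrix

/-- As `Orb`, with the curvature of the target at least `a ^ 2`. -/
structure OrbA (a C : ℝ) (kM kN hh hv vh vv : ℝ → M) : Prop where
  cM : Cur 0 kM
  cN : Cur (a ^ 2) kN
  map : ∀ j j', Sol kM j j' →
    Sol kN (fun t => hh t *ᵥ j t + hv t *ᵥ j' t) (fun t => vh t *ᵥ j t + vv t *ᵥ j' t)
  symp : ∀ t x e x' e', om (hh t *ᵥ x + hv t *ᵥ e) (vh t *ᵥ x + vv t *ᵥ e)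
    (hh t *ᵥ x' + hv t *ᵥ e') (vh t *ᵥ x' + vv t *ᵥ e') = om x e x' e'
  up : ∀ t x e, n2 (hh t *ᵥ x + hv t *ᵥ e) (vh t *ᵥ x + vv t *ᵥ e) ≤ C * n2 x e

namespace Gen

theorem sol {k : ℝ → M} {j j' : ℝ → V} (h : Sol k j j') (r : ℝ) :
    Sol (fun t => r ^ 2 • k (r * t)) (fun t => j (r * t)) (fun t => r • j' (r * t)) := by
  have l : ∀ t : ℝ, HasDerivAt (fun s : ℝ => r * s) r t := fun t => by
    simpa using (hasDerivAt_id t).const_mul r
  refine ⟨fun t => (h.d1 (r * t)).scomp t (l t), fun t => ?_⟩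
  have := ((h.d2 (r * t)).scomp t (l t)).const_smul r
  rw [smul_smul, ← sq, ← smul_mulVec] at this
  exact this

theorem cur {b : ℝ} {k : ℝ → M} (h : Cur b k) (r : ℝ) :
    Cur (r ^ 2 * b) fun t => r ^ 2 • k (r * t) := by
  refine ⟨fun i l => ?_, fun t => by rw [transpose_smul, h.symm], fun t x => ?_⟩
  · exact continuous_const.mul ((h.cont i l).comp (continuous_const.mul continuous_id))
  · rw [smul_mulVec, dotProduct_smul, smul_eq_mul, mul_assoc]
    exact mul_le_mul_of_nonneg_left (h.low _ x) (sq_nonneg r)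

theorem dnn (x : V) : 0 ≤ x ⬝ᵥ x := by
  simp only [dotProduct, Fin.sum_univ_two]
  nlinarith [mul_self_nonneg (x 0), mul_self_nonneg (x 1)]

theorem n2s (r : ℝ) (x e : V) : n2 x (r • e) ≤ (1 + r ^ 2) * n2 x e := by
  simp only [n2, dotProduct_smul, smul_dotProduct, smul_eq_mul]
  nlinarith [dnn x, dnn e, mul_nonneg (sq_nonneg r) (dnn x)]

theorem orb {a C : ℝ} {kM kN hh hv vh vv : ℝ → M} (h : OrbA a C kM kN hh hv vh vv) (ha : 0 < a) :
    Orb ((1 + a⁻¹ ^ 2) * (|C| * (1 + a ^ 2))) (fun t => a⁻¹ ^ 2 • kM (a⁻¹ * t))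
      (fun t => a⁻¹ ^ 2 • kN (a⁻¹ * t)) (fun t => hh (a⁻¹ * t)) (fun t => a • hv (a⁻¹ * t))
      (fun t => a⁻¹ • vh (a⁻¹ * t)) (fun t => vv (a⁻¹ * t)) := by
  have e1 : ∀ (t : ℝ) (x e : V), hh t *ᵥ x + (a • hv t) *ᵥ e = hh t *ᵥ x + hv t *ᵥ (a • e) :=
    fun t x e => by rw [smul_mulVec, mulVec_smul]
  have e2 : ∀ (t : ℝ) (x e : V), (a⁻¹ • vh t) *ᵥ x + vv t *ᵥ e =
      a⁻¹ • (vh t *ᵥ x + vv t *ᵥ (a • e)) := fun t x e => by
    rw [smul_mulVec, mulVec_smul, smul_add, smul_smul, inv_mul_cancel₀ ha.ne', one_smul]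
  refine ⟨by simpa using cur h.cM a⁻¹, ?_, fun j j' s => ?_, fun t x e x' e' => ?_,
    fun t x e => ?_⟩
  · have := cur h.cN a⁻¹
    rwa [← mul_pow, inv_mul_cancel₀ ha.ne', one_pow] at this
  · have s1 := sol s a
    have k1 : (fun t => a ^ 2 • a⁻¹ ^ 2 • kM (a⁻¹ * (a * t))) = kM := by
      funext t
      rw [smul_smul, ← mul_pow, mul_inv_cancel₀ ha.ne', one_pow, one_smul,
        inv_mul_cancel_left₀ ha.ne']
    rw [k1] at s1
    have s2 := sol (h.map _ _ s1) a⁻¹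
    simp only [mul_inv_cancel_left₀ ha.ne'] at s2
    simp only [e1, e2]
    exact s2
  · have := h.symp (a⁻¹ * t) x (a • e) x' (a • e')
    simp only [e1, e2]
    simp only [om, dotProduct_smul, smul_dotProduct, smul_eq_mul] at this ⊢
    rw [← mul_sub, this]
    field_simp
  · simp only [e1, e2]
    refine (n2s _ _ _).trans ?_
    rw [mul_assoc]
    refine mul_le_mul_of_nonneg_left ((h.up _ _ _).trans ?_) (by positivity)
    rw [mul_assoc]
    have p : 0 ≤ n2 x (a • e) := add_nonneg (dnn _) (dnn _)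
    exact (mul_le_mul_of_nonneg_right (le_abs_self C) p).trans
      (mul_le_mul_of_nonneg_left (n2s _ _ _) (abs_nonneg C))

theorem fac (A A' : M) (h : A'.det ≠ 0) (s : ℝ) :
    (A' + s • A).det = (1 + s • Bm A A').det * A'.det := by
  rw [← det_mul, Matrix.add_mul, Matrix.one_mul, Matrix.smul_mul, Bm,
    nonsing_inv_mul_cancel_right _ _ (isUnit_iff_ne_zero.2 h)]

theorem facd (A A' : M) (h : A'.det ≠ 0) : A.det = (Bm A A').det * A'.det := by
  rw [← det_mul, Bm, nonsing_inv_mul_cancel_right _ _ (isUnit_iff_ne_zero.2 h)]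

theorem bsm (A A' : M) (r : ℝ) : Bm (r • A) A' = r • Bm A A' := by
  rw [Bm, Bm, Matrix.smul_mul]

theorem nz (B : M) (h : ∀ x : V, x ≠ 0 → |x ⬝ᵥ B *ᵥ x| < x ⬝ᵥ x) (s : ℝ) (hs : |s| ≤ 1) :
    (1 + s • B).det ≠ 0 := fun h0 => by
  obtain ⟨x, x0, hx⟩ := Matrix.exists_mulVec_eq_zero_iff.2 h0
  have h1 := congrArg (fun y => x ⬝ᵥ y) hx
  simp only [add_mulVec, one_mulVec, smul_mulVec, dotProduct_add, dotProduct_smul, smul_eq_mul,
    dotProduct_zero] at h1
  have h2 := h x x0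
  have h3 : |s * (x ⬝ᵥ B *ᵥ x)| ≤ |x ⬝ᵥ B *ᵥ x| := by
    rw [abs_mul]
    exact mul_le_of_le_one_left (abs_nonneg _) hs
  linarith [neg_abs_le (s * (x ⬝ᵥ B *ᵥ x))]

end Gen

theorem gen (dg : S_DIAG) (rc : S_RIC) (en : S_END) {a C c : ℝ} {kM kN hh hv vh vv : ℝ → M}
    (h : OrbA a C kM kN hh hv vh vv) (c0 : 0 < c) (ca : c < a) (t : ℝ) :
    (∀ s : ℝ, |s| ≤ c → (vv t + s • hv t).det ≠ 0) ∧ ∃ q : ℝ, 0 ≤ q ∧ (q = 0 → hv t = 0) ∧
      q = ((((vv t + (1 : ℝ) • hv t).det - (vv t + (-1 : ℝ) • hv t).det) / 2) ^ 2 -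
        2 * (hv t).det * (vv t).det) / (vv t).det ^ 2 ∧
      ∃ d, HasDerivAt (fun s => (Real.log (vv s + c • hv s).det -
        Real.log (vv s + (-c) • hv s).det) / (2 * c)) d t ∧
        d / 2 ≤ |(vv t).det| - c ^ 2 * |(hv t).det| - 1 - (a ^ 2 - c ^ 2) / 2 * q := by
  have ha : 0 < a := c0.trans ca
  have o := Gen.orb h ha
  have g : ∀ s, Good (a • hv s) (vv s) := fun s => by
    have := dg _ _ _ _ _ _ _ o (a * s)
    simpa only [inv_mul_cancel_left₀ ha.ne'] using this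
  have nz : ∀ s r : ℝ, |r| ≤ c → (1 + r • Bm (hv s) (vv s)).det ≠ 0 := fun s r hr => by
    have := Gen.nz _ (g s).lt (r / a) (by
      rw [abs_div, abs_of_pos ha, div_le_one ha]; linarith)
    rwa [Gen.bsm, smul_smul, div_mul_cancel₀ _ ha.ne'] at this
  set B := Bm (hv t) (vv t) with hB
  have tr : (Bm (a • hv t) (vv t) * Bm (a • hv t) (vv t)).trace = a ^ 2 * (B * B).trace := by
    rw [Gen.bsm, Matrix.smul_mul, Matrix.mul_smul, smul_smul, trace_smul, smul_eq_mul, sq]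
  have a2 : 0 < a ^ 2 := by positivity
  refine ⟨fun s hs => ?_, (B * B).trace, ?_, fun h0 => ?_, ?_, ?_⟩
  · rw [Gen.fac _ _ (g t).det]
    exact mul_ne_zero (nz t s hs) (g t).det
  · have := (en _ _ (g t)).1
    rw [tr] at this
    exact nonneg_of_mul_nonneg_right this a2 |> fun h => h
  · have := (en _ _ (g t)).2 (by rw [tr, h0, mul_zero])
    exact (smul_eq_zero.1 this).resolve_left ha.ne'
  · rw [Gen.fac _ _ (g t).det, Gen.fac _ _ (g t).det, Gen.facd (hv t) _ (g t).det, ← hB,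
      eq_div_iff (pow_ne_zero 2 (g t).det)]
    generalize (vv t).det = y
    simp [det_fin_two, trace_fin_two, Matrix.mul_apply, Fin.sum_univ_two]
    ring
  · obtain ⟨d, hd, hi⟩ := rc _ _ _ _ _ _ _ o (c / a) (div_pos c0 ha) ((div_lt_one ha).2 ca) (a * t)
    simp only [inv_mul_cancel_left₀ ha.ne'] at hi
    have l : HasDerivAt (fun s : ℝ => a * s) a t := by simpa using (hasDerivAt_id t).const_mul a
    have h1 := (hd.comp t l).div_const a
    refine ⟨d, ?_, ?_⟩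
    · rw [mul_div_cancel_right₀ _ ha.ne'] at h1
      refine h1.congr_of_eventuallyEq (Filter.Eventually.of_forall fun s => ?_)
      simp only [Function.comp, inv_mul_cancel_left₀ ha.ne', Fm, Gen.bsm, smul_smul,
        div_mul_cancel₀ _ ha.ne']
      rw [Gen.fac _ _ (g s).det, Gen.fac _ _ (g s).det,
        Real.log_mul (nz s c (abs_of_pos c0).le) (g s).det,
        Real.log_mul (nz s (-c) (by rw [abs_neg, abs_of_pos c0])) (g s).det, neg_smul,
        ← sub_eq_add_neg]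
      field_simp
      ring
    · have dB : (Bm (a • hv t) (vv t)).det = a ^ 2 * B.det := by
        rw [Gen.bsm, det_smul, Fintype.card_fin]
      have ab : |(hv t).det| = |B.det| * |(vv t).det| := by
        rw [Gen.facd (hv t) _ (g t).det, abs_mul]
      have q2 : (c / a) ^ 2 * a ^ 2 = c ^ 2 := by field_simp
      rw [tr, dB] at hi
      rw [ab]
      rcases abs_cases B.det with ⟨e, -⟩ | ⟨e, -⟩
      · have := hi ((c / a) ^ 2) (abs_of_nonneg (sq_nonneg _)).le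
        rw [← mul_assoc, ← mul_assoc, q2] at this
        rw [e]
        have e3 : (1 - (c / a) ^ 2) / 2 * a ^ 2 = (a ^ 2 - c ^ 2) / 2 := by rw [← q2]; ring
        rw [e3] at this
        linarith
      · have := hi (-(c / a) ^ 2) (by rw [abs_neg, abs_of_nonneg (sq_nonneg _)])
        rw [← mul_assoc, ← mul_assoc, neg_mul, q2] at this
        rw [e]
        have e3 : (1 - (c / a) ^ 2) / 2 * a ^ 2 = (a ^ 2 - c ^ 2) / 2 := by rw [← q2]; ring
        rw [e3] at this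
        linarith

end Pool.Agent.MP_3ee8cb_gt.D3OD
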