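import Pool.Agent.MP_3ee8cb_gt.D3OD.Spec

/-! Convexity: bounded solutions for nonnegative potential. -/

namespace Pool.Agent.MP_3ee8cb_gt.D3OD

open Matrix

namespace RBND

/-- A convex function that is bounded along a sequence tending to infinity decreases. -/
theorem key {f h d : ℝ → ℝ} (hf : ∀ t, HasDerivAt f (2 * h t) t) (hh : ∀ t, HasDerivAt h (d t) t)
    (hd : ∀ t, 0 ≤ d t) (hK : ∃ K : ℝ, ∀ T : ℝ, ∃ t, T ≤ t ∧ f t ≤ K) (t₀ : ℝ) : h t₀ ≤ 0 := by
  by_contra hc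
  have hc : 0 < h t₀ := not_le.1 hc
  have hm : Monotone h := monotone_of_deriv_nonneg (fun t => (hh t).differentiableAt)
    fun t => by rw [(hh t).deriv]; exact hd t
  have hg : ∀ t, HasDerivAt (fun t => f t - 2 * h t₀ * t) (2 * h t - 2 * h t₀) t := fun t =>
    ((hf t).sub ((hasDerivAt_id t).const_mul (2 * h t₀))).congr_deriv (by rw [mul_one])
  have hm2 : MonotoneOn (fun t => f t - 2 * h t₀ * t) (Set.Ici t₀) := by
    refine monotoneOn_of_deriv_nonneg (convex_Ici t₀)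
      (fun t _ => (hg t).continuousAt.continuousWithinAt)
      (fun t _ => (hg t).differentiableAt.differentiableWithinAt) fun t ht => ?_
    rw [(hg t).deriv]
    have := hm (interior_subset ht : t ∈ Set.Ici t₀)
    linarith
  obtain ⟨K, hK⟩ := hK
  obtain ⟨t, h1, h2⟩ := hK (t₀ + (|K - f t₀| + 1) / (2 * h t₀))
  have h3 : 0 ≤ (|K - f t₀| + 1) / (2 * h t₀) := by positivity
  have h4 : f t₀ - 2 * h t₀ * t₀ ≤ f t - 2 * h t₀ * t :=
    hm2 (Set.mem_Ici.2 le_rfl) (Set.mem_Ici.2 (by linarith)) (by linarith)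
  have h5 : (|K - f t₀| + 1) / (2 * h t₀) ≤ t - t₀ := by linarith
  rw [div_le_iff₀ (by positivity)] at h5
  have h6 := le_abs_self (K - f t₀)
  nlinarith

theorem key' {f h d : ℝ → ℝ} (hf : ∀ t, HasDerivAt f (2 * h t) t)
    (hh : ∀ t, HasDerivAt h (d t) t) (hd : ∀ t, 0 ≤ d t)
    (hK : ∃ K : ℝ, ∀ T : ℝ, ∃ t, t ≤ T ∧ f t ≤ K) (t₀ : ℝ) : 0 ≤ h t₀ := by
  have h1 := key (f := fun t => f (-t)) (h := fun t => -h (-t)) (d := fun t => d (-t))
    (fun t => by
      have := (hf (-t)).scomp t (hasDerivAt_neg t)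
      refine this.congr_deriv ?_
      simp)
    (fun t => by
      have := ((hh (-t)).scomp t (hasDerivAt_neg t)).neg
      refine this.congr_deriv ?_
      simp)
    (fun t => hd (-t))
    (by
      obtain ⟨K, hK⟩ := hK
      refine ⟨K, fun T => ?_⟩
      obtain ⟨t, h1, h2⟩ := hK (-T)
      exact ⟨-t, by linarith, by simpa using h2⟩) (-t₀)
  simpa using h1

theorem self_nonneg (x : V) : 0 ≤ x ⬝ᵥ x := Finset.sum_nonneg fun i _ => mul_self_nonneg (x i)

end RBND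

open RBND in
theorem rBND : R_BND := by
  intro hom k hk j j' hj
  obtain ⟨-, hf, hh⟩ := hom k hk.symm j j' j j' hj hj
  have hd : ∀ t, 0 ≤ j' t ⬝ᵥ j' t + j t ⬝ᵥ k t *ᵥ j t := fun t => by
    have h1 := hk.low t (j t)
    have h2 := self_nonneg (j' t)
    linarith
  have fin : ∀ s, j s = 0 → j' s ⬝ᵥ j' s + j s ⬝ᵥ k s *ᵥ j s = 0 → j' s = 0 := fun s h0 h1 => by
    rw [h0, zero_dotProduct, add_zero] at h1
    exact dotProduct_self_eq_zero.1 h1
  refine ⟨fun hF => ?_, fun hB => ?_⟩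
  · have h1 := key hf hh hd hF
    refine ⟨h1, fun s h0 => fin s h0 ?_⟩
    refine IsLocalMax.hasDerivAt_eq_zero (Filter.Eventually.of_forall fun t => ?_) (hh s)
    show j t ⬝ᵥ j' t ≤ j s ⬝ᵥ j' s
    rw [h0, zero_dotProduct]
    exact h1 t
  · have h1 := key' hf hh hd hB
    refine ⟨h1, fun s h0 => fin s h0 ?_⟩
    refine IsLocalMin.hasDerivAt_eq_zero (Filter.Eventually.of_forall fun t => ?_) (hh s)
    show j s ⬝ᵥ j' s ≤ j t ⬝ᵥ j' t
    rw [h0, zero_dotProduct]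
    exact h1 t

end Pool.Agent.MP_3ee8cb_gt.D3OD
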