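import Pool.Agent.MP_3ee8cb_gt.D3OD.Spec

/-! Row DER: derivative of the orbit map along the orbit. -/

namespace Pool.Agent.MP_3ee8cb_gt.D3OD

open Matrix

namespace RDER

theorem sol_add {k : ℝ → M} {a a' b b' : ℝ → V} (ha : Sol k a a') (hb : Sol k b b') :
    Sol k (fun s => a s + b s) (fun s => a' s + b' s) :=
  ⟨fun s => (ha.d1 s).add (hb.d1 s), fun s => by
    rw [Matrix.mulVec_add]; exact (ha.d2 s).add (hb.d2 s)⟩

theorem sol_smul {k : ℝ → M} {a a' : ℝ → V} (c : ℝ) (ha : Sol k a a') :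
    Sol k (fun s => c • a s) (fun s => c • a' s) :=
  ⟨fun s => (ha.d1 s).const_smul c, fun s => by
    rw [Matrix.mulVec_smul]; exact (ha.d2 s).const_smul c⟩

/-- The standard basis. -/
def e (i : Fin 2) : V := Pi.single i 1

theorem dot_e (x : V) (i : Fin 2) : x ⬝ᵥ e i = x i := by simp [e]

theorem e_dot (x : V) (i : Fin 2) : e i ⬝ᵥ x = x i := by simp [e]

theorem mul_e (A : M) (i l : Fin 2) : (A *ᵥ e l) i = A i l := by simp [e]

theorem decomp (x : V) : x = x 0 • e 0 + x 1 • e 1 := by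
  funext i
  fin_cases i <;> simp [e]

/-- The pair `(0, e_l)` at time `r` in terms of the fundamental system at time `t`. -/
theorem key (hEX : S_EX) (hUQ : S_UQ) (hOM : S_OM) {k : ℝ → M} (hc : Cont k)
    (hs : ∀ t, (k t)ᵀ = k t) {t : ℝ} {u u' v v' : Fin 2 → ℝ → V}
    (hu : ∀ i, Sol k (u i) (u' i)) (hv : ∀ i, Sol k (v i) (v' i))
    (u0 : ∀ i, u i t = e i) (u1 : ∀ i, u' i t = 0) (v0 : ∀ i, v i t = 0)
    (v1 : ∀ i, v' i t = e i) (r : ℝ) (l : Fin 2) :
    (0 : V) = (-(v 0 r l)) • u 0 r + (-(v 1 r l)) • u 1 r + (u 0 r l • v 0 r + u 1 r l • v 1 r) ∧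
    e l = (-(v 0 r l)) • u' 0 r + (-(v 1 r l)) • u' 1 r +
      (u 0 r l • v' 0 r + u 1 r l • v' 1 r) := by
  obtain ⟨j, j', hj, j0, j1⟩ := hEX k hc r 0 (e l)
  have a1 : ∀ i, j t i = -(v i r l) := fun i => by
    have h := (hOM k hs j j' (v i) (v' i) hj (hv i)).1 t r
    simp only [om, v0, v1, j0, j1, dot_e, e_dot, dotProduct_zero, zero_dotProduct] at h
    linarith
  have a2 : ∀ i, j' t i = u i r l := fun i => by
    have h := (hOM k hs j j' (u i) (u' i) hj (hu i)).1 t r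
    simp only [om, u0, u1, j0, j1, dot_e, e_dot, dotProduct_zero, zero_dotProduct] at h
    linarith
  have hw := sol_add (sol_add (sol_smul (j t 0) (hu 0)) (sol_smul (j t 1) (hu 1)))
    (sol_add (sol_smul (j' t 0) (hv 0)) (sol_smul (j' t 1) (hv 1)))
  have h := hUQ k hc j j' _ _ t hj hw
    (by simp only [u0, v0, smul_zero, add_zero]; exact decomp _)
    (by simp only [u1, v1, smul_zero, add_zero, zero_add]; exact decomp _) r
  simp only [j0, j1, a1, a2] at h
  exact h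

theorem lin (P Q : M) {x0 x1 y0 y1 x0' x1' y0' y1' z : V} {a0 a1 b0 b1 : ℝ}
    (h0 : (0 : V) = a0 • x0 + a1 • x1 + (b0 • y0 + b1 • y1))
    (h1 : z = a0 • x0' + a1 • x1' + (b0 • y0' + b1 • y1')) :
    Q *ᵥ z = a0 • (P *ᵥ x0 + Q *ᵥ x0') + a1 • (P *ᵥ x1 + Q *ᵥ x1') +
      (b0 • (P *ᵥ y0 + Q *ᵥ y0') + b1 • (P *ᵥ y1 + Q *ᵥ y1')) := by
  have h2 : P *ᵥ (a0 • x0 + a1 • x1 + (b0 • y0 + b1 • y1)) = 0 := by
    rw [← h0, Matrix.mulVec_zero]
  have h3 : Q *ᵥ z = P *ᵥ (a0 • x0 + a1 • x1 + (b0 • y0 + b1 • y1)) +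
      Q *ᵥ (a0 • x0' + a1 • x1' + (b0 • y0' + b1 • y1')) := by
    rw [h2, zero_add, ← h1]
  rw [h3]
  simp only [Matrix.mulVec_add, Matrix.mulVec_smul, smul_add]
  abel

theorem co {f : ℝ → V} {y : V} {t : ℝ} (h : HasDerivAt f y t) (i : Fin 2) :
    HasDerivAt (fun s => f s i) (y i) t := hasDerivAt_pi.1 h i

/-- Differentiation of the representation formula. -/
theorem der {t : ℝ} {u u' v v' U W : Fin 2 → ℝ → V} {X Y : Fin 2 → V}
    (hu : ∀ i, HasDerivAt (u i) (u' i t) t) (hv : ∀ i, HasDerivAt (v i) (v' i t) t)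
    (hU : ∀ i, HasDerivAt (U i) (X i) t) (hW : ∀ i, HasDerivAt (W i) (Y i) t)
    (u0 : ∀ i, u i t = e i) (u1 : ∀ i, u' i t = 0) (v0 : ∀ i, v i t = 0)
    (v1 : ∀ i, v' i t = e i) (i l : Fin 2) :
    HasDerivAt (fun r => ((-(v 0 r l)) • U 0 r + (-(v 1 r l)) • U 1 r +
      (u 0 r l • W 0 r + u 1 r l • W 1 r)) i) (Y l i - U l t i) t := by
  have h := ((((co (hv 0) l).neg.mul (co (hU 0) i)).add ((co (hv 1) l).neg.mul (co (hU 1) i))).add
    (((co (hu 0) l).mul (co (hW 0) i)).add ((co (hu 1) l).mul (co (hW 1) i))))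
  refine (h.congr_deriv ?_).congr_of_eventuallyEq (Filter.Eventually.of_forall fun r => ?_)
  · simp only [u0, u1, v0, v1, Pi.neg_apply, Pi.zero_apply]
    fin_cases l <;> simp [e] <;> ring
  · simp

end RDER

open RDER in
theorem rDER : R_DER := by
  intro hEX hUQ hOM C kM kN hh hv vh vv hO t
  choose u u' hu u0 u1 using fun i => hEX kM hO.cM.cont t (e i) 0
  choose v v' hv' v0 v1 using fun i => hEX kM hO.cM.cont t 0 (e i)
  have hk := key hEX hUQ hOM hO.cM.cont hO.cM.symm hu hv' u0 u1 v0 v1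
  have hU := fun i => hO.map _ _ (hu i)
  have hW := fun i => hO.map _ _ (hv' i)
  constructor
  · intro i l
    have h := der (fun i => (hu i).d1 t) (fun i => (hv' i).d1 t) (fun i => (hU i).d1 t)
      (fun i => (hW i).d1 t) u0 u1 v0 v1 i l
    refine (h.congr_deriv ?_).congr_of_eventuallyEq (Filter.Eventually.of_forall fun r => ?_)
    · simp only [u0, u1, v0, v1, Matrix.mulVec_zero, zero_add, add_zero, mul_e, Matrix.sub_apply]
    · have := congrFun (lin (hh r) (hv r) (hk r l).1 (hk r l).2) i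
      rw [mul_e] at this
      exact this
  · intro i l
    have h := der (fun i => (hu i).d1 t) (fun i => (hv' i).d1 t) (fun i => (hU i).d2 t)
      (fun i => (hW i).d2 t) u0 u1 v0 v1 i l
    refine (h.congr_deriv ?_).congr_of_eventuallyEq (Filter.Eventually.of_forall fun r => ?_)
    · simp only [u0, u1, v0, v1, Matrix.mulVec_zero, zero_add, add_zero, Matrix.mulVec_mulVec,
        mul_e, Matrix.sub_apply]
    · have := congrFun (lin (vh r) (vv r) (hk r l).1 (hk r l).2) i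
      rw [mul_e] at this
      exact this

end Pool.Agent.MP_3ee8cb_gt.D3OD
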