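import Pool.Agent.MP_3ee8cb_gt.D3OD.Spec

/-! Block OD, rows DIA and DIAG: the matrix form of the diamond. -/

namespace Pool.Agent.MP_3ee8cb_gt.D3OD

open Matrix

namespace RDIA

theorem back (X : M) (hX : X.det ≠ 0) (x : V) : X *ᵥ (X⁻¹ *ᵥ x) = x := by
  rw [mulVec_mulVec, mul_nonsing_inv X (isUnit_iff_ne_zero.mpr hX), one_mulVec]

theorem om0 {C : ℝ} {kM kN hh hv vh vv : ℝ → M} (h : Orb C kM kN hh hv vh vv) (s : ℝ)
    (x y : V) : om (hv s *ᵥ x) (vv s *ᵥ x) (hv s *ᵥ y) (vv s *ᵥ y) = 0 := by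
  have h1 := h.symp s 0 x 0 y
  simp only [mulVec_zero, zero_add] at h1
  rw [h1]
  simp [om]

end RDIA

theorem rDIA : R_DIA := by
  intro hOM hV hP hM C kM kN hh hv vh vv h s A A' hA e1 e2 t
  have hG : Good (A t) (A' t) := by
    refine hM (A t) (A' t) (fun x y => ?_) (fun μ e hμ he => ?_)
    · have h1 := (hOM kN h.cN.symm _ _ _ _ (hA x) (hA y)).1 t s
      rw [h1, e1, e2]
      exact RDIA.om0 h s x y
    · exact hV C kM kN hh hv vh vv h s e _ _ (hA e) (by simp only [e1]) (by simp only [e2]) he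
        t μ hμ
  refine ⟨hG, fun ht x hx => ?_⟩
  have hb := RDIA.back (A' t) hG.det x
  have he : (A' t)⁻¹ *ᵥ x ≠ 0 := by
    intro h0
    rw [h0, mulVec_zero] at hb
    exact hx hb.symm
  have h1 := hP C kM kN hh hv vh vv h s _ _ _ (hA ((A' t)⁻¹ *ᵥ x)) (by simp only [e1])
    (by simp only [e2]) he t ht
  rw [hb, mulVec_mulVec, dotProduct_comm] at h1
  exact h1

theorem rDIAG : R_DIAG := by
  intro hE hD C kM kN hh hv vh vv h t
  obtain ⟨A, A', hA, e1, e2⟩ := hE kN h.cN.cont t (hv t) (vv t)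
  have h1 := (hD C kM kN hh hv vh vv h t A A' hA e1 e2 t).1
  rwa [e1, e2] at h1

end Pool.Agent.MP_3ee8cb_gt.D3OD
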