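import Pool.Agent.MP_3ee8cb_gt.D3OD.Spec

/-! Block OD: the diamond, vector form. -/

namespace Pool.Agent.MP_3ee8cb_gt.D3OD

open Matrix

namespace RDIAV

lemma dnn (x : V) : 0 ≤ x ⬝ᵥ x := by
  simp only [dotProduct, Fin.sum_univ_two]
  nlinarith [mul_self_nonneg (x 0), mul_self_nonneg (x 1)]

lemma dz {x : V} (h : x ⬝ᵥ x ≤ 0) : x = 0 :=
  dotProduct_self_eq_zero.1 (le_antisymm h (dnn x))

lemma n2z {x e : V} (h : n2 x e ≤ 0) : x = 0 ∧ e = 0 := by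
  unfold n2 at h
  exact ⟨dz (by linarith [dnn e]), dz (by linarith [dnn x])⟩

lemma n2zero : n2 (0 : V) 0 = 0 := by simp [n2]

lemma cur0 {k : ℝ → M} (h : Cur 1 k) : Cur 0 k :=
  ⟨h.cont, h.symm, fun t x => by have := h.low t x; have := dnn x; linarith⟩

lemma sol0 (k : ℝ → M) : Sol k (fun _ => 0) (fun _ => 0) :=
  ⟨fun t => hasDerivAt_const t _, fun t => by
    rw [mulVec_zero]; exact hasDerivAt_const t _⟩

lemma key {a a' b b' : V} {μ : ℝ} (hμ : |μ| ≤ 1) (h : a' + b' = μ • (a + b))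
    (ha : a ⬝ᵥ a' ≤ -(a ⬝ᵥ a)) (hb : b ⬝ᵥ b ≤ b ⬝ᵥ b') (ho : om a a' b b' ≤ 0) :
    a = 0 ∨ b = 0 := by
  have h1 : a ⬝ᵥ a' + a ⬝ᵥ b' = μ * (a ⬝ᵥ a + a ⬝ᵥ b) := by
    rw [← dotProduct_add, h, dotProduct_smul, dotProduct_add, smul_eq_mul]
  have h2 : b ⬝ᵥ a' + b ⬝ᵥ b' = μ * (a ⬝ᵥ b + b ⬝ᵥ b) := by
    rw [← dotProduct_add, h, dotProduct_smul, dotProduct_add, smul_eq_mul, dotProduct_comm b a]
  unfold om at ho
  rw [dotProduct_comm a' b] at ho
  obtain ⟨m1, m2⟩ := abs_le.1 hμ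
  have hA := dnn a
  have hB := dnn b
  have h3 : (1 + μ) * (a ⬝ᵥ a) + (1 - μ) * (b ⬝ᵥ b) ≤ 0 := by nlinarith
  have p1 : 0 ≤ (1 + μ) * (a ⬝ᵥ a) := mul_nonneg (by linarith) hA
  have p2 : 0 ≤ (1 - μ) * (b ⬝ᵥ b) := mul_nonneg (by linarith) hB
  rcases le_total 0 μ with h0 | h0
  · exact Or.inl (dz (by nlinarith [mul_nonneg h0 hA]))
  · exact Or.inr (dz (by nlinarith [mul_nonneg (neg_nonneg.2 h0) hB]))

end RDIAV

open RDIAV in
theorem rDIAV : R_DIAV := by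
  intro hUQ hOM hBND hSTB hSPLIT hLOW C kM kN hh hv vh vv O s e J J' hJ hJs hJs' he t μ hμ hEq
  obtain ⟨a, a', b, b', ha, hb, hsum, hFa, hBb⟩ := hSPLIT kN O.cN J J' hJ
  obtain ⟨hC, hlow, hinv⟩ := hLOW C kM kN hh hv vh vv O
  obtain ⟨al, al', hal, hLa⟩ := hinv a a' ha
  obtain ⟨be, be', hbe, hLb⟩ := hinv b b' hb
  have la : ∀ r, n2 (al r) (al' r) ≤ C * n2 (a r) (a' r) := fun r => by
    rw [(hLa r).1, (hLa r).2]; exact hlow r _ _
  have lb : ∀ r, n2 (be r) (be' r) ≤ C * n2 (b r) (b' r) := fun r => by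
    rw [(hLb r).1, (hLb r).2]; exact hlow r _ _
  have Sa := (hSTB kN O.cN a a' ha).1 hFa
  have Sb := (hSTB kN O.cN b b' hb).2 hBb
  have hFal : Fwd al := ⟨C, fun T => by
    obtain ⟨r, hr, h1⟩ := Sa.2 1 one_pos T
    refine ⟨r, hr, ?_⟩
    have h2 := la r
    have h3 : C * n2 (a r) (a' r) ≤ C * 1 := mul_le_mul_of_nonneg_left h1.le hC.le
    have h4 := dnn (al' r)
    unfold n2 at h2 h3
    linarith⟩
  have hBbe : Bwd be := ⟨C, fun T => by
    obtain ⟨r, hr, h1⟩ := Sb.2 1 one_pos T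
    refine ⟨r, hr, ?_⟩
    have h2 := lb r
    have h3 : C * n2 (b r) (b' r) ≤ C * 1 := mul_le_mul_of_nonneg_left h1.le hC.le
    have h4 := dnn (be' r)
    unfold n2 at h2 h3
    linarith⟩
  have Bal := (hBND kM O.cM al al' hal).1 hFal
  have Bbe := (hBND kM O.cM be be' hbe).2 hBbe
  have hs : al s + be s = 0 ∧ al' s + be' s - e = 0 := by
    apply n2z
    have h := hlow s (al s + be s) (al' s + be' s - e)
    have e1 : hh s *ᵥ (al s + be s) + hv s *ᵥ (al' s + be' s - e) = 0 := by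
      have h1 := (hsum s).1
      rw [hJs, (hLa s).1, (hLb s).1] at h1
      rw [mulVec_sub, mulVec_add, mulVec_add, h1]
      abel
    have e2 : vh s *ᵥ (al s + be s) + vv s *ᵥ (al' s + be' s - e) = 0 := by
      have h1 := (hsum s).2
      rw [hJs', (hLa s).2, (hLb s).2] at h1
      rw [mulVec_sub, mulVec_add, mulVec_add, h1]
      abel
    rwa [e1, e2, n2zero, mul_zero] at h
  have ho : om (a t) (a' t) (b t) (b' t) ≤ 0 := by
    rw [(hOM kN O.cN.symm a a' b b' ha hb).1 t s, (hLa s).1, (hLa s).2, (hLb s).1, (hLb s).2,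
      O.symp]
    have h1 : be s = -al s := eq_neg_of_add_eq_zero_right hs.1
    have h2 := Bal.1 s
    have h3 := Bbe.1 s
    rw [h1, neg_dotProduct] at h3
    unfold om
    rw [h1, dotProduct_neg, dotProduct_comm (al' s)]
    linarith
  have hk := key hμ (by rw [← (hsum t).1, ← (hsum t).2]; exact hEq) (Sa.1 t) (Sb.1 t) ho
  apply he
  rcases hk with h0 | h0
  · have h1 := ((hBND kN (cur0 O.cN) a a' ha).1 hFa).2 t h0
    have h2 := la t
    rw [h0, h1, n2zero, mul_zero] at h2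
    have h3 := hUQ kM O.cM.cont al al' _ _ t hal (sol0 kM) (n2z h2).1 (n2z h2).2 s
    have h4 : be s = 0 := by have := hs.1; rwa [h3.1, zero_add] at this
    have h5 := hs.2
    rw [h3.2, Bbe.2 s h4, add_zero, zero_sub, neg_eq_zero] at h5
    exact h5
  · have h1 := ((hBND kN (cur0 O.cN) b b' hb).2 hBb).2 t h0
    have h2 := lb t
    rw [h0, h1, n2zero, mul_zero] at h2
    have h3 := hUQ kM O.cM.cont be be' _ _ t hbe (sol0 kM) (n2z h2).1 (n2z h2).2 s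
    have h4 : al s = 0 := by have := hs.1; rwa [h3.1, add_zero] at this
    have h5 := hs.2
    rw [h3.2, Bal.2 s h4, add_zero, zero_sub, neg_eq_zero] at h5
    exact h5

end Pool.Agent.MP_3ee8cb_gt.D3OD
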