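import Pool.Agent.MP_3ee8cb_gt.D3OD.Spec

/-! Row GROW: the speed of a solution which vanishes once does not drop afterwards. -/

namespace Pool.Agent.MP_3ee8cb_gt.D3OD

open Matrix Filter Topology

namespace RGROW

theorem cs (x y : V) : (x ⬝ᵥ y) ^ 2 ≤ (x ⬝ᵥ x) * (y ⬝ᵥ y) := by
  simp only [dotProduct, Fin.sum_univ_two]
  nlinarith [sq_nonneg (x 0 * y 1 - x 1 * y 0)]

theorem nn (x : V) : 0 ≤ x ⬝ᵥ x := by
  simp only [dotProduct, Fin.sum_univ_two]
  nlinarith [sq_nonneg (x 0), sq_nonneg (x 1)]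

theorem key (f h h' : ℝ → ℝ) (hf : ∀ t, HasDerivAt f (2 * h t) t)
    (hh : ∀ t, HasDerivAt h (h' t) t) (f0 : ∀ t, 0 ≤ f t) (h0 : ∀ t, 0 ≤ h' t)
    (hc : ∀ t, h t ^ 2 ≤ f t * h' t) (s t b : ℝ) (hs : f s = 0) (hb : 0 ≤ b)
    (ht : h t ^ 2 ≤ f t * b ^ 2) (r : ℝ) (h1 : s ≤ r) (h2 : r ≤ t) (d : ℝ) (hd : 0 < d) :
    f r ≤ (d + b * (r - s)) ^ 2 := by
  have hp : ∀ x, 0 < f x + d ^ 2 := fun x => by have := f0 x; positivity
  set g : ℝ → ℝ := fun x => Real.sqrt (f x + d ^ 2) with hg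
  have gp : ∀ x, 0 < g x := fun x => Real.sqrt_pos.2 (hp x)
  have gs : ∀ x, g x ^ 2 = f x + d ^ 2 := fun x => Real.sq_sqrt (hp x).le
  have dg : ∀ x, HasDerivAt g (h x / g x) x := fun x => by
    have := ((hf x).add_const (d ^ 2)).sqrt (hp x).ne'
    refine this.congr_deriv ?_
    have := (gp x).ne'
    show 2 * h x / (2 * g x) = h x / g x
    field_simp
  have dq : ∀ x, HasDerivAt (fun y => h y / g y)
      ((h' x * g x - h x * (h x / g x)) / g x ^ 2) x := fun x => (hh x).div (dg x) (gp x).ne'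
  have mq : Monotone fun y => h y / g y := by
    refine monotone_of_deriv_nonneg (fun x => (dq x).differentiableAt) fun x => ?_
    rw [(dq x).deriv]
    refine div_nonneg ?_ (sq_nonneg _)
    have e : h' x * g x - h x * (h x / g x) = (h' x * g x ^ 2 - h x ^ 2) / g x := by
      have := (gp x).ne'
      field_simp
    rw [e, gs]
    refine div_nonneg ?_ (gp x).le
    nlinarith [hc x, mul_nonneg (h0 x) (sq_nonneg d)]
  have qt : h t / g t ≤ b := by
    rw [div_le_iff₀ (gp t)]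
    refine le_trans (le_abs_self _) (abs_le_of_sq_le_sq' ?_ ?_).2 |>.trans' le_rfl
    · rw [sq_abs, mul_pow, gs]
      nlinarith [mul_nonneg (sq_nonneg b) (sq_nonneg d)]
    · exact mul_nonneg hb (gp t).le
  have dp : ∀ x, HasDerivAt (fun y => b * y - g y) (b * 1 - h x / g x) x := fun x =>
    ((hasDerivAt_id x).const_mul b).sub (dg x)
  have mp : MonotoneOn (fun y => b * y - g y) (Set.Iic t) := by
    refine monotoneOn_of_deriv_nonneg (convex_Iic t)
      (fun x _ => (dp x).continuousAt.continuousWithinAt)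
      (fun x _ => (dp x).differentiableAt.differentiableWithinAt) fun x hx => ?_
    rw [(dp x).deriv]
    have hx' : x ≤ t := Set.mem_Iic.1 (interior_subset hx)
    have := mq hx'
    simp only at this
    linarith
  have m1 := mp (Set.mem_Iic.2 (h1.trans h2)) (Set.mem_Iic.2 h2) h1
  simp only at m1
  have gs0 : g s = d := by
    show Real.sqrt (f s + d ^ 2) = d
    rw [hs, zero_add, Real.sqrt_sq hd.le]
  have m2 : g r ≤ d + b * (r - s) := by linarith
  have m3 := pow_le_pow_left₀ (gp r).le m2 2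
  rw [gs] at m3
  nlinarith [sq_nonneg d]

theorem lim (a c : ℝ) (h : ∀ d : ℝ, 0 < d → a ≤ (d + c) ^ 2) : a ≤ c ^ 2 := by
  have hc : Continuous fun d : ℝ => (d + c) ^ 2 := by fun_prop
  have h1 : Tendsto (fun d : ℝ => (d + c) ^ 2) (𝓝[>] 0) (𝓝 ((0 + c) ^ 2)) :=
    (hc.tendsto 0).mono_left nhdsWithin_le_nhds
  rw [zero_add] at h1
  exact ge_of_tendsto h1 (eventually_nhdsWithin_of_forall fun d hd => h d hd)

end RGROW

open RGROW in
theorem rGROW : R_GROW := by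
  intro hOM k hk j j' hj s hs t hst
  rcases hst.eq_or_lt with rfl | hlt
  · exact le_rfl
  obtain ⟨-, hf, hh⟩ := hOM k hk.symm j j' j j' hj hj
  have hkk : ∀ x, 0 ≤ j x ⬝ᵥ k x *ᵥ j x := fun x => by
    have := hk.low x (j x)
    rwa [zero_mul] at this
  have hb : Real.sqrt (j' t ⬝ᵥ j' t) ^ 2 = j' t ⬝ᵥ j' t := Real.sq_sqrt (nn _)
  have main : ∀ r, s ≤ r → r ≤ t → j r ⬝ᵥ j r ≤ (Real.sqrt (j' t ⬝ᵥ j' t) * (r - s)) ^ 2 := by
    intro r h1 h2
    refine lim _ _ fun d hd => ?_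
    refine key (fun x => j x ⬝ᵥ j x) (fun x => j x ⬝ᵥ j' x)
      (fun x => j' x ⬝ᵥ j' x + j x ⬝ᵥ k x *ᵥ j x) hf hh (fun x => nn _)
      (fun x => add_nonneg (nn _) (hkk x)) (fun x => ?_) s t _ ?_ (Real.sqrt_nonneg _) ?_ r h1 h2
      d hd
    · have := cs (j x) (j' x)
      nlinarith [mul_nonneg (nn (j x)) (hkk x)]
    · simp only [hs, zero_dotProduct]
    · rw [hb]
      exact cs _ _
  have h1 : Tendsto (slope j s) (𝓝[>] s) (𝓝 (j' s)) :=
    (hasDerivAt_iff_tendsto_slope.1 (hj.d1 s)).mono_left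
      (nhdsWithin_mono _ fun x hx => ne_of_gt hx)
  have hc : Continuous fun x : V => x ⬝ᵥ x := by fun_prop
  have h2 := (hc.tendsto (j' s)).comp h1
  refine le_of_tendsto h2 ?_
  filter_upwards [Ioo_mem_nhdsGT hlt] with r hr
  have hp : 0 < r - s := sub_pos.2 hr.1
  have m := main r hr.1.le hr.2.le
  rw [mul_pow, hb] at m
  show slope j s r ⬝ᵥ slope j s r ≤ _
  rw [slope_def_module, hs, sub_zero, smul_dotProduct, dotProduct_smul, smul_eq_mul, smul_eq_mul]
  have e : (r - s)⁻¹ * ((r - s)⁻¹ * (j r ⬝ᵥ j r)) = (j r ⬝ᵥ j r) / (r - s) ^ 2 := by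
    field_simp
  rw [e, div_le_iff₀ (pow_pos hp 2)]
  exact m

end Pool.Agent.MP_3ee8cb_gt.D3OD
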