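import Pool.Agent.MP_3ee8cb_gt.D3OD.Spec

/-! Block OD: the Hessian of the distance function. -/

namespace Pool.Agent.MP_3ee8cb_gt.D3OD

open Matrix

namespace RLAM

theorem comb {k : ℝ → M} {a a' b b' : ℝ → V} (ha : Sol k a a') (hb : Sol k b b') (e : V) :
    Sol k (fun t => e 0 • a t + e 1 • b t) (fun t => e 0 • a' t + e 1 • b' t) where
  d1 t := ((ha.d1 t).const_smul (e 0)).add ((hb.d1 t).const_smul (e 1))
  d2 t := by
    have := ((ha.d2 t).const_smul (e 0)).add ((hb.d2 t).const_smul (e 1))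
    rw [mulVec_add, mulVec_smul, mulVec_smul]
    exact this

theorem neg (om : S_OM) {k : ℝ → M} (hk : Cur 0 k) {K K' : ℝ → V} (h : Sol k K K') {s T : ℝ}
    (hs : s < T) (h0 : K T = 0) (h1 : K' T ≠ 0) : K s ⬝ᵥ K' s < 0 := by
  have d := (om k hk.symm K K' K K' h h).2.2
  have nn : ∀ x : V, 0 ≤ x ⬝ᵥ x := fun x => by
    simp only [dotProduct, Fin.sum_univ_two]
    nlinarith [sq_nonneg (x 0), sq_nonneg (x 1)]
  have mono : Monotone fun t => K t ⬝ᵥ K' t := monotone_of_deriv_nonneg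
    (fun t => (d t).differentiableAt) fun t => by
      rw [(d t).deriv]
      have := hk.low t (K t)
      have := nn (K' t)
      linarith
  by_contra hn
  have z : ∀ t ∈ Set.Icc s T, K t ⬝ᵥ K' t = 0 := fun t ht => by
    have a1 : K s ⬝ᵥ K' s ≤ K t ⬝ᵥ K' t := mono ht.1
    have a2 : K t ⬝ᵥ K' t ≤ K T ⬝ᵥ K' T := mono ht.2
    rw [h0, zero_dotProduct] at a2
    linarith [not_lt.1 hn]
  have hT : T ∈ Set.Icc s T := Set.right_mem_Icc.2 hs.le
  have e1 : HasDerivWithinAt (fun t => K t ⬝ᵥ K' t) 0 (Set.Icc s T) T :=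
    (hasDerivWithinAt_const T (Set.Icc s T) (0 : ℝ)).congr z (z T hT)
  have e2 := (uniqueDiffOn_Icc hs T hT).eq_deriv _ (d T).hasDerivWithinAt e1
  rw [h0, zero_dotProduct, add_zero] at e2
  exact h1 (dotProduct_self_eq_zero.1 e2)

/-- The matrix with columns `a` and `b`. -/
def col (a b : V) : M := Matrix.of fun i l => ![a i, b i] l

theorem col_mul (a b e : V) : col a b *ᵥ e = e 0 • a + e 1 • b := by
  funext i
  simp [col, mulVec, dotProduct, Fin.sum_univ_two, mul_comm]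

end RLAM

open RLAM in
theorem rLAM : R_LAM := by
  intro ex uq om k hk s T hs
  obtain ⟨a, a', ha, a0, a1⟩ := ex k hk.cont T 0 (Pi.single 0 1)
  obtain ⟨b, b', hb, b0, b1⟩ := ex k hk.cont T 0 (Pi.single 1 1)
  have z : ∀ e : V, e 0 • a T + e 1 • b T = 0 := fun e => by simp [a0, b0]
  have z' : ∀ e : V, e 0 • a' T + e 1 • b' T = e := fun e => by
    funext i
    fin_cases i <;> simp [a1, b1]
  have ng : ∀ e : V, e ≠ 0 → (col (a s) (b s) *ᵥ e) ⬝ᵥ (col (a' s) (b' s) *ᵥ e) < 0 :=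
    fun e he => by
      rw [col_mul, col_mul]
      exact neg om hk (comb ha hb e) hs (z e) (by rw [z']; exact he)
  have dt : IsUnit (col (a s) (b s)).det := by
    rw [isUnit_iff_ne_zero, Ne, ← exists_mulVec_eq_zero_iff]
    rintro ⟨e, he, h⟩
    have := ng e he
    rw [h, zero_dotProduct] at this
    exact lt_irrefl _ this
  have iv : ∀ x : V, col (a s) (b s) *ᵥ ((col (a s) (b s))⁻¹ *ᵥ x) = x := fun x => by
    rw [mulVec_mulVec, mul_nonsing_inv _ dt, one_mulVec]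
  have vi : ∀ x : V, (col (a s) (b s))⁻¹ *ᵥ (col (a s) (b s) *ᵥ x) = x := fun x => by
    rw [mulVec_mulVec, nonsing_inv_mul _ dt, one_mulVec]
  have Lx : ∀ x : V, (-(col (a' s) (b' s) * (col (a s) (b s))⁻¹)) *ᵥ x =
      -(col (a' s) (b' s) *ᵥ ((col (a s) (b s))⁻¹ *ᵥ x)) := fun x => by
    rw [neg_mulVec, mulVec_mulVec]
  have sy : ∀ x y : V, x ⬝ᵥ (-(col (a' s) (b' s) * (col (a s) (b s))⁻¹)) *ᵥ y =
      y ⬝ᵥ (-(col (a' s) (b' s) * (col (a s) (b s))⁻¹)) *ᵥ x := fun x y => by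
    have := (om k hk.symm _ _ _ _ (comb ha hb ((col (a s) (b s))⁻¹ *ᵥ x))
      (comb ha hb ((col (a s) (b s))⁻¹ *ᵥ y))).1 s T
    simp only [D3OD.om, z, zero_dotProduct, dotProduct_zero, sub_zero] at this
    rw [← col_mul, ← col_mul, ← col_mul, ← col_mul, iv, iv] at this
    rw [Lx, Lx, dotProduct_neg, dotProduct_neg, dotProduct_comm y]
    linarith
  refine ⟨-(col (a' s) (b' s) * (col (a s) (b s))⁻¹), ?_, fun x hx => ?_,
    fun K K' h h0 => ?_, fun x => ⟨_, _, comb ha hb ((col (a s) (b s))⁻¹ *ᵥ x), z _, ?_⟩⟩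
  · generalize -(col (a' s) (b' s) * (col (a s) (b s))⁻¹) = L at sy
    ext i l
    have := sy (Pi.single l 1) (Pi.single i 1)
    simpa [transpose_apply] using this
  · have := ng ((col (a s) (b s))⁻¹ *ᵥ x) fun h => hx (by rw [← iv x, h, mulVec_zero])
    rw [iv] at this
    rw [Lx, dotProduct_neg]
    linarith
  · have := uq k hk.cont _ _ _ _ T h (comb ha hb (K' T)) (by rw [h0, z]) (z' _).symm s
    rw [Lx, neg_neg, this.1, this.2, ← col_mul, ← col_mul, vi]
  · rw [← col_mul, iv]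

end Pool.Agent.MP_3ee8cb_gt.D3OD
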