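import Pool.Agent.MP_3ee8cb_gt.D3OD.Spec

/-! Block OD, row LOW: the lower bound and the inverse of the orbit map. -/

namespace Pool.Agent.MP_3ee8cb_gt.D3OD

open Matrix

namespace RLOW

theorem n2_eq (x e : V) : n2 x e = x 0 ^ 2 + x 1 ^ 2 + e 0 ^ 2 + e 1 ^ 2 := by
  simp only [n2, dotProduct, Fin.sum_univ_two]; ring

theorem n2_nonneg (x e : V) : 0 ≤ n2 x e := by
  rw [n2_eq]; positivity

theorem om_sq (x e x' e' : V) : om x e x' e' ^ 2 ≤ n2 x e * n2 x' e' := by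
  rw [n2_eq, n2_eq]
  simp only [om, dotProduct, Fin.sum_univ_two]
  nlinarith [sq_nonneg (x 0 * e' 1 - x 1 * e' 0), sq_nonneg (x 0 * x' 0 + e 0 * e' 0),
    sq_nonneg (x 0 * x' 1 + e 1 * e' 0), sq_nonneg (x 1 * x' 0 + e 0 * e' 1),
    sq_nonneg (x 1 * x' 1 + e 1 * e' 1), sq_nonneg (e 0 * x' 1 - e 1 * x' 0)]

theorem om_rot (x e : V) : om x e (-e) x = n2 x e := by
  simp only [om, n2, dotProduct_neg]; ring

theorem n2_rot (x e : V) : n2 (-e) x = n2 x e := by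
  simp only [n2, dotProduct_neg, neg_dotProduct]; ring

theorem n2_zero {x e : V} (h : n2 x e ≤ 0) : x = 0 ∧ e = 0 := by
  rw [n2_eq] at h
  have h0 : x 0 = 0 := by nlinarith [sq_nonneg (x 0), sq_nonneg (x 1), sq_nonneg (e 0), sq_nonneg (e 1)]
  have h1 : x 1 = 0 := by nlinarith [sq_nonneg (x 0), sq_nonneg (x 1), sq_nonneg (e 0), sq_nonneg (e 1)]
  have h2 : e 0 = 0 := by nlinarith [sq_nonneg (x 0), sq_nonneg (x 1), sq_nonneg (e 0), sq_nonneg (e 1)]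
  have h3 : e 1 = 0 := by nlinarith [sq_nonneg (x 0), sq_nonneg (x 1), sq_nonneg (e 0), sq_nonneg (e 1)]
  constructor
  · funext i; fin_cases i
    · exact h0
    · exact h1
  · funext i; fin_cases i
    · exact h2
    · exact h3

variable {C : ℝ} {kM kN hh hv vh vv : ℝ → M}

theorem sq_le (O : Orb C kM kN hh hv vh vv) (t : ℝ) (x e : V) :
    n2 x e ^ 2 ≤ n2 (hh t *ᵥ x + hv t *ᵥ e) (vh t *ᵥ x + vv t *ᵥ e) * (C * n2 x e) := by
  have h1 := O.symp t x e (-e) x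
  rw [om_rot] at h1
  have h2 := om_sq (hh t *ᵥ x + hv t *ᵥ e) (vh t *ᵥ x + vv t *ᵥ e)
    (hh t *ᵥ (-e) + hv t *ᵥ x) (vh t *ᵥ (-e) + vv t *ᵥ x)
  rw [h1] at h2
  have h3 := O.up t (-e) x
  rw [n2_rot] at h3
  exact h2.trans (mul_le_mul_of_nonneg_left h3 (n2_nonneg _ _))

theorem pos (O : Orb C kM kN hh hv vh vv) : 0 < C := by
  have h := sq_le O 0 (fun _ => 1) 0
  have h2 : n2 (fun _ => (1 : ℝ)) 0 = 2 := by rw [n2_eq]; norm_num
  rw [h2] at h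
  by_contra hc
  have hc' : C ≤ 0 := not_lt.mp hc
  have h3 := n2_nonneg (hh 0 *ᵥ (fun _ => (1 : ℝ)) + hv 0 *ᵥ 0) (vh 0 *ᵥ (fun _ => (1 : ℝ)) + vv 0 *ᵥ 0)
  nlinarith

theorem low (O : Orb C kM kN hh hv vh vv) (t : ℝ) (x e : V) :
    n2 x e ≤ C * n2 (hh t *ᵥ x + hv t *ᵥ e) (vh t *ᵥ x + vv t *ᵥ e) := by
  have h := sq_le O t x e
  rcases (n2_nonneg x e).eq_or_lt with h0 | h0
  · rw [← h0]; exact mul_nonneg (pos O).le (n2_nonneg _ _)
  · apply le_of_mul_le_mul_right _ h0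
    nlinarith

/-- The orbit map at the time `t`, as a linear map. -/
def lin (hh hv vh vv : ℝ → M) (t : ℝ) : (V × V) →ₗ[ℝ] (V × V) where
  toFun z := (hh t *ᵥ z.1 + hv t *ᵥ z.2, vh t *ᵥ z.1 + vv t *ᵥ z.2)
  map_add' z w := by
    simp only [Prod.fst_add, Prod.snd_add, mulVec_add, Prod.mk_add_mk]
    refine Prod.ext ?_ ?_ <;> simp only <;> abel
  map_smul' c z := by
    simp only [Prod.smul_fst, Prod.smul_snd, mulVec_smul, RingHom.id_apply, Prod.smul_mk,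
      smul_add]

theorem surj (O : Orb C kM kN hh hv vh vv) (t : ℝ) :
    Function.Surjective (lin hh hv vh vv t) := by
  rw [← LinearMap.injective_iff_surjective, ← LinearMap.ker_eq_bot, LinearMap.ker_eq_bot']
  intro z hz
  have h1 : hh t *ᵥ z.1 + hv t *ᵥ z.2 = 0 := congrArg Prod.fst hz
  have h2 : vh t *ᵥ z.1 + vv t *ᵥ z.2 = 0 := congrArg Prod.snd hz
  have h := low O t z.1 z.2
  rw [h1, h2] at h
  have h0 : n2 (0 : V) 0 = 0 := by rw [n2_eq]; simp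
  rw [h0, mul_zero] at h
  obtain ⟨a, b⟩ := n2_zero h
  exact Prod.ext a b

end RLOW

theorem rLOW : R_LOW := by
  intro hEX hUQ C kM kN hh hv vh vv O
  refine ⟨RLOW.pos O, RLOW.low O, ?_⟩
  intro J J' hJ
  obtain ⟨z, hz⟩ := RLOW.surj O 0 (J 0, J' 0)
  obtain ⟨j, j', hj, h1, h2⟩ := hEX kM O.cM.cont 0 z.1 z.2
  refine ⟨j, j', hj, ?_⟩
  have hm := O.map j j' hj
  have e1 : hh 0 *ᵥ z.1 + hv 0 *ᵥ z.2 = J 0 := congrArg Prod.fst hz
  have e2 : vh 0 *ᵥ z.1 + vv 0 *ᵥ z.2 = J' 0 := congrArg Prod.snd hz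
  exact hUQ kN O.cN.cont J J' _ _ 0 hJ hm (by simp only [h1, h2, e1]) (by simp only [h1, h2, e2])

end Pool.Agent.MP_3ee8cb_gt.D3OD
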