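import Pool.Agent.MP_3ee8cb_gt.D3OD.Spec

/-! Block OD: diagonalisation, and the bounds on `B` from the pencil. -/

namespace Pool.Agent.MP_3ee8cb_gt.D3OD

open Matrix

theorem rEIG : S_EIG := fun B hB => by
  have h : B.IsHermitian := by rw [IsHermitian, conjTranspose_eq_transpose_of_trivial, hB]
  have e : star (h.eigenvectorUnitary : M) = (h.eigenvectorUnitary : M)ᵀ :=
    conjTranspose_eq_transpose_of_trivial _
  refine ⟨h.eigenvectorUnitary, h.eigenvalues, ?_, ?_, ?_⟩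
  · rw [← e]
    exact h.eigenvectorUnitary.2.2
  · rw [← e]
    exact h.eigenvectorUnitary.2.1
  · have := h.spectral_theorem
    rw [Unitary.conjStarAlgAut_apply, e] at this
    exact this

namespace RMAT

theorem dot (R : M) (x y : V) : x ⬝ᵥ R *ᵥ y = Rᵀ *ᵥ x ⬝ᵥ y := by
  rw [dotProduct_mulVec, mulVec_transpose]

theorem bound {b y : V} (hb : ∀ i, |b i| < 1) (hy : y ≠ 0) :
    |y ⬝ᵥ diagonal b *ᵥ y| < y ⬝ᵥ y := by
  have h0 := abs_lt.1 (hb 0)
  have h1 := abs_lt.1 (hb 1)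
  have h2 : y 0 ≠ 0 ∨ y 1 ≠ 0 := by
    by_contra hc
    rw [not_or, not_not, not_not] at hc
    exact hy (funext fun i => by fin_cases i <;> simp [hc.1, hc.2])
  simp only [dotProduct, Fin.sum_univ_two, mulVec_diagonal]
  have a0 := mul_self_nonneg (y 0)
  have a1 := mul_self_nonneg (y 1)
  rcases h2 with h | h
  · have := mul_self_pos.2 h
    rw [abs_lt]
    constructor <;> nlinarith
  · have := mul_self_pos.2 h
    rw [abs_lt]
    constructor <;> nlinarith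

end RMAT

theorem rMAT : R_MAT := fun hE A A' hom hμ => by
  have hd : A'.det ≠ 0 := fun e => by
    obtain ⟨v, hv, h⟩ := exists_mulVec_eq_zero_iff.2 e
    exact hμ 0 v (by simp) hv (by rw [h, zero_smul])
  have hi : ∀ u : V, A' *ᵥ (A'⁻¹ *ᵥ u) = u := fun u => by
    rw [mulVec_mulVec, mul_nonsing_inv _ (isUnit_iff_ne_zero.2 hd), one_mulVec]
  have hB : ∀ u : V, A *ᵥ (A'⁻¹ *ᵥ u) = Bm A A' *ᵥ u := fun u => mulVec_mulVec _ _ _
  have hs : (Bm A A')ᵀ = Bm A A' := by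
    ext i l
    have := hom (A'⁻¹ *ᵥ Pi.single i 1) (A'⁻¹ *ᵥ Pi.single l 1)
    rw [om, hi, hi, hB, hB, sub_eq_zero, dotProduct_single, single_dotProduct] at this
    simpa using this
  obtain ⟨R, b, h1, h2, h3⟩ := hE _ hs
  have hb : ∀ i, |b i| < 1 := fun i => by
    by_contra hc
    have hc := not_lt.1 hc
    have b0 : b i ≠ 0 := fun e => by
      rw [e, abs_zero] at hc
      linarith
    have hv : Rᵀ *ᵥ (R *ᵥ Pi.single i 1) = Pi.single i 1 := by
      rw [mulVec_mulVec, h2, one_mulVec]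
    have e1 : Bm A A' *ᵥ (R *ᵥ Pi.single i 1) = b i • (R *ᵥ Pi.single i 1) := by
      rw [h3, ← mulVec_mulVec, ← mulVec_mulVec, hv, ← mulVec_smul]
      refine congrArg _ (funext fun l => ?_)
      rw [mulVec_diagonal, Pi.smul_apply, smul_eq_mul]
      by_cases e : l = i
      · rw [e]
      · rw [Pi.single_eq_of_ne e, mul_zero, mul_zero]
    refine hμ (b i)⁻¹ (A'⁻¹ *ᵥ (R *ᵥ Pi.single i 1)) ?_ (fun e => ?_) ?_
    · rw [abs_inv]
      exact inv_le_one_of_one_le₀ hc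
    · have := hi (R *ᵥ Pi.single i 1)
      rw [e, mulVec_zero] at this
      rw [← this, mulVec_zero] at hv
      simpa using congrFun hv i
    · rw [hi, hB, e1, smul_smul, inv_mul_cancel₀ b0, one_smul]
  refine ⟨hd, hs, fun x hx => ?_⟩
  have e0 : R *ᵥ (Rᵀ *ᵥ x) = x := by rw [mulVec_mulVec, h1, one_mulVec]
  have e1 : x ⬝ᵥ x = Rᵀ *ᵥ x ⬝ᵥ Rᵀ *ᵥ x := by rw [← RMAT.dot, e0]
  rw [h3, ← mulVec_mulVec, ← mulVec_mulVec, RMAT.dot, e1]
  exact RMAT.bound hb fun e => hx (by rw [← e0, e, mulVec_zero])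

end Pool.Agent.MP_3ee8cb_gt.D3OD
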