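import Pool.Agent.MP_3ee8cb_gt.D3OD.Spec

/-! The symplectic first integral; matrix solutions. -/

namespace Pool.Agent.MP_3ee8cb_gt.D3OD

open Matrix

namespace ROM

theorem dot {u w : ℝ → V} {u' w' : V} {t : ℝ} (hu : HasDerivAt u u' t) (hw : HasDerivAt w w' t) :
    HasDerivAt (fun s => u s ⬝ᵥ w s) (u' ⬝ᵥ w t + u t ⬝ᵥ w') t := by
  have a := hasDerivAt_pi.mp hu
  have b := hasDerivAt_pi.mp hw
  have h := ((a 0).mul (b 0)).add ((a 1).mul (b 1))
  have e1 : (fun s => u s ⬝ᵥ w s) = fun s => u s 0 * w s 0 + u s 1 * w s 1 := by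
    funext s
    simp only [dotProduct, Fin.sum_univ_two]
  have e2 : u' ⬝ᵥ w t + u t ⬝ᵥ w' =
      u' 0 * w t 0 + u t 0 * w' 0 + (u' 1 * w t 1 + u t 1 * w' 1) := by
    simp only [dotProduct, Fin.sum_univ_two]
    ring
  rw [e1, e2]
  exact h

theorem sym {k : M} (hk : kᵀ = k) (x y : V) : (k *ᵥ x) ⬝ᵥ y = x ⬝ᵥ k *ᵥ y := by
  have h : k 1 0 = k 0 1 := by
    have := congrFun (congrFun hk 0) 1
    simpa using this
  simp only [dotProduct, mulVec, Fin.sum_univ_two, h]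
  ring

theorem col (u : Fin 2 → V) (e : V) :
    (Matrix.of fun i l => u l i) *ᵥ e = e 0 • u 0 + e 1 • u 1 := by
  funext i
  simp only [dotProduct, mulVec, Fin.sum_univ_two, Matrix.of_apply, Pi.add_apply, Pi.smul_apply,
    smul_eq_mul]
  ring

end ROM

theorem rOM : S_OM := by
  intro k hk j j' i i' hj hi
  refine ⟨fun t s => ?_, fun t => ?_, fun t => ?_⟩
  · have hd : ∀ x, HasDerivAt (fun s => om (j s) (j' s) (i s) (i' s)) 0 x := by
      intro x
      have h := (ROM.dot (hj.d1 x) (hi.d2 x)).sub (ROM.dot (hj.d2 x) (hi.d1 x))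
      have e : j' x ⬝ᵥ i' x + j x ⬝ᵥ k x *ᵥ i x - ((k x *ᵥ j x) ⬝ᵥ i x + j' x ⬝ᵥ i' x) = 0 := by
        rw [ROM.sym (hk x)]
        ring
      rw [e] at h
      exact h
    exact is_const_of_deriv_eq_zero (fun x => (hd x).differentiableAt) (fun x => (hd x).deriv) t s
  · have h := ROM.dot (hj.d1 t) (hj.d1 t)
    have e : j' t ⬝ᵥ j t + j t ⬝ᵥ j' t = 2 * (j t ⬝ᵥ j' t) := by
      rw [dotProduct_comm (j' t)]
      ring
    rw [e] at h
    exact h
  · exact ROM.dot (hj.d1 t) (hj.d2 t)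

theorem rMEX : R_MEX := by
  intro ex k hk s X X'
  choose u u' hu h1 h2 using fun l : Fin 2 => ex k hk s (fun i => X i l) (fun i => X' i l)
  refine ⟨fun t => Matrix.of fun i l => u l t i, fun t => Matrix.of fun i l => u' l t i,
    fun e => ⟨fun t => ?_, fun t => ?_⟩, ?_, ?_⟩
  · simp only [ROM.col (fun l => u l _) e, ROM.col (fun l => u' l _) e]
    exact (((hu 0).d1 t).const_smul (e 0)).add (((hu 1).d1 t).const_smul (e 1))
  · simp only [ROM.col (fun l => u l _) e, ROM.col (fun l => u' l _) e, mulVec_add, mulVec_smul]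
    exact (((hu 0).d2 t).const_smul (e 0)).add (((hu 1).d2 t).const_smul (e 1))
  · ext i l
    simp only [Matrix.of_apply, h1]
  · ext i l
    simp only [Matrix.of_apply, h2]

end Pool.Agent.MP_3ee8cb_gt.D3OD
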