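import Pool.Agent.MP_3ee8cb_gt.D3OD.Spec

/-! Row RICI: the Riccati inequality integrated over the unit interval. -/

namespace Pool.Agent.MP_3ee8cb_gt.D3OD

open Matrix

namespace RRICI

theorem cont_of (A : ℝ → M) (h : ∀ t, ∃ X, MD A X t) : Continuous A := by
  refine continuous_pi fun i => continuous_pi fun l => continuous_iff_continuousAt.2 fun t => ?_
  obtain ⟨X, hX⟩ := h t
  exact (hX i l).continuousAt

theorem integ (g F : ℝ → ℝ) (hg : Continuous g)
    (h : ∀ t, ∃ F' : ℝ, HasDerivAt F F' t ∧ 1 + F' / 2 ≤ g t) :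
    1 + (F 1 - F 0) / 2 ≤ ∫ t in (0 : ℝ)..1, g t := by
  choose F' hF hle using h
  have hd : ∀ t, HasDerivAt (fun u => (∫ s in (0 : ℝ)..u, g s) - u - F u / 2)
      (g t - 1 - F' t / 2) t := fun t =>
    ((intervalIntegral.integral_hasDerivAt_right (hg.intervalIntegrable 0 t)
      (hg.stronglyMeasurableAtFilter _ _) hg.continuousAt).sub (hasDerivAt_id t)).sub ((hF t).div_const 2)
  have hm : Monotone fun u => (∫ s in (0 : ℝ)..u, g s) - u - F u / 2 :=
    monotone_of_deriv_nonneg (fun t => (hd t).differentiableAt) fun t => by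
      rw [(hd t).deriv]
      linarith [hle t]
  have h01 := hm (zero_le_one (α := ℝ))
  simp only [intervalIntegral.integral_same] at h01
  linarith

end RRICI

theorem rRICI : R_RICI := by
  intro hDiag hDer hB hRic C kM kN hh hv vh vv ho c hc0 hc1 lam hl hlam
  have cv : Continuous vv := RRICI.cont_of vv fun t => ⟨_, (hDer C kM kN hh hv vh vv ho t).2⟩
  have cB : Continuous fun t => Bm (hv t) (vv t) := RRICI.cont_of _ fun t =>
    ⟨_, hB hv vv _ _ t (hDer C kM kN hh hv vh vv ho t).1 (hDer C kM kN hh hv vh vv ho t).2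
      (hDiag C kM kN hh hv vh vv ho t).det⟩
  refine RRICI.integ _ (fun s => Fm c (Bm (hv s) (vv s))) ?_ fun t => ?_
  · exact ((cv.matrix_det.abs).mul (continuous_const.sub (hl.mul cB.matrix_det))).sub
      (continuous_const.mul (cB.matrix_mul cB).matrix_trace)
  · obtain ⟨F', hF, hle⟩ := hRic C kM kN hh hv vh vv ho c hc0 hc1 t
    refine ⟨F', hF, ?_⟩
    have := hle (lam t) (hlam t)
    linarith

end Pool.Agent.MP_3ee8cb_gt.D3OD
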