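import Pool.Agent.MP_3ee8cb_gt.D3OD.Spec

/-! Block OD: the Schur complement of a symplectic matrix and the pointwise Riccati step. -/

namespace Pool.Agent.MP_3ee8cb_gt.D3OD

open Matrix

namespace RSCH

theorem bil (P Q R S T : M)
    (h : ∀ x y : V, (P *ᵥ x) ⬝ᵥ (Q *ᵥ y) - (R *ᵥ x) ⬝ᵥ (S *ᵥ y) = x ⬝ᵥ (T *ᵥ y)) :
    Pᵀ * Q - Rᵀ * S = T := by
  ext i j
  have h1 := h (Pi.single i 1) (Pi.single j 1)
  simp only [mulVec_single_one, single_dotProduct, one_mul] at h1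
  simpa [dotProduct, mul_apply, Matrix.col] using h1

end RSCH

theorem rSCH : S_SCH := by
  intro H A D A' h hd
  have hu : IsUnit A'.det := isUnit_iff_ne_zero.mpr hd
  have h1 : Hᵀ * A' - Dᵀ * A = 1 := by
    apply RSCH.bil
    intro x y
    have := h x 0 0 y
    simpa [om] using this
  have h2 : Aᵀ * A' - A'ᵀ * A = 0 := by
    apply RSCH.bil
    intro x y
    have := h 0 x 0 y
    simpa [om] using this
  have h3 : A'ᵀ * H - Aᵀ * D = 1 := by
    have := congrArg Matrix.transpose h1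
    simpa [transpose_sub, transpose_mul] using this
  have h4 : A'ᵀ * Bm A A' = Aᵀ := by
    rw [Bm, ← Matrix.mul_assoc, ← sub_eq_zero.mp h2, Matrix.mul_assoc,
      Matrix.mul_nonsing_inv _ hu, Matrix.mul_one]
  have h5 : A'ᵀ * (H - Bm A A' * D) = 1 := by
    rw [Matrix.mul_sub, ← Matrix.mul_assoc, h4, h3]
  have h6 : (A'⁻¹)ᵀ * A'ᵀ = 1 := by
    rw [← transpose_mul, Matrix.mul_nonsing_inv _ hu, transpose_one]
  have h7 : H - Bm A A' * D = (A'⁻¹)ᵀ := by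
    calc H - Bm A A' * D = ((A'⁻¹)ᵀ * A'ᵀ) * (H - Bm A A' * D) := by rw [h6, Matrix.one_mul]
      _ = (A'⁻¹)ᵀ := by rw [Matrix.mul_assoc, h5, Matrix.mul_one]
  rw [h7]

theorem rRIC : R_RIC := by
  intro diag der bder fder sch alg C kM kN hh hv vh vv ho c hc0 hc1 t
  have g := diag C kM kN hh hv vh vv ho t
  obtain ⟨d1, d2⟩ := der C kM kN hh hv vh vv ho t
  have hu : IsUnit (vv t).det := isUnit_iff_ne_zero.mpr g.det
  have hb := bder hv vv _ _ t d1 d2 g.det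
  have hs := sch (hh t) (hv t) (vh t) (vv t) (ho.symp t) g.det
  have hY : (vv t - hh t) * (vv t)⁻¹ - Bm (hv t) (vv t) * (kN t * hv t - vh t) * (vv t)⁻¹ =
      1 - Bm (hv t) (vv t) * kN t * Bm (hv t) (vv t) - ((vv t)⁻¹)ᵀ * (vv t)⁻¹ := by
    rw [← hs]
    have e1 : Bm (hv t) (vv t) * kN t * Bm (hv t) (vv t) =
        Bm (hv t) (vv t) * (kN t * hv t) * (vv t)⁻¹ := by
      nth_rewrite 2 [Bm]
      simp only [Matrix.mul_assoc]
    rw [e1, Matrix.sub_mul, Matrix.mul_nonsing_inv _ hu, Matrix.mul_sub, Matrix.sub_mul,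
      Matrix.sub_mul]
    abel
  rw [hY] at hb
  have hk : ∀ x : V, x ⬝ᵥ x ≤ x ⬝ᵥ kN t *ᵥ x := fun x => by
    simpa using ho.cN.low t x
  have a0 := alg (Bm (hv t) (vv t)) (kN t) (vv t) c 0 g.symm g.lt hk g.det hc0 hc1
    (by simpa using sq_nonneg c)
  refine ⟨_, fder (fun s => Bm (hv s) (vv s)) _ c t hb hc0.ne' a0.1.ne' a0.2.1.ne', ?_⟩
  intro lam hl
  exact (alg (Bm (hv t) (vv t)) (kN t) (vv t) c lam g.symm g.lt hk g.det hc0 hc1 hl).2.2

end Pool.Agent.MP_3ee8cb_gt.D3OD
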