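import Pool.Agent.MP_3ee8cb_gt.D3OD.Spec

/-! Block OD: the sign of the Hessian at a tangency. -/

namespace Pool.Agent.MP_3ee8cb_gt.D3OD

open Matrix

namespace RSIG

theorem form (H : M) (x : V) : x ⬝ᵥ H *ᵥ x =
    x 0 * (H 0 0 * x 0 + H 0 1 * x 1) + x 1 * (H 1 0 * x 0 + H 1 1 * x 1) := by
  simp [dotProduct, mulVec, Fin.sum_univ_two]

theorem sym {H : M} (h : Hᵀ = H) : H 1 0 = H 0 1 := congrFun (congrFun h 0) 1

theorem det_pos {P : M} (hs : Pᵀ = P) (hp : ∀ x : V, x ≠ 0 → 0 < x ⬝ᵥ P *ᵥ x) : 0 < P.det := by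
  have h0 : 0 < P 0 0 := by
    have := hp ![1, 0] fun e => by simpa using congrFun e 0
    rw [form] at this
    simpa using this
  have h1 := hp ![-P 0 1, P 0 0] fun e => h0.ne' (by simpa using congrFun e 1)
  rw [form] at h1
  simp only [cons_val_zero, cons_val_one] at h1
  rw [det_fin_two]
  rw [sym hs] at h1 ⊢
  refine (mul_pos_iff_of_pos_left h0).1 ?_
  linarith

/-- The determinant of `B L + 1` is positive. -/
theorem det_adm {B L : M} (h : Adm B L) : 0 < (B * L + 1).det := by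
  have h1 := det_pos h.symL h.posL
  have h2 : 0 < (L * (B * L + 1)).det := by
    refine det_pos ?_ fun x hx => ?_
    · rw [transpose_mul, transpose_add, transpose_mul, transpose_one, h.symL, h.symB, add_mul,
        mul_add, one_mul, mul_one, mul_assoc]
    · have := h.pos x hx
      rwa [← mulVec_mulVec, add_mulVec, one_mulVec, mulVec_add, dotProduct_add, ← mulVec_mulVec,
        dotProduct_mulVec x L, ← mulVec_transpose, h.symL]
  rw [det_mul] at h2
  exact (mul_pos_iff_of_pos_left h1).1 h2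

end RSIG

open RSIG

theorem rSIG : S_SIG := by
  intro A A' L hA h
  have h1 := det_adm h
  have hB := h.symB
  have hL := h.symL
  have e : A = Bm A A' * A' := (nonsing_inv_mul_cancel_right A' A (Ne.isUnit hA)).symm
  generalize Bm A A' = B at h1 hB e ⊢
  subst e
  have e2 : (B * A')ᵀ * L * (B * A') + A'ᵀ * (B * A') = A'ᵀ * ((B * L + 1) * B) * A' := by
    rw [transpose_mul, hB]
    noncomm_ring
  have e3 : (A'ᵀ * ((B * L + 1) * B) * A').det = A'.det ^ 2 * (B * L + 1).det * B.det := by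
    rw [det_mul, det_mul, det_mul, det_transpose]
    ring
  have h2 : 0 < A'.det ^ 2 * (B * L + 1).det := by positivity
  rw [e2, e3]
  refine ⟨?_, fun hd => mul_pos h2 hd, fun hd => mul_neg_of_pos_of_neg h2 hd⟩
  simp only [transpose_mul, transpose_add, transpose_one, transpose_transpose, hB, hL]
  noncomm_ring

theorem rDEF : S_DEF := by
  intro H hs hd
  rw [det_fin_two, sym hs] at hd
  have key : ∀ x : V, x ≠ 0 → 0 < H 0 0 * (x ⬝ᵥ H *ᵥ x) := by
    intro x hx
    have h0 : H 0 0 ≠ 0 := fun e => by rw [e] at hd; nlinarith [mul_self_nonneg (H 0 1)]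
    rw [form, sym hs, show H 0 0 * (x 0 * (H 0 0 * x 0 + H 0 1 * x 1) +
      x 1 * (H 0 1 * x 0 + H 1 1 * x 1)) = (H 0 0 * x 0 + H 0 1 * x 1) ^ 2 +
        (H 0 0 * H 1 1 - H 0 1 * H 0 1) * x 1 ^ 2 by ring]
    by_cases h1 : x 1 = 0
    · have h2 : x 0 ≠ 0 := fun e => hx (by ext i; fin_cases i <;> simp [e, h1])
      rw [h1]
      have := pow_pos (abs_pos.2 (mul_ne_zero h0 h2)) 2
      rw [sq_abs] at this
      simpa using this
    · positivity
  rcases le_total 0 (H 0 0) with h | h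
  · exact Or.inl fun x hx => by nlinarith [key x hx]
  · exact Or.inr fun x hx => by nlinarith [key x hx]

theorem rNOMIN : S_NOMIN := by
  intro B L e h he
  obtain ⟨x, hx⟩ : ∃ x : V, (B * L + 1) *ᵥ x = e :=
    ⟨(B * L + 1)⁻¹ *ᵥ e, by
      rw [mulVec_mulVec, mul_nonsing_inv _ (Ne.isUnit (det_adm h).ne'), one_mulVec]⟩
  have h0 : x ≠ 0 := fun e0 => he (by rw [← hx, e0, mulVec_zero])
  have e1 : (1 : ℝ) • e - B *ᵥ (L *ᵥ x) = x := by
    rw [← hx, one_smul, add_mulVec, one_mulVec, mulVec_mulVec, add_sub_cancel_left]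
  refine ⟨1, L *ᵥ x, ?_⟩
  rw [e1, dotProduct_comm (L *ᵥ x) x]
  linarith [h.pos x h0]

end Pool.Agent.MP_3ee8cb_gt.D3OD
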