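import Pool.Agent.MP_3ee8cb_gt.D3OD.Spec

/-! Block OD: the splitting into stable and unstable parts, and bounded first integrals. -/

namespace Pool.Agent.MP_3ee8cb_gt.D3OD

open Matrix

namespace RSPLIT

theorem dot2 (x y : V) : x ⬝ᵥ y = x 0 * y 0 + x 1 * y 1 := by
  simp [dotProduct, Fin.sum_univ_two]

theorem cur0 {k : ℝ → M} (h : Cur 1 k) : Cur 0 k := by
  refine ⟨h.cont, h.symm, fun t x => ?_⟩
  have h1 := h.low t x
  have h2 : 0 ≤ x ⬝ᵥ x := by rw [dot2]; nlinarith [mul_self_nonneg (x 0), mul_self_nonneg (x 1)]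
  linarith

theorem sol_lin {k : ℝ → M} {j j' i i' : ℝ → V} (hj : Sol k j j') (hi : Sol k i i') (a b : ℝ) :
    Sol k (fun t => a • j t + b • i t) (fun t => a • j' t + b • i' t) := by
  refine ⟨fun t => ((hj.d1 t).const_smul a).add ((hi.d1 t).const_smul b), fun t => ?_⟩
  have h := ((hj.d2 t).const_smul a).add ((hi.d2 t).const_smul b)
  rw [Matrix.mulVec_add, Matrix.mulVec_smul, Matrix.mulVec_smul]
  exact h

theorem comb_le (a b : ℝ) (x y : V) (hx : x ⬝ᵥ x ≤ 1) (hy : y ⬝ᵥ y ≤ 1) :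
    (a • x + b • y) ⬝ᵥ (a • x + b • y) ≤ 2 * a ^ 2 + 2 * b ^ 2 := by
  rw [dot2] at hx hy ⊢
  simp only [Pi.add_apply, Pi.smul_apply, smul_eq_mul]
  have h1 := mul_le_mul_of_nonneg_left hx (sq_nonneg a)
  have h2 := mul_le_mul_of_nonneg_left hy (sq_nonneg b)
  nlinarith [sq_nonneg (a * x 0 - b * y 0), sq_nonneg (a * x 1 - b * y 1)]

theorem e0 : (![1, 0] : V) ⬝ᵥ (![1, 0] : V) = 1 := by simp

theorem e1 : (![0, 1] : V) ⬝ᵥ (![0, 1] : V) = 1 := by simp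

theorem basis (x : V) : x 0 • (![1, 0] : V) + x 1 • (![0, 1] : V) = x := by
  ext i
  fin_cases i <;> simp

theorem zero_of_dot {x : V} (h : x ⬝ᵥ x ≤ 0) : x = 0 := by
  rw [dot2] at h
  have h0 : x 0 = 0 := by nlinarith [mul_self_nonneg (x 0), mul_self_nonneg (x 1)]
  have h1 : x 1 = 0 := by nlinarith [mul_self_nonneg (x 0), mul_self_nonneg (x 1)]
  ext i
  fin_cases i
  · exact h0
  · exact h1

theorem dot_nonneg (x : V) : 0 ≤ x ⬝ᵥ x := by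
  rw [dot2]; nlinarith [mul_self_nonneg (x 0), mul_self_nonneg (x 1)]

theorem cs (p q a b : V) : (p ⬝ᵥ a + q ⬝ᵥ b) ^ 2 ≤ n2 p q * n2 a b := by
  simp only [n2, dot2]
  nlinarith [sq_nonneg (p 0 * a 1 - p 1 * a 0), sq_nonneg (p 0 * b 0 - q 0 * a 0),
    sq_nonneg (p 0 * b 1 - q 1 * a 0), sq_nonneg (p 1 * b 0 - q 0 * a 1),
    sq_nonneg (p 1 * b 1 - q 1 * a 1), sq_nonneg (q 0 * b 1 - q 1 * b 0)]

theorem n2_nonneg (p q : V) : 0 ≤ n2 p q := add_nonneg (dot_nonneg p) (dot_nonneg q)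

theorem small {p q a a' : ℝ → V} {C : ℝ}
    (hc : ∀ t s, p t ⬝ᵥ a t + q t ⬝ᵥ a' t = p s ⬝ᵥ a s + q s ⬝ᵥ a' s)
    (hC : ∀ t, n2 (p t) (q t) ≤ C) (hs : ∀ ε : ℝ, 0 < ε → ∃ t, n2 (a t) (a' t) < ε) (t : ℝ) :
    p t ⬝ᵥ a t + q t ⬝ᵥ a' t = 0 := by
  by_contra hne
  have hd : 0 < (p t ⬝ᵥ a t + q t ⬝ᵥ a' t) ^ 2 := by positivity
  have hC0 : 0 ≤ C := (n2_nonneg _ _).trans (hC t)
  obtain ⟨s, hs⟩ := hs ((p t ⬝ᵥ a t + q t ⬝ᵥ a' t) ^ 2 / (C + 1)) (by positivity)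
  have h1 := cs (p s) (q s) (a s) (a' s)
  rw [← hc t s] at h1
  rw [lt_div_iff₀ (by positivity)] at hs
  have h2 := mul_le_mul_of_nonneg_right (hC s) (n2_nonneg (a s) (a' s))
  have h3 := n2_nonneg (a s) (a' s)
  nlinarith

end RSPLIT

open RSPLIT

theorem rSPLIT : R_SPLIT := by
  intro _ hUQ hOM hBND hSTA k hk J J' hJ
  have hk0 := cur0 hk
  obtain ⟨⟨s0, s0', hs0, hs00, hs0b⟩, u0, u0', hu0, hu00, hu0b⟩ := hSTA k hk0 ![1, 0]
  obtain ⟨⟨s1, s1', hs1, hs10, hs1b⟩, u1, u1', hu1, hu10, hu1b⟩ := hSTA k hk0 ![0, 1]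
  rw [e0] at hs0b hu0b
  rw [e1] at hs1b hu1b
  have hF : ∀ a b : ℝ, Fwd fun t => a • s0 t + b • s1 t := fun a b =>
    ⟨2 * a ^ 2 + 2 * b ^ 2, fun T => ⟨max T 0, le_max_left _ _,
      comb_le a b _ _ (hs0b _ (le_max_right _ _)) (hs1b _ (le_max_right _ _))⟩⟩
  have hB : ∀ a b : ℝ, Bwd fun t => a • u0 t + b • u1 t := fun a b =>
    ⟨2 * a ^ 2 + 2 * b ^ 2, fun T => ⟨min T 0, min_le_left _ _,
      comb_le a b _ _ (hu0b _ (min_le_right _ _)) (hu1b _ (min_le_right _ _))⟩⟩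
  let L : V →ₗ[ℝ] V :=
    (LinearMap.proj 0 : V →ₗ[ℝ] ℝ).smulRight (u0' 0 - s0' 0) +
      (LinearMap.proj 1 : V →ₗ[ℝ] ℝ).smulRight (u1' 0 - s1' 0)
  have hL : ∀ x : V, L x = x 0 • (u0' 0 - s0' 0) + x 1 • (u1' 0 - s1' 0) := fun x => rfl
  have hinj : Function.Injective L := by
    rw [injective_iff_map_eq_zero]
    intro x hx
    rw [hL] at hx
    have hs := sol_lin hs0 hs1 (x 0) (x 1)
    have hu := sol_lin hu0 hu1 (x 0) (x 1)
    have h0 : x 0 • s0 0 + x 1 • s1 0 = x 0 • u0 0 + x 1 • u1 0 := by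
      rw [hs00, hs10, hu00, hu10]
    have h1 : x 0 • s0' 0 + x 1 • s1' 0 = x 0 • u0' 0 + x 1 • u1' 0 := by
      rw [smul_sub, smul_sub] at hx
      linear_combination (exp := 1) -hx
    have heq := hUQ k hk.cont _ _ _ _ 0 hs hu h0 h1
    have ha := ((hBND k hk0 _ _ hs).1 (hF _ _)).1
    have hb := ((hBND k hk0 _ _ hu).2 (hB _ _)).1
    have hz : (fun t => (x 0 • s0 t + x 1 • s1 t) ⬝ᵥ (x 0 • s0' t + x 1 • s1' t)) =
        fun _ => (0 : ℝ) := by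
      funext t
      refine le_antisymm (ha t) ?_
      have h := hb t
      rw [← (heq t).1, ← (heq t).2] at h
      exact h
    have hd := (hOM k hk.symm _ _ _ _ hs hs).2.2 0
    rw [hz] at hd
    have hd0 := hd.unique (hasDerivAt_const (0 : ℝ) (0 : ℝ))
    have hx0 : x 0 • s0 0 + x 1 • s1 0 = x := by rw [hs00, hs10, basis]
    rw [hx0] at hd0
    have hlow := hk.low 0 x
    have hn := dot_nonneg (x 0 • s0' 0 + x 1 • s1' 0)
    exact zero_of_dot (by linarith)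
  obtain ⟨y, hy⟩ := (LinearMap.injective_iff_surjective.1 hinj)
    (J' 0 - (J 0 0 • s0' 0 + J 0 1 • s1' 0))
  rw [hL] at hy
  have ha := sol_lin hs0 hs1 (J 0 0 - y 0) (J 0 1 - y 1)
  have hb := sol_lin hu0 hu1 (y 0) (y 1)
  refine ⟨_, _, _, _, ha, hb, ?_, hF _ _, hB _ _⟩
  have hab := sol_lin ha hb 1 1
  have h := hUQ k hk.cont _ _ _ _ 0 hJ hab ?_ ?_
  · intro t
    have h1 := h t
    simp only [one_smul] at h1
    exact h1
  · simp only [one_smul]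
    rw [hs00, hs10, hu00, hu10]
    ext i
    fin_cases i <;> simp
  · simp only [one_smul]
    rw [smul_sub, smul_sub] at hy
    rw [sub_smul, sub_smul]
    linear_combination (exp := 1) -hy

theorem rELL : R_ELL := by
  intro hEX hSTB hSP k hk p q C hc hC t
  obtain ⟨J, J', hJ, h0, h1⟩ := hEX k hk.cont t (p t) (q t)
  obtain ⟨a, a', b, b', ha, hb, hab, hF, hB⟩ := hSP k hk J J' hJ
  have h2 := small (hc a a' ha) hC (fun ε hε => by
    obtain ⟨s, _, hs⟩ := ((hSTB k hk a a' ha).1 hF).2 ε hε 0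
    exact ⟨s, hs⟩) t
  have h3 := small (hc b b' hb) hC (fun ε hε => by
    obtain ⟨s, _, hs⟩ := ((hSTB k hk b b' hb).2 hB).2 ε hε 0
    exact ⟨s, hs⟩) t
  have h4 : p t ⬝ᵥ p t + q t ⬝ᵥ q t = 0 := by
    have e1 : p t = a t + b t := h0.symm.trans (hab t).1
    have e2 : q t = a' t + b' t := h1.symm.trans (hab t).2
    have e3 : p t ⬝ᵥ p t = p t ⬝ᵥ a t + p t ⬝ᵥ b t := by
      rw [← dotProduct_add, ← e1]
    have e4 : q t ⬝ᵥ q t = q t ⬝ᵥ a' t + q t ⬝ᵥ b' t := by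
      rw [← dotProduct_add, ← e2]
    linarith
  have h5 := dot_nonneg (p t)
  have h6 := dot_nonneg (q t)
  exact ⟨zero_of_dot (by linarith), zero_of_dot (by linarith)⟩

end Pool.Agent.MP_3ee8cb_gt.D3OD
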