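import Pool.Agent.MP_3ee8cb_gt.D3OD.Spec

/-! Block OD: a forward bounded solution through every position. -/

namespace Pool.Agent.MP_3ee8cb_gt.D3OD

open Matrix Set

namespace RSTA

theorem comb {k : ℝ → M} {u u' v v' w w' : ℝ → V} (hu : Sol k u u') (hv : Sol k v v')
    (hw : Sol k w w') (p q : ℝ) :
    Sol k (fun t => u t + (p • v t + q • w t)) (fun t => u' t + (p • v' t + q • w' t)) := by
  refine ⟨fun t => (hu.d1 t).add (((hv.d1 t).const_smul p).add ((hw.d1 t).const_smul q)),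
    fun t => ?_⟩
  have h := (hu.d2 t).add (((hv.d2 t).const_smul p).add ((hw.d2 t).const_smul q))
  rw [mulVec_add, mulVec_add, mulVec_smul, mulVec_smul]
  exact h

theorem zero (k : ℝ → M) : Sol k (fun _ => 0) (fun _ => 0) :=
  ⟨fun t => hasDerivAt_const t 0, fun t => by
    rw [mulVec_zero]; exact hasDerivAt_const t 0⟩

theorem dot_nonneg (x : V) : 0 ≤ x ⬝ᵥ x := Finset.sum_nonneg fun _ _ => mul_self_nonneg _

theorem dec (hOM : S_OM) {k : ℝ → M} (hk : Cur 0 k) {K K' : ℝ → V} (h : Sol k K K') {T : ℝ}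
    (hT : K T = 0) {t : ℝ} (h0 : 0 ≤ t) (ht : t ≤ T) : K t ⬝ᵥ K t ≤ K 0 ⬝ᵥ K 0 := by
  obtain ⟨-, h1, h2⟩ := hOM k hk.symm K K' K K' h h
  have hm : Monotone fun s => K s ⬝ᵥ K' s := by
    refine monotone_of_deriv_nonneg (fun s => (h2 s).differentiableAt) fun s => ?_
    rw [(h2 s).deriv]
    have h3 := hk.low s (K s)
    have h4 := dot_nonneg (K' s)
    linarith
  have ha : AntitoneOn (fun s => K s ⬝ᵥ K s) (Iic T) := by
    refine antitoneOn_of_deriv_nonpos (convex_Iic T)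
      (fun s _ => (h1 s).continuousAt.continuousWithinAt)
      (fun s _ => (h1 s).differentiableAt.differentiableWithinAt) fun s hs => ?_
    rw [(h1 s).deriv]
    have h3 : K s ⬝ᵥ K' s ≤ K T ⬝ᵥ K' T := hm (interior_subset hs : s ∈ Iic T)
    rw [hT, zero_dotProduct] at h3
    linarith
  exact ha (h0.trans ht : (0 : ℝ) ≤ T) ht h0

theorem cpt (r : ℝ) : IsCompact {y : V | y ⬝ᵥ y ≤ r} := by
  refine Metric.isCompact_of_isClosed_isBounded
    (isClosed_le (by fun_prop) continuous_const) ?_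
  refine (Metric.isBounded_closedBall (x := (0 : V)) (r := |r| + 1)).subset fun y hy => ?_
  rw [mem_closedBall_zero_iff, pi_norm_le_iff_of_nonneg (by positivity)]
  intro i
  have h1 : y i * y i ≤ y ⬝ᵥ y :=
    Finset.single_le_sum (f := fun j => y j * y j) (fun _ _ => mul_self_nonneg _)
      (Finset.mem_univ i)
  have h2 : y ⬝ᵥ y ≤ r := hy
  have h3 := le_abs_self r
  have h4 := abs_mul_abs_self (y i)
  rw [Real.norm_eq_abs]
  nlinarith [sq_nonneg (|y i| - 1), abs_nonneg (y i), abs_nonneg r]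

theorem fwd (hEX : S_EX) (hUQ : S_UQ) (hOM : S_OM) (hL : S_LAM) {k : ℝ → M} (hk : Cur 0 k)
    (a : V) : ∃ j j', Sol k j j' ∧ j 0 = a ∧ ∀ t, 0 ≤ t → j t ⬝ᵥ j t ≤ a ⬝ᵥ a := by
  obtain ⟨u, u', hu, hu0, hu1⟩ := hEX k hk.cont 0 a 0
  obtain ⟨v, v', hv, hv0, hv1⟩ := hEX k hk.cont 0 0 ![1, 0]
  obtain ⟨w, w', hw, hw0, hw1⟩ := hEX k hk.cont 0 0 ![0, 1]
  have hb : ∀ b : V, b 0 • v' 0 + b 1 • w' 0 = b := by
    intro b
    rw [hv1, hw1]
    funext i
    fin_cases i <;> simp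
  let f : V →ₗ[ℝ] V := (LinearMap.proj 0 : V →ₗ[ℝ] ℝ).smulRight (v 1) +
    (LinearMap.proj 1 : V →ₗ[ℝ] ℝ).smulRight (w 1)
  have hf : ∀ b : V, f b = b 0 • v 1 + b 1 • w 1 := fun b => rfl
  have hker : LinearMap.ker f = ⊥ := by
    rw [LinearMap.ker_eq_bot']
    intro b h0
    obtain ⟨L, -, -, h1, -⟩ := hL k hk 0 1 zero_lt_one
    have h2 := h1 _ _ (comb (zero k) hv hw (b 0) (b 1)) (by rw [← hf, h0, add_zero])
    rw [hb, hv0, hw0] at h2
    simpa using h2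
  let S : ℕ → Set V := fun n => {b | ∀ t ∈ Icc (0 : ℝ) (n + 1),
    (u t + (b 0 • v t + b 1 • w t)) ⬝ᵥ (u t + (b 0 • v t + b 1 • w t)) ≤ a ⬝ᵥ a}
  have hcl : ∀ n, IsClosed (S n) := by
    intro n
    have : S n = ⋂ t ∈ Icc (0 : ℝ) (n + 1), {b : V |
        (u t + (b 0 • v t + b 1 • w t)) ⬝ᵥ (u t + (b 0 • v t + b 1 • w t)) ≤ a ⬝ᵥ a} := by
      ext b
      simp only [S, mem_ofPred_eq, mem_iInter]
    rw [this]
    exact isClosed_biInter fun t _ => isClosed_le (by fun_prop) continuous_const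
  have hc : IsCompact (S 0) := by
    have h1 : IsCompact ((fun x : V => u 1 + x) ⁻¹' {y : V | y ⬝ᵥ y ≤ a ⬝ᵥ a}) :=
      (Homeomorph.addLeft (u 1)).isCompact_preimage.2 (cpt _)
    have h2 := (LinearMap.isClosedEmbedding_of_injective hker).isCompact_preimage h1
    refine h2.of_isClosed_subset (hcl 0) fun b hb' => ?_
    exact hb' 1 ⟨zero_le_one, by simp⟩
  have hne : ∀ n, (S n).Nonempty := by
    intro n
    have hn : (0 : ℝ) < n + 1 := by positivity
    obtain ⟨L, -, -, -, h1⟩ := hL k hk 0 (n + 1) hn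
    obtain ⟨K, K', hK, hT, h0⟩ := h1 a
    refine ⟨K' 0, fun t ht => ?_⟩
    have h2 := (hUQ k hk.cont _ _ K K' 0 (comb hu hv hw (K' 0 0) (K' 0 1)) hK
      (by simp [hu0, hv0, hw0, h0]) (by simp only [hb, hu1, zero_add]) t).1
    have h3 := dec hOM hk hK hT ht.1 ht.2
    rw [h2, ← h0]
    exact h3
  have hd : ∀ n, S (n + 1) ⊆ S n := fun n b hb' t ht =>
    hb' t ⟨ht.1, ht.2.trans (by push_cast; linarith)⟩
  obtain ⟨b, hb'⟩ := IsCompact.nonempty_iInter_of_sequence_nonempty_isCompact_isClosed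
    S hd hne hc hcl
  refine ⟨_, _, comb hu hv hw (b 0) (b 1), by simp [hu0, hv0, hw0], fun t ht => ?_⟩
  obtain ⟨n, hn⟩ := exists_nat_ge t
  exact mem_iInter.1 hb' n t ⟨ht, by linarith⟩

end RSTA

theorem rSTA : R_STA := by
  intro hEX hUQ hOM hL k hk a
  refine ⟨RSTA.fwd hEX hUQ hOM hL hk a, ?_⟩
  have hk' : Cur 0 fun t => k (-t) :=
    ⟨fun i l => (hk.cont i l).comp continuous_neg, fun t => hk.symm _, fun t => hk.low _⟩
  obtain ⟨j, j', hj, h0, hb⟩ := RSTA.fwd hEX hUQ hOM hL hk' a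
  refine ⟨fun t => j (-t), fun t => -j' (-t), ⟨fun t => ?_, fun t => ?_⟩, by simpa using h0,
    fun t ht => hb _ (by linarith)⟩
  · have h := (hj.d1 (-t)).scomp t (hasDerivAt_neg t)
    rw [neg_one_smul] at h
    exact h
  · have h := ((hj.d2 (-t)).scomp t (hasDerivAt_neg t)).neg
    rw [neg_one_smul, neg_neg, neg_neg] at h
    exact h

end Pool.Agent.MP_3ee8cb_gt.D3OD
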