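import Pool.Agent.MP_3ee8cb_gt.D3OD.Spec

/-! Row STB: bounded solutions when the curvature matrix is at least one. -/

namespace Pool.Agent.MP_3ee8cb_gt.D3OD

open Matrix

namespace RSTB

theorem mono {f f' : ℝ → ℝ} (hd : ∀ t, HasDerivAt f (f' t) t) {c T : ℝ}
    (hl : ∀ t, T ≤ t → c ≤ f' t) {t : ℝ} (ht : T ≤ t) : c * (t - T) ≤ f t - f T :=
  (convex_Ici T).mul_sub_le_image_sub_of_le_deriv
    (fun s _ => (hd s).continuousAt.continuousWithinAt)
    (fun s _ => (hd s).differentiableAt.differentiableWithinAt)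
    (fun s hs => by rw [(hd s).deriv]; exact hl s (interior_subset hs)) T (le_refl T) t ht ht

theorem grow {f f' : ℝ → ℝ} (hd : ∀ t, HasDerivAt f (f' t) t) {c T : ℝ} (hc : 0 < c)
    (hl : ∀ t, T ≤ t → c ≤ f' t) : ∃ t, 0 < f t := by
  have h0 : 0 ≤ (|f T| + 1) / c := by positivity
  have h1 := mono hd hl (t := T + (|f T| + 1) / c) (by linarith)
  rw [add_sub_cancel_left, mul_div_cancel₀ _ hc.ne'] at h1
  exact ⟨T + (|f T| + 1) / c, by linarith [neg_abs_le (f T)]⟩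

theorem core {p h q r : ℝ → ℝ} (dp : ∀ t, HasDerivAt p (2 * h t) t)
    (dh : ∀ t, HasDerivAt h (r t) t) (hr : ∀ t, p t + q t ≤ r t) (hq : ∀ t, 0 ≤ q t)
    (hs : ∀ t, 0 ≤ p t + q t + 2 * h t) (hn : ∀ t, h t ≤ 0) :
    (∀ t, h t ≤ -p t) ∧ ∀ ε : ℝ, 0 < ε → ∀ T : ℝ, ∃ t, T ≤ t ∧ p t + q t < ε := by
  refine ⟨fun T => ?_, fun ε hε T => ?_⟩
  · by_contra hc
    have hc : 0 < h T + p T := by linarith [not_le.1 hc]
    obtain ⟨t, ht⟩ := grow dh (T := T) hc fun t ht => by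
      have h1 := mono (f := fun t => h t + p t) (fun t => (dh t).add (dp t)) (c := 0)
        (fun s _ => by linarith [hr s, hs s]) ht
      simp only [zero_mul] at h1
      linarith [hr t, hq t, hn t]
    exact absurd (hn t) (not_le.2 ht)
  · by_contra hc
    obtain ⟨t, ht⟩ := grow dh (T := T) hε fun t ht =>
      (not_lt.1 fun h1 => hc ⟨t, ht, h1⟩).trans (hr t)
    exact absurd (hn t) (not_le.2 ht)

theorem nn (x : V) : 0 ≤ x ⬝ᵥ x := Finset.sum_nonneg fun i _ => mul_self_nonneg (x i)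

end RSTB

open RSTB in
theorem rSTB : R_STB := by
  intro OM BND k hk j j' hj
  obtain ⟨-, dp, dh⟩ := OM k hk.symm j j' j j' hj hj
  have h0 : Cur 0 k := ⟨hk.cont, hk.symm, fun t x => by linarith [hk.low t x, nn x]⟩
  obtain ⟨hf, hb⟩ := BND k h0 j j' hj
  have hr : ∀ t, j t ⬝ᵥ j t + j' t ⬝ᵥ j' t ≤ j' t ⬝ᵥ j' t + j t ⬝ᵥ k t *ᵥ j t := fun t => by
    linarith [hk.low t (j t)]
  refine ⟨fun hF => core dp dh hr (fun t => nn _) (fun t => ?_) (hf hF).1, fun hB => ?_⟩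
  · have h1 := nn (j t + j' t)
    rw [add_dotProduct, dotProduct_add, dotProduct_add, dotProduct_comm (j' t) (j t)] at h1
    linarith
  · obtain ⟨h1, h2⟩ := core (p := fun t => j (-t) ⬝ᵥ j (-t)) (h := fun t => -(j (-t) ⬝ᵥ j' (-t)))
      (q := fun t => j' (-t) ⬝ᵥ j' (-t))
      (r := fun t => j' (-t) ⬝ᵥ j' (-t) + j (-t) ⬝ᵥ k (-t) *ᵥ j (-t))
      (fun t => ((dp (-t)).comp t (hasDerivAt_neg t)).congr_deriv (by ring))
      (fun t => ((dh (-t)).comp t (hasDerivAt_neg t)).neg.congr_deriv (by ring))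
      (fun t => hr (-t)) (fun t => nn _)
      (fun t => by
        have h1 := nn (j (-t) - j' (-t))
        rw [sub_dotProduct, dotProduct_sub, dotProduct_sub,
          dotProduct_comm (j' (-t)) (j (-t))] at h1
        linarith)
      (fun t => by linarith [(hb hB).1 (-t)])
    refine ⟨fun t => ?_, fun ε hε T => ?_⟩
    · have h3 := h1 (-t)
      simp only [neg_neg] at h3
      linarith
    · obtain ⟨t, ht, h3⟩ := h2 ε hε (-T)
      exact ⟨-t, by linarith, h3⟩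

end Pool.Agent.MP_3ee8cb_gt.D3OD
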