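import Pool.Agent.MP_3ee8cb_gt.D3OD.REX
import Pool.Agent.MP_3ee8cb_gt.D3OD.ROM
import Pool.Agent.MP_3ee8cb_gt.D3OD.RBND
import Pool.Agent.MP_3ee8cb_gt.D3OD.RSTB
import Pool.Agent.MP_3ee8cb_gt.D3OD.RSTA
import Pool.Agent.MP_3ee8cb_gt.D3OD.RSPLIT
import Pool.Agent.MP_3ee8cb_gt.D3OD.RLOW
import Pool.Agent.MP_3ee8cb_gt.D3OD.RDIAV
import Pool.Agent.MP_3ee8cb_gt.D3OD.RGROW
import Pool.Agent.MP_3ee8cb_gt.D3OD.RPOSV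
import Pool.Agent.MP_3ee8cb_gt.D3OD.RMAT
import Pool.Agent.MP_3ee8cb_gt.D3OD.RDIA
import Pool.Agent.MP_3ee8cb_gt.D3OD.RDER
import Pool.Agent.MP_3ee8cb_gt.D3OD.RBDER
import Pool.Agent.MP_3ee8cb_gt.D3OD.RSCH
import Pool.Agent.MP_3ee8cb_gt.D3OD.RALG
import Pool.Agent.MP_3ee8cb_gt.D3OD.RRICI
import Pool.Agent.MP_3ee8cb_gt.D3OD.RLAM
import Pool.Agent.MP_3ee8cb_gt.D3OD.Gen
import Pool.Agent.MP_3ee8cb_gt.D3OD.RFRM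
import Pool.Agent.MP_3ee8cb_gt.D3OD.RSIG

/-! Block OD: the rows put together. -/

namespace Pool.Agent.MP_3ee8cb_gt.D3OD

theorem sEX : S_EX := rEX rUQ
theorem sBND : S_BND := rBND rOM
theorem sSTB : S_STB := rSTB rOM sBND
theorem sLAM : S_LAM := rLAM sEX rUQ rOM
theorem sSTA : S_STA := rSTA sEX rUQ rOM sLAM
theorem sSPLIT : S_SPLIT := rSPLIT sEX rUQ rOM sBND sSTA
theorem sLOW : S_LOW := rLOW sEX rUQ
theorem sGROW : S_GROW := rGROW rOM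
theorem sDIAV : S_DIAV := rDIAV rUQ rOM sBND sSTB sSPLIT sLOW
theorem sPOSV : S_POSV := rPOSV sEX rUQ rOM sGROW sLOW
theorem sDIA : S_DIA := rDIA rOM sDIAV sPOSV (rMAT rEIG)
theorem sDIAG : S_DIAG := rDIAG (rMEX sEX) sDIA
theorem sDER : S_DER := rDER sEX rUQ rOM
theorem sRIC : S_RIC := rRIC sDIAG sDER rBDER rFDER rSCH (rALG rEIG)

end Pool.Agent.MP_3ee8cb_gt.D3OD
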