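import Pool.Agent.MP_3ee8cb_gt.D3OD.RicA
import Pool.Agent.MP_3ee8cb_gt.D3OD.DiaG

/-! The Riccati inequality for the fronts of a conjugacy. -/

namespace Pool.Agent.MP_3ee8cb_gt.D3

open Dia RicA Module
open scoped RealInnerProductSpace

noncomputable section

namespace RicB

variable {m m' : MF} {φ : V × V → V × V}

theorem J_fr (h' : m'.OK) (x v e : V) :
    m'.J (fr φ x v) (fderiv ℝ (fr φ x) v e) 0 = m'.A (fr φ x) v e ∧
      m'.J' (fr φ x v) (fderiv ℝ (fr φ x) v e) 0 = m'.A' (fr φ x) v e := J_zero h' _ _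

/-- The derivatives of the two operators along the flow. -/
theorem der (h : m.OK) (hj : m.Jac) (h' : m'.OK) (hj' : m'.Jac) (hc : CF m m' φ) (hs : Sy m m' φ)
    (hi : ∀ z s ξ, ‖z.2‖ = 1 → m.J z ξ s = 0 → m.J' z ξ s = 0 → ξ = 0) {z : V × V}
    (hz : ‖z.2‖ = 1) (e : V) : ∃ p q : V,
      ⟪p, m'.A' (fr φ z.1) z.2 e⟫ - ⟪q, m'.A (fr φ z.1) z.2 e⟫ = -‖e‖ ^ 2 ∧
      HasDerivAt (fun t => m'.A (fr φ (m.Z t z).1) (m.Z t z).2 e)
        (m'.A' (fr φ z.1) z.2 e - m'.w (φ z) 0 (m'.A (fr φ z.1) z.2 e) + p) 0 ∧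
      HasDerivAt (fun t => m'.A' (fr φ (m.Z t z).1) (m.Z t z).2 e)
        (-m'.K (φ z).1 (m'.A (fr φ z.1) z.2 e) (φ z).2 (φ z).2 -
          m'.w (φ z) 0 (m'.A' (fr φ z.1) z.2 e) + q) 0 := by
  have z0 : z.2 ≠ 0 := norm_ne_zero_iff.1 (hz ▸ one_ne_zero)
  have zt0 : ∀ t, (m.Z t z).2 ≠ 0 := fun t => norm_ne_zero_iff.1 (by rw [hj.norm, hz]; simp)
  let p : ℝ → V × V →L[ℝ] V := fun t => (m.hor (m.Z t z)).comp (fderiv ℝ (m.Z t) z)
  let p' : ℝ → V × V →L[ℝ] V := fun t => (m.ver (m.Z t z)).comp (fderiv ℝ (m.Z t) z)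
  let Q : ℝ → V × V →L[ℝ] V := fun t =>
    (m'.hor (m'.Z t (φ z))).comp ((fderiv ℝ (m'.Z t) (φ z)).comp (fderiv ℝ φ z))
  let Q' : ℝ → V × V →L[ℝ] V := fun t =>
    (m'.ver (m'.Z t (φ z))).comp ((fderiv ℝ (m'.Z t) (φ z)).comp (fderiv ℝ φ z))
  obtain ⟨ξ, h1, h2⟩ := path (P := fun t => (p t).prod (p' t))
    (fun t x k => hi z t x hz (congrArg Prod.fst k) (congrArg Prod.snd k))
    (fun x => (hj.d1 z x 0).differentiableAt.prodMk (hj.d2 z x 0).differentiableAt) (0, e)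
  have a1 : ∀ t, m.J z (ξ t) t = 0 := fun t => congrArg Prod.fst (h1 t)
  have a2 : ∀ t, m.J' z (ξ t) t = e := fun t => congrArg Prod.snd (h1 t)
  have a3 : ∀ t, fderiv ℝ (m.Z t) z (ξ t) = (0, e) := fun t => by
    refine sub_eq_zero.1 (hv_inj h (z := m.Z t z) ?_ ?_)
    · rw [map_sub, show m.hor _ _ = 0 from a1 t]
      simp [MF.hor]
    · rw [map_sub, show m.ver _ _ = e from a2 t]
      simp [MF.ver]
  have a4 : ∀ t, fderiv ℝ (fr φ (m.Z t z).1) (m.Z t z).2 e =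
      fderiv ℝ (m'.Z t) (φ z) (fderiv ℝ φ z (ξ t)) := fun t => by
    rw [d_fr hc _ (zt0 t), comm h hj h' hc z0, a3]
  have a5 : ∀ t, fr φ (m.Z t z).1 (m.Z t z).2 = m'.Z t (φ z) := fun t => hc.flow t z z0
  have b1 : (fun t => m'.A (fr φ (m.Z t z).1) (m.Z t z).2 e) = fun t => Q t (ξ t) :=
    funext fun t => by rw [MF.A, ContinuousLinearMap.comp_apply, a4, a5]; rfl
  have b2 : (fun t => m'.A' (fr φ (m.Z t z).1) (m.Z t z).2 e) = fun t => Q' t (ξ t) :=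
    funext fun t => by rw [MF.A', ContinuousLinearMap.comp_apply, a4, a5]; rfl
  have c1 : m'.J (φ z) (fderiv ℝ φ z (ξ 0)) 0 = m'.A (fr φ z.1) z.2 e := by
    have := (congrFun b1 0).symm
    rwa [h.zero] at this
  have c2 : m'.J' (φ z) (fderiv ℝ φ z (ξ 0)) 0 = m'.A' (fr φ z.1) z.2 e := by
    have := (congrFun b2 0).symm
    rwa [h.zero] at this
  have d0 := der_app (P := p) (fun x => hj.d1 z x 0) h2.hasDerivAt
  rw [show (fun s => p s (ξ s)) = fun _ => 0 from funext a1, a1, a2, map_zero, sub_zero] at d0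
  have d1 : m.J z (deriv ξ 0) 0 = -e := eq_neg_of_add_eq_zero_right (d0.unique (hasDerivAt_const _ _))
  have d2 := der_app (P := Q) (fun x => hj'.d1 (φ z) (fderiv ℝ φ z x) 0) h2.hasDerivAt
  have d3 := der_app (P := Q') (fun x => hj'.d2 (φ z) (fderiv ℝ φ z x) 0) h2.hasDerivAt
  rw [c1, c2, ← b1] at d2
  rw [c1, c2, ← b2, h'.zero] at d3
  refine ⟨_, _, ?_, d2, d3⟩
  have s := (hj'.symp _ _ _ 0).trans ((hs.om z (deriv ξ 0) (ξ 0) z0).trans (hj.symp z _ _ 0).symm)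
  rwa [c1, c2, a1, a2, d1, inner_zero_right, sub_zero, inner_neg_left,
    real_inner_self_eq_norm_sq] at s

end RicB

open RicB

theorem ric45 : OnC fun m m' φ a _ => Sy m m' φ →
    ∀ c, 0 < c → c < a → ∀ z : V × V, ‖z.2‖ = 1 → Ric m m' φ a c z := by
  intro m m' φ a hi h hj h' hj' hc ha hu hu' hd hs c c0 hca z hz
  obtain ⟨⟨T, hG⟩, hb⟩ := good45 m m' φ a hi h hj h' hj' hc ha hu hu' hd hs
  obtain ⟨C, hC⟩ := hc.bdd
  have S := fun z (hz : ‖z.2‖ = 1) => sys h hj h' hj' hc hu hu' hs hC z hz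
  have z0 : z.2 ≠ 0 := norm_ne_zero_iff.1 (hz ▸ one_ne_zero)
  have n1 : ‖(φ z).2‖ = 1 := (hc.norm z z0).trans hz
  obtain ⟨A, hA⟩ : ∃ A, A = m'.A (fr φ z.1) z.2 := ⟨_, rfl⟩
  obtain ⟨A', hA'⟩ : ∃ A', A' = m'.A' (fr φ z.1) z.2 := ⟨_, rfl⟩
  have eA : ∀ e, lJ m' (φ z) (fderiv ℝ φ z) 0 (0, e) = A e := fun e => by
    rw [hA, ← (J_fr h' _ _ e).1, d_fr hc _ z0]; rfl
  have eA' : ∀ e, lJ' m' (φ z) (fderiv ℝ φ z) 0 (0, e) = A' e := fun e => by
    rw [hA', ← (J_fr h' _ _ e).2, d_fr hc _ z0]; rfl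
  have j0 : ∀ e, lJ m z (.id ℝ _) 0 (0, e) = 0 := fun e =>
    (J_zero h z (0, e)).1.trans (by simp [MF.hor])
  have t1 : ∀ e, ⟪(φ z).2, A' e⟫ = ⟪z.2, e⟫ := fun e => by
    have := (S z hz).tn' 0 (0, e)
    rw [eA', h'.zero] at this
    simpa [MF.ver] using this
  have t2 : ∀ e, ⟪(φ z).2, A e⟫ = 0 := fun e => by
    have := (S z hz).tn 0 (0, e)
    rw [eA, h'.zero] at this
    simpa [MF.hor] using this
  have lag : ∀ e e', ⟪A e, A' e'⟫ = ⟪A' e, A e'⟫ := fun e e' => by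
    rw [← eA, ← eA, ← eA', ← eA']
    exact (S z hz).lag (j0 e) (j0 e') 0
  have inj : Function.Injective A'.toLinearMap := (injective_iff_map_eq_zero _).2 fun e he => by
    have k : A' e = 0 := he
    exact (hG z.1).inj z.2 e 0 hz (by rw [← t1, k, inner_zero_right])
      (by rw [(J_fr h' _ _ e).2, ← hA', k])
  let E := LinearEquiv.ofInjectiveEndo _ inj
  have eE : ∀ y, A' (E.symm y) = y := E.apply_symm_apply
  have hB : (A.toLinearMap ∘ₗ E.symm.toLinearMap).IsSymmetric := fun x y => by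
    have := lag (E.symm x) (E.symm y)
    rwa [eE, eE] at this
  have B0 : (A.toLinearMap ∘ₗ E.symm.toLinearMap) (φ z).2 = 0 :=
    ext_inner_left ℝ fun y => by
      rw [← hB, inner_zero_right, real_inner_comm]
      exact t2 _
  obtain ⟨f, b, f0, b0, hf⟩ := onb hB n1 B0
  obtain ⟨e, he⟩ : ∃ e : Fin 3 → V, e = fun i => E.symm (f i) := ⟨_, rfl⟩
  have e1 : ∀ i, A' (e i) = f i := fun i => he ▸ eE _
  have e2 : ∀ i, A (e i) = b i • f i := fun i => he ▸ hf i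
  have e3 : ∀ i, ⟪z.2, e i⟫ = ⟪f 0, f i⟫ := fun i => by rw [← t1, e1, f0]
  have e4 : e 0 = z.2 := ext_inner_left ℝ fun y => by
    have k := (S z hz).symp (m.R z.1 y, 0) (0, e 0) 0 0
    have k1 := (S z hz).tn 0 (m.R z.1 y, 0)
    have k2 : lJ m z (.id ℝ _) 0 (m.R z.1 y, 0) = y := (J_zero h z _).1.trans (h.SR _ _)
    have k3 : lJ' m z (.id ℝ _) 0 (0, e 0) = e 0 := (J_zero h z _).2.trans (by simp [MF.ver])
    rw [h'.zero, real_inner_comm] at k1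
    rw [eA, eA', e1, e2, b0, f0, j0, k1, k2, k3] at k
    simpa [MF.hor, h.SR, real_inner_comm] using k.symm
  have f1 : ∀ i, ⟪f i, f i⟫ = 1 := fun i => by simp
  have bd : ∀ i, a * |b i| ≤ 1 := fun i => by
    by_cases i0 : i = 0
    · simp [i0, b0]
    have := hb z.1 z.2 (e i) 0 hz (by rw [e3, f.orthonormal.2 (Ne.symm i0)])
    rwa [(J_fr h' _ _ _).1, (J_fr h' _ _ _).2, ← hA, ← hA', e1, e2, real_inner_smul_left, f1,
      mul_one, f.orthonormal.1, one_pow] at this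
  have nz : ∀ s, |s| ≤ c → ∀ i, 1 + s * b i ≠ 0 := fun s hs i k => by
    have k1 : |s| * |b i| = 1 := by rw [← abs_mul, eq_neg_of_add_eq_zero_right k, abs_neg, abs_one]
    have k2 := abs_nonneg (b i)
    rcases k2.eq_or_lt with k3 | k3
    · simp [← k3] at k1
    · nlinarith [bd i]
  have e5 : ∀ (s : ℝ) j, (A' + s • A) (e j) = (1 + s * b j) • f j := fun s j => by
    simp [e1, e2, add_smul, mul_smul]
  obtain ⟨δ, hδ⟩ : ∃ δ, δ = f.toBasis.det e := ⟨_, rfl⟩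
  have dt : ∀ s, m'.dt (fr φ z.1) s z.2 * δ = (1 + s * b 1) * (1 + s * b 2) := fun s => by
    rw [MF.dt, ← hA, ← hA', hδ, det_diag f e _ _ (e5 s), b0]
    ring
  have dl : m'.dl (fr φ z.1) z.2 * δ = b 1 * b 2 := by
    rw [MF.dl, ← hA, hδ, det_diag f e _ ![1, b 1, b 2] fun j => ?_]
    · simp
    · change A (e j) + ⟪z.2, e j⟫ • (φ z).2 = _
      rw [e2, e3, ← f0]
      fin_cases j <;> simp [b0, f.inner_eq_ite]
  obtain ⟨y, hy⟩ : ∃ y, y = m'.dt (fr φ z.1) 0 z.2 := ⟨_, rfl⟩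
  have y1 : y * δ = 1 := by simp [hy, dt]
  have δ0 := right_ne_zero_of_mul_eq_one y1
  have y0 := left_ne_zero_of_mul_eq_one y1
  have dt' : ∀ s, m'.dt (fr φ z.1) s z.2 = y * ((1 + s * b 1) * (1 + s * b 2)) := fun s => by
    rw [← dt, mul_left_comm, y1, mul_one]
  have dl' : m'.dl (fr φ z.1) z.2 = y * (b 1 * b 2) := by rw [← dl, mul_left_comm, y1, mul_one]
  have sq : m'.sq (fr φ z.1) z.2 = b 1 ^ 2 + b 2 ^ 2 := by
    rw [MF.sq, ← hy, dt', dt', dl']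
    field_simp
    ring
  refine ⟨fun s hs => ?_, by rw [sq]; positivity, fun k => ?_, ?_⟩
  · rw [dt']
    exact mul_ne_zero y0 (mul_ne_zero (nz s hs 1) (nz s hs 2))
  · rw [sq] at k
    have k1 : b 1 = 0 := by nlinarith [sq_nonneg (b 1), sq_nonneg (b 2)]
    have k2 : b 2 = 0 := by nlinarith [sq_nonneg (b 1), sq_nonneg (b 2)]
    have k3 : A.toLinearMap ∘ₗ E.symm.toLinearMap = 0 := f.toBasis.ext fun i => by
      rw [OrthonormalBasis.coe_toBasis, hf]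
      fin_cases i <;> simp [b0, k1, k2]
    rw [← hA]
    ext1 x
    simpa using LinearMap.congr_fun k3 (E x)
  choose p q s d1 d2 using fun i => der h hj h' hj' hc hs (fun z s ξ hz => (S z hz).inj s ξ) hz (e i)
  simp only [← hA, ← hA', e1, e2] at s d1 d2
  obtain ⟨L, hL⟩ := hj'.lK (φ z).1
  obtain ⟨κ, hκ⟩ : ∃ κ : Fin 3 → ℝ, κ = fun i => -⟪m'.K (φ z).1 (f i) (φ z).2 (φ z).2, f i⟫ :=
    ⟨_, rfl⟩
  have κ1 : ∀ i, i ≠ 0 → a ^ 2 ≤ κ i := fun i i0 => by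
    have := hu' (φ z).1 (f i) (φ z).2
    rw [n1, f.orthonormal.1, ← f0, f.orthonormal.2 i0, f0] at this
    simpa [hκ] using this
  have ld := fun s hs => log_det f e _ (fun t => m'.A' (fr φ (m.Z t z).1) (m.Z t z).2 +
    s • m'.A (fr φ (m.Z t z).1) (m.Z t z).2) _ (hδ ▸ δ0) (nz s hs)
    (fun j => by rw [h.zero, ← hA, ← hA', e5]) fun j => (d2 j).add ((d1 j).const_smul s)
  have X : ∀ (s : ℝ) i, ⟪f i, -m'.K (φ z).1 (b i • f i) (φ z).2 (φ z).2 - m'.w (φ z) 0 (f i) + q i +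
      s • (f i - m'.w (φ z) 0 (b i • f i) + p i)⟫ =
        b i * κ i + s * (1 - ‖e i‖ ^ 2) + (1 + s * b i) * ⟪q i, f i⟫ := fun r i => by
    have k1 : ⟪f i, m'.w (φ z) 0 (f i)⟫ = 0 := (real_inner_comm _ _).trans (skew0 h' _ _ _)
    have k2 := s i
    rw [real_inner_smul_right] at k2
    simp only [hκ, hL, map_smul, smul_apply, inner_add_right, inner_sub_right,
      inner_neg_right, real_inner_smul_right, k1, f1, real_inner_comm (f i)] at k2 ⊢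
    linear_combination r * k2
  have ca : |c| ≤ c := (abs_of_pos c0).le
  have cb : |-c| ≤ c := (abs_neg c).trans_le ca
  refine ⟨_, ((ld c ca).sub (ld (-c) cb)).div_const (2 * c), ?_⟩
  have hd2 : δ ^ 2 ≤ ‖e 1‖ ^ 2 * ‖e 2‖ ^ 2 := by
    have := hadamard f e
    rw [e4, hz, one_mul, ← hδ] at this
    rw [← mul_pow, ← sq_abs]
    exact pow_le_pow_left₀ (abs_nonneg _) this 2
  rw [← hy, dl', sq]
  refine le_of_eq_of_le ?_ (scal c0 hca (bd 1) (bd 2) (sq_nonneg _) (sq_nonneg _)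
    (κ1 1 (by decide)) (κ1 2 (by decide)) hd2 y1)
  have r : ∀ i, 1 - c ^ 2 * b i ^ 2 = (1 + c * b i) * (1 - c * b i) := fun i => by ring
  have r' : ∀ i, 1 + -c * b i = 1 - c * b i := fun i => by ring
  have := nz c ca 1
  have := nz c ca 2
  have := r' 1 ▸ nz _ cb 1
  have := r' 2 ▸ nz _ cb 2
  simp only [X]
  simp only [r, r', b0, e4, hz]
  field_simp
  ring

theorem sod45 : SOD := fun m m' φ a hi h hj h' hj' hc ha hu hu' hd hs =>
  ⟨(good45 m m' φ a hi h hj h' hj' hc ha hu hu' hd hs).1,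
    ric45 m m' φ a hi h hj h' hj' hc ha hu hu' hd hs⟩

end

end Pool.Agent.MP_3ee8cb_gt.D3
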