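import Mathlib

/-! Block OD: the equation `j'' = k j` in the plane.  Definitions and exported statements. -/

namespace Pool.Agent.MP_3ee8cb_gt.D3OD

open Matrix

/-- Plane vectors. -/
abbrev V := Fin 2 → ℝ

/-- Two by two matrices. -/
abbrev M := Matrix (Fin 2) (Fin 2) ℝ

/-- `j` solves `j'' = k j`, with derivative `j'`. -/
structure Sol (k : ℝ → M) (j j' : ℝ → V) : Prop where
  d1 : ∀ t, HasDerivAt j (j' t) t
  d2 : ∀ t, HasDerivAt j' (k t *ᵥ j t) t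

/-- Continuity of a matrix valued function. -/
def Cont (k : ℝ → M) : Prop := ∀ i l, Continuous fun t => k t i l

/-- `k` is continuous, symmetric and at least `a`. -/
structure Cur (a : ℝ) (k : ℝ → M) : Prop where
  cont : Cont k
  symm : ∀ t, (k t)ᵀ = k t
  low : ∀ t x, a * (x ⬝ᵥ x) ≤ x ⬝ᵥ k t *ᵥ x

/-- The symplectic form on pairs (position, derivative). -/
def om (x e x' e' : V) : ℝ := x ⬝ᵥ e' - e ⬝ᵥ x'

/-- The squared norm of a pair. -/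
def n2 (x e : V) : ℝ := x ⬝ᵥ x + e ⬝ᵥ e

/-- The derivative of the conjugacy along one orbit, in parallel orthonormal frames: the pair
`(x, e)` at time `t` goes to `(hh t x + hv t e, vh t x + vv t e)`. -/
structure Orb (C : ℝ) (kM kN hh hv vh vv : ℝ → M) : Prop where
  cM : Cur 0 kM
  cN : Cur 1 kN
  map : ∀ j j', Sol kM j j' →
    Sol kN (fun t => hh t *ᵥ j t + hv t *ᵥ j' t) (fun t => vh t *ᵥ j t + vv t *ᵥ j' t)
  symp : ∀ t x e x' e', om (hh t *ᵥ x + hv t *ᵥ e) (vh t *ᵥ x + vv t *ᵥ e)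
    (hh t *ᵥ x' + hv t *ᵥ e') (vh t *ᵥ x' + vv t *ᵥ e') = om x e x' e'
  up : ∀ t x e, n2 (hh t *ᵥ x + hv t *ᵥ e) (vh t *ᵥ x + vv t *ᵥ e) ≤ C * n2 x e

/-- A matrix solution. -/
def MSol (k A A' : ℝ → M) : Prop := ∀ e, Sol k (fun t => A t *ᵥ e) (fun t => A' t *ᵥ e)

/-- The matrix `B = A A'⁻¹`. -/
noncomputable def Bm (A A' : M) : M := A * A'⁻¹

/-- `A'` is invertible, `B` is symmetric and `-1 < B < 1`. -/
structure Good (A A' : M) : Prop where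
  det : A'.det ≠ 0
  symm : (Bm A A')ᵀ = Bm A A'
  lt : ∀ x : V, x ≠ 0 → |x ⬝ᵥ Bm A A' *ᵥ x| < x ⬝ᵥ x

/-- The bounded potential of the Riccati step. -/
noncomputable def Fm (c : ℝ) (B : M) : ℝ :=
  (Real.log (1 + c • B).det - Real.log (1 - c • B).det) / (2 * c)

/-- `B` and `L` symmetric, `L > 0` and `B + L⁻¹ > 0`. -/
structure Adm (B L : M) : Prop where
  symB : Bᵀ = B
  symL : Lᵀ = L
  posL : ∀ x : V, x ≠ 0 → 0 < x ⬝ᵥ L *ᵥ x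
  pos : ∀ x : V, x ≠ 0 → 0 < (L *ᵥ x) ⬝ᵥ B *ᵥ (L *ᵥ x) + x ⬝ᵥ L *ᵥ x

/-- Existence of solutions. -/
def S_EX : Prop := ∀ k, Cont k → ∀ (s : ℝ) (a b : V), ∃ j j', Sol k j j' ∧ j s = a ∧ j' s = b

/-- Uniqueness of solutions. -/
def S_UQ : Prop := ∀ k, Cont k → ∀ j j' i i' (s : ℝ), Sol k j j' → Sol k i i' → j s = i s →
  j' s = i' s → ∀ t, j t = i t ∧ j' t = i' t

/-- Existence of matrix solutions. -/
def S_MEX : Prop := ∀ k, Cont k → ∀ (s : ℝ) (X X' : M), ∃ A A', MSol k A A' ∧ A s = X ∧ A' s = X'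

/-- Step 1a: a bounded linear first integral vanishes. -/
def S_ELL : Prop := ∀ k, Cur 1 k → ∀ (p q : ℝ → V) (C : ℝ),
  (∀ J J', Sol k J J' → ∀ t s, p t ⬝ᵥ J t + q t ⬝ᵥ J' t = p s ⬝ᵥ J s + q s ⬝ᵥ J' s) →
  (∀ t, n2 (p t) (q t) ≤ C) → ∀ t, p t = 0 ∧ q t = 0

/-- Step 2, two times. -/
def S_DIA : Prop := ∀ C kM kN hh hv vh vv, Orb C kM kN hh hv vh vv →
  ∀ (s : ℝ) A A', MSol kN A A' → A s = hv s → A' s = vv s → ∀ t, Good (A t) (A' t) ∧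
    (s + C ^ 2 ≤ t → ∀ x : V, x ≠ 0 → 0 < x ⬝ᵥ Bm (A t) (A' t) *ᵥ x)

/-- Step 2 on the diagonal. -/
def S_DIAG : Prop := ∀ C kM kN hh hv vh vv, Orb C kM kN hh hv vh vv → ∀ t, Good (hv t) (vv t)

/-- Step 3, pointwise. -/
def S_RIC : Prop := ∀ C kM kN hh hv vh vv, Orb C kM kN hh hv vh vv → ∀ c : ℝ, 0 < c → c < 1 →
  ∀ t, ∃ F' : ℝ, HasDerivAt (fun s => Fm c (Bm (hv s) (vv s))) F' t ∧
    ∀ lam : ℝ, |lam| ≤ c ^ 2 →
      1 + (1 - c ^ 2) / 2 * (Bm (hv t) (vv t) * Bm (hv t) (vv t)).trace + F' / 2 ≤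
        |(vv t).det| * (1 - lam * (Bm (hv t) (vv t)).det)

/-- Step 3, integrated over the unit interval. -/
def S_RICI : Prop := ∀ C kM kN hh hv vh vv, Orb C kM kN hh hv vh vv → ∀ c : ℝ, 0 < c → c < 1 →
  ∀ lam : ℝ → ℝ, Continuous lam → (∀ t, |lam t| ≤ c ^ 2) →
    1 + (Fm c (Bm (hv 1) (vv 1)) - Fm c (Bm (hv 0) (vv 0))) / 2 ≤
      ∫ t in (0 : ℝ)..1, (|(vv t).det| * (1 - lam t * (Bm (hv t) (vv t)).det) -
        (1 - c ^ 2) / 2 * (Bm (hv t) (vv t) * Bm (hv t) (vv t)).trace)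

/-- Change of orthonormal frames. -/
def S_FRM : Prop := ∀ (A A' R S : M) (c : ℝ), R * Rᵀ = 1 → S * Sᵀ = 1 →
  Bm (R * A * S) (R * A' * S) = R * Bm A A' * Rᵀ ∧ |(R * A' * S).det| = |A'.det| ∧
  (Bm (R * A * S) (R * A' * S)).det = (Bm A A').det ∧
  (Bm (R * A * S) (R * A' * S) * Bm (R * A * S) (R * A' * S)).trace =
    (Bm A A' * Bm A A').trace ∧
  Fm c (Bm (R * A * S) (R * A' * S)) = Fm c (Bm A A') ∧
  (Good A A' → Good (R * A * S) (R * A' * S))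

/-- Continuous dependence. -/
def S_CONT : Prop := ∀ (X : Type) [TopologicalSpace X] (A A' : X → M) (c : ℝ) (x : X),
  0 < c → c < 1 → ContinuousAt A x → ContinuousAt A' x → Good (A x) (A' x) →
  ContinuousAt (fun y => Bm (A y) (A' y)) x ∧ ContinuousAt (fun y => Fm c (Bm (A y) (A' y))) x

/-- The equality case. -/
def S_END : Prop := ∀ A A' : M, Good A A' →
  0 ≤ (Bm A A' * Bm A A').trace ∧ ((Bm A A' * Bm A A').trace = 0 → A = 0)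

/-- The Hessian `L` of the distance to the point at time `T`, at the time `s < T`. -/
def S_LAM : Prop := ∀ k, Cur 0 k → ∀ s T : ℝ, s < T → ∃ L : M, Lᵀ = L ∧
  (∀ x : V, x ≠ 0 → 0 < x ⬝ᵥ L *ᵥ x) ∧
  (∀ K K', Sol k K K' → K T = 0 → K' s = -(L *ᵥ K s)) ∧
  ∀ a : V, ∃ K K', Sol k K K' ∧ K T = 0 ∧ K s = a

/-- `B + L⁻¹ > 0` before the time `T`. -/
def S_HESS : Prop := ∀ C kM kN hh hv vh vv, Orb C kM kN hh hv vh vv →
  ∀ (r : ℝ) A A', MSol kN A A' → A r = hv r → A' r = vv r → ∀ s T : ℝ, r + C ^ 2 ≤ T → s < T →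
    ∀ L : M, (∀ K K', Sol kN K K' → K T = 0 → K' s = -(L *ᵥ K s)) → Adm (Bm (A s) (A' s)) L

/-- The Hessian at a tangency has the sign of `det B`. -/
def S_SIG : Prop := ∀ A A' L : M, A'.det ≠ 0 → Adm (Bm A A') L →
  (Aᵀ * L * A + A'ᵀ * A)ᵀ = Aᵀ * L * A + A'ᵀ * A ∧
  (0 < (Bm A A').det → 0 < (Aᵀ * L * A + A'ᵀ * A).det) ∧
  ((Bm A A').det < 0 → (Aᵀ * L * A + A'ᵀ * A).det < 0)

/-- A symmetric matrix with positive determinant is definite. -/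
def S_DEF : Prop := ∀ H : M, Hᵀ = H → 0 < H.det →
  (∀ x : V, x ≠ 0 → 0 < x ⬝ᵥ H *ᵥ x) ∨ ∀ x : V, x ≠ 0 → x ⬝ᵥ H *ᵥ x < 0

/-- No local minimum. -/
def S_NOMIN : Prop := ∀ (B L : M) (e : V), Adm B L → e ≠ 0 → ∃ (l : ℝ) (ξ : V),
  (l • e - B *ᵥ ξ) ⬝ᵥ L *ᵥ (l • e - B *ᵥ ξ) - 2 * (ξ ⬝ᵥ (l • e - B *ᵥ ξ)) - ξ ⬝ᵥ B *ᵥ ξ < 0

/-- Everything the block exports. -/
structure All : Prop where
  ex : S_EX
  uq : S_UQ
  mex : S_MEX
  ell : S_ELL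
  dia : S_DIA
  diag : S_DIAG
  ric : S_RIC
  rici : S_RICI
  frm : S_FRM
  cont : S_CONT
  fin : S_END
  lam : S_LAM
  hess : S_HESS
  sig : S_SIG
  defi : S_DEF
  nomin : S_NOMIN

end Pool.Agent.MP_3ee8cb_gt.D3OD
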