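import Pool.Agent.MP_3ee8cb_gt.D3OD.Spec

/-! Block OD: comparison with a matrix solution and the sign of `B + L⁻¹`. -/

namespace Pool.Agent.MP_3ee8cb_gt.D3OD

open Matrix

namespace RCMP

theorem cl (X : M) (i l : Fin 2) : (X *ᵥ Pi.single l 1) i = X i l := by
  simp [mulVec, dotProduct, Pi.single_apply]

theorem md1 {k A A' : ℝ → M} (hA : MSol k A A') (t : ℝ) : MD A (A' t) t := by
  intro i l
  have h := hasDerivAt_pi.1 ((hA (Pi.single l 1)).d1 t) i
  simpa only [cl] using h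

theorem md2 {k A A' : ℝ → M} (hA : MSol k A A') (t : ℝ) : MD A' (k t * A t) t := by
  intro i l
  have h := hasDerivAt_pi.1 ((hA (Pi.single l 1)).d2 t) i
  simpa only [mulVec_mulVec, cl] using h

theorem psi {k B : ℝ → M} {K K' : ℝ → V} {t : ℝ} (hk : (k t)ᵀ = k t) (hB : (B t)ᵀ = B t)
    (b : MD B (1 - B t * k t * B t) t) (hK : Sol k K K') :
    HasDerivAt (fun s => K' s ⬝ᵥ B s *ᵥ K' s - K s ⬝ᵥ K' s)
      (-((B t *ᵥ K' t - K t) ⬝ᵥ k t *ᵥ (B t *ᵥ K' t - K t))) t := by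
  have p := hasDerivAt_pi.1 (hK.d1 t)
  have q := hasDerivAt_pi.1 (hK.d2 t)
  have H := (((q 0).fun_mul (((b 0 0).fun_mul (q 0)).fun_add ((b 0 1).fun_mul (q 1)))).fun_add
    ((q 1).fun_mul (((b 1 0).fun_mul (q 0)).fun_add ((b 1 1).fun_mul (q 1))))).fun_sub
    (((p 0).fun_mul (q 0)).fun_add ((p 1).fun_mul (q 1)))
  have e : (fun s => K' s ⬝ᵥ B s *ᵥ K' s - K s ⬝ᵥ K' s) = fun s =>
      K' s 0 * (B s 0 0 * K' s 0 + B s 0 1 * K' s 1) +
        K' s 1 * (B s 1 0 * K' s 0 + B s 1 1 * K' s 1) - (K s 0 * K' s 0 + K s 1 * K' s 1) := by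
    funext s
    simp only [dotProduct, mulVec, Fin.sum_univ_two]
  rw [e]
  refine H.congr_deriv ?_
  have k1 : k t 1 0 = k t 0 1 := congrFun (congrFun hk 0) 1
  have b1 : B t 1 0 = B t 0 1 := congrFun (congrFun hB 0) 1
  simp only [dotProduct, mulVec, Fin.sum_univ_two, Matrix.sub_apply, Matrix.mul_apply,
    Pi.sub_apply, Matrix.one_apply_eq, k1, b1,
    Matrix.one_apply_ne (show (0 : Fin 2) ≠ 1 by decide),
    Matrix.one_apply_ne (show (1 : Fin 2) ≠ 0 by decide)]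
  ring

theorem cur0 {k : ℝ → M} (h : Cur 1 k) : Cur 0 k := by
  refine ⟨h.cont, h.symm, fun t x => ?_⟩
  have h1 := h.low t x
  have h2 : 0 ≤ x ⬝ᵥ x := by
    simp only [dotProduct, Fin.sum_univ_two]
    exact add_nonneg (mul_self_nonneg _) (mul_self_nonneg _)
  linarith

theorem sol0 (k : ℝ → M) : Sol k (fun _ => 0) (fun _ => 0) :=
  ⟨fun t => hasDerivAt_const t _, fun t => by
    rw [mulVec_zero]
    exact hasDerivAt_const t _⟩

end RCMP

open RCMP

theorem rCMP : R_CMP := by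
  intro BD k hk A A' hA hB K K' hK s T hsT
  have b : ∀ t, MD (fun s => Bm (A s) (A' s))
      (1 - Bm (A t) (A' t) * k t * Bm (A t) (A' t)) t := by
    intro t
    have h := BD A A' _ _ t (md1 hA t) (md2 hA t) (hB t).1
    have e : A' t * (A' t)⁻¹ - Bm (A t) (A' t) * (k t * A t) * (A' t)⁻¹ =
        1 - Bm (A t) (A' t) * k t * Bm (A t) (A' t) := by
      rw [mul_nonsing_inv _ (isUnit_iff_ne_zero.2 (hB t).1)]
      simp only [Bm, Matrix.mul_assoc]
    rwa [e] at h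
  have hd := fun t => psi (B := fun s => Bm (A s) (A' s)) (hk.symm t) (hB t).2 (b t) hK
  refine antitone_of_deriv_nonpos (fun t => (hd t).differentiableAt) (fun t => ?_) hsT
  rw [(hd t).deriv]
  have h := hk.low t (Bm (A t) (A' t) *ᵥ K' t - K t)
  linarith

theorem rHESS : R_HESS := by
  intro UQ DIA LAM CMP C kM kN hh hv vh vv hO r A A' hA h1 h2 s T hT hsT L hL
  have c0 := cur0 hO.cN
  have G := DIA C kM kN hh hv vh vv hO r A A' hA h1 h2
  obtain ⟨L0, sy, po, h0, su⟩ := LAM kN c0 s T hsT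
  have eL : L = L0 := by
    ext i l
    obtain ⟨K, K', hK, hKT, hKs⟩ := su (Pi.single l 1)
    have e := neg_injective ((hL K K' hK hKT).symm.trans (h0 K K' hK hKT))
    rw [hKs] at e
    have e2 := congrFun e i
    rwa [cl, cl] at e2
  subst eL
  refine ⟨(G s).1.symm, sy, po, fun x hx => ?_⟩
  obtain ⟨K, K', hK, hKT, hKs⟩ := su x
  have h3 := CMP kN c0 A A' hA (fun t => ⟨(G t).1.det, (G t).1.symm⟩) K K' hK s T hsT.le
  have h4 : K' T ≠ 0 := fun h =>
    hx (hKs.symm.trans (UQ kN c0.cont K K' _ _ T hK (sol0 kN) hKT h s).1)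
  have h5 := (G T).2 hT _ h4
  rw [hKT, zero_dotProduct, h0 K K' hK hKT, hKs, mulVec_neg, neg_dotProduct, dotProduct_neg,
    dotProduct_neg] at h3
  linarith

end Pool.Agent.MP_3ee8cb_gt.D3OD
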