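import Pool.Agent.MP_3ee8cb_gt.D3OD.Fin0
import Pool.Agent.MP_3ee8cb_gt.D3OD.RCMP

/-! Block OD assembled. -/

namespace Pool.Agent.MP_3ee8cb_gt.D3OD

theorem sCMP : S_CMP := rCMP rBDER

theorem all : All where
  ex := sEX
  uq := rUQ
  mex := rMEX sEX
  ell := rELL sEX sSTB sSPLIT
  dia := sDIA
  diag := sDIAG
  ric := sRIC
  rici := rRICI sDIAG sDER rBDER sRIC
  frm := rFRM
  cont := rCONT
  fin := rEND
  lam := sLAM
  hess := rHESS rUQ sDIA sLAM sCMP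
  sig := rSIG
  defi := rDEF
  nomin := rNOMIN

end Pool.Agent.MP_3ee8cb_gt.D3OD
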