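import Pool.Agent.MP_3ee8cb_gt.D3.Defs

/-! Growth of one Jacobi field. -/

namespace Pool.Agent.MP_3ee8cb_gt.D3.Dia

open Set Filter Topology
open scoped RealInnerProductSpace

noncomputable section

/-- A field `X` with covariant derivative `X'` in curvature at most `-a ^ 2`. -/
structure Fld (a : ℝ) (X X' : ℝ → V) : Prop where
  n0 : ∀ s, X s = 0 → HasDerivAt X (X' s) s
  n1 : ∀ t, HasDerivAt (fun t => ‖X t‖ ^ 2) (2 * ⟪X t, X' t⟫) t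
  n2 : ∀ t, ∃ d, HasDerivAt (fun t => ⟪X t, X' t⟫) d t ∧ ‖X' t‖ ^ 2 + a ^ 2 * ‖X t‖ ^ 2 ≤ d

namespace Fld

variable {a : ℝ} {X X' : ℝ → V} (h : Fld a X X')
include h

theorem rev : Fld a (fun t => X (-t)) fun t => -X' (-t) := by
  refine ⟨fun s hs => ?_, fun t => ?_, fun t => ?_⟩
  · have := (h.n0 _ hs).scomp s (hasDerivAt_neg s)
    rwa [neg_one_smul] at this
  · have := (h.n1 (-t)).comp t (hasDerivAt_neg t)
    simpa [Function.comp_def] using this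
  · obtain ⟨d, h1, h2⟩ := h.n2 (-t)
    refine ⟨d, ?_, by simpa using h2⟩
    have := (h1.comp t (hasDerivAt_neg t)).neg
    simpa [Function.comp_def, Pi.neg_def] using this

theorem zero : Fld 0 X X' := ⟨h.n0, h.n1, fun t => (h.n2 t).imp fun _ e => ⟨e.1, by
  nlinarith [e.2, mul_nonneg (sq_nonneg a) (sq_nonneg ‖X t‖)]⟩⟩

theorem mono : Monotone fun t => ⟪X t, X' t⟫ := by
  choose d h1 h2 using h.n2
  exact monotone_of_hasDerivAt_nonneg h1 fun t => le_trans (by positivity) (h2 t)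

/-- The smoothed norm and its derivatives. -/
theorem smooth {ε : ℝ} (hε : 0 < ε) (t : ℝ) :
    HasDerivAt (fun t => √(‖X t‖ ^ 2 + ε ^ 2)) (⟪X t, X' t⟫ / √(‖X t‖ ^ 2 + ε ^ 2)) t ∧
    ∃ d, HasDerivAt (fun t => ⟪X t, X' t⟫ / √(‖X t‖ ^ 2 + ε ^ 2)) d t ∧
      a ^ 2 * (√(‖X t‖ ^ 2 + ε ^ 2) - ε) ≤ d := by
  have p0 : 0 < ‖X t‖ ^ 2 + ε ^ 2 := by positivity
  have h1 : HasDerivAt (fun t => √(‖X t‖ ^ 2 + ε ^ 2)) (⟪X t, X' t⟫ / √(‖X t‖ ^ 2 + ε ^ 2)) t := by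
    have := ((h.n1 t).add_const (ε ^ 2)).sqrt p0.ne'
    rwa [mul_div_mul_left _ _ two_ne_zero] at this
  obtain ⟨d, h2, h3⟩ := h.n2 t
  have r0 := Real.sqrt_pos.2 p0
  have r1 := Real.sq_sqrt p0.le
  have r2 : ε ≤ √(‖X t‖ ^ 2 + ε ^ 2) := Real.le_sqrt_of_sq_le (by nlinarith [sq_nonneg ‖X t‖])
  refine ⟨h1, _, h2.div h1 r0.ne', ?_⟩
  have cs : ⟪X t, X' t⟫ ^ 2 ≤ ‖X t‖ ^ 2 * ‖X' t‖ ^ 2 := by
    rw [← mul_pow, ← sq_abs]
    exact pow_le_pow_left₀ (abs_nonneg _) (abs_real_inner_le_norm _ _) 2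
  generalize √(‖X t‖ ^ 2 + ε ^ 2) = r at *
  generalize ⟪X t, X' t⟫ = u at *
  have e : (d * r - u * (u / r)) / r ^ 2 = (d * r ^ 2 - u ^ 2) / r ^ 3 := by field_simp
  rw [e, le_div_iff₀ (by positivity)]
  have k1 : (‖X' t‖ ^ 2 + a ^ 2 * ‖X t‖ ^ 2) * r ^ 2 ≤ d * r ^ 2 := by gcongr
  have k2 : u ^ 2 ≤ ‖X' t‖ ^ 2 * r ^ 2 := by
    rw [r1]
    nlinarith [mul_nonneg (sq_nonneg ‖X' t‖) (sq_nonneg ε)]
  have k3 : (r - ε) * r ≤ ‖X t‖ ^ 2 := by nlinarith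
  have k4 : a ^ 2 * r ^ 2 * ((r - ε) * r) ≤ a ^ 2 * r ^ 2 * ‖X t‖ ^ 2 := by gcongr
  nlinarith

theorem convex : ConvexOn ℝ univ fun t => ‖X t‖ := by
  have k : ∀ ε : ℝ, 0 < ε → ConvexOn ℝ univ fun t => √(‖X t‖ ^ 2 + ε ^ 2) := fun ε hε => by
    choose h1 d h2 h3 using h.zero.smooth hε
    refine Monotone.convexOn_univ_of_deriv (fun t => (h1 t).differentiableAt) ?_
    rw [funext fun t => (h1 t).deriv]
    exact monotone_of_hasDerivAt_nonneg h2 fun t => by simpa using h3 t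
  refine ⟨convex_univ, fun s _ t _ p q hp hq hpq => le_of_forall_pos_le_add fun ε hε => ?_⟩
  have h1 := (k ε hε).2 (mem_univ s) (mem_univ t) hp hq hpq
  have lo : ∀ t, ‖X t‖ ≤ √(‖X t‖ ^ 2 + ε ^ 2) := fun t =>
    Real.le_sqrt_of_sq_le (by nlinarith [sq_nonneg ε])
  have hi : ∀ t, √(‖X t‖ ^ 2 + ε ^ 2) ≤ ‖X t‖ + ε := fun t =>
    Real.sqrt_le_iff.2 ⟨by positivity, by nlinarith [mul_nonneg (norm_nonneg (X t)) hε.le]⟩
  simp only [smul_eq_mul] at h1 ⊢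
  have h2 := mul_le_mul_of_nonneg_left (hi s) hp
  have h3 := mul_le_mul_of_nonneg_left (hi t) hq
  have h4 : p * ε + q * ε = ε := by rw [← add_mul, hpq, one_mul]
  nlinarith [lo (p * s + q * t)]

theorem grow {s t : ℝ} (h0 : X s = 0) (hst : s ≤ t) : (t - s) * ‖X' s‖ ≤ ‖X t‖ := by
  rcases hst.eq_or_lt with rfl | hst
  · simp
  have h1 := ((hasDerivAt_iff_tendsto_slope.1 (h.n0 s h0)).mono_left
    (nhdsWithin_mono s fun x (hx : x ∈ Ioi s) => (mem_Ioi.1 hx).ne')).norm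
  have h2 : ‖X' s‖ ≤ ‖X t‖ / (t - s) := by
    refine le_of_tendsto h1 ?_
    filter_upwards [Ioo_mem_nhdsGT hst] with x hx
    have := h.convex.secant_mono (mem_univ s) (mem_univ x) (mem_univ t) hx.1.ne' hst.ne' hx.2.le
    rw [slope_def_module, h0, sub_zero, norm_smul, norm_inv, Real.norm_of_nonneg (sub_pos.2 hx.1).le,
      inv_mul_eq_div]
    simpa [h0] using this
  rwa [le_div_iff₀ (sub_pos.2 hst), mul_comm] at h2

theorem grow' {s t : ℝ} (h0 : X s = 0) (hst : t ≤ s) : (s - t) * ‖X' s‖ ≤ ‖X t‖ := by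
  have := h.rev.grow (s := -s) (t := -t) (by simpa using h0) (neg_le_neg hst)
  simp only [neg_neg, norm_neg] at this
  rwa [show s - t = -t - -s by ring]

theorem low (ha : 0 ≤ a) {s t : ℝ} (hst : s ≤ t) :
    a * ‖X t‖ ^ 2 - (‖X' s‖ + a * ‖X s‖) * ‖X t‖ ≤ ⟪X t, X' t⟫ := by
  obtain ⟨δ, hδ⟩ : ∃ δ, δ = ‖X' s‖ + a * ‖X s‖ := ⟨_, rfl⟩
  have δ0 : 0 ≤ δ := by rw [hδ]; positivity
  have k : ∀ ε : ℝ, 0 < ε → √(‖X t‖ ^ 2 + ε ^ 2) * (a * (√(‖X t‖ ^ 2 + ε ^ 2) - ε) - δ) ≤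
      ⟪X t, X' t⟫ := fun ε hε => by
    choose h1 d h2 h3 using h.smooth hε
    have r0 : ∀ t, 0 < √(‖X t‖ ^ 2 + ε ^ 2) := fun t => Real.sqrt_pos.2 (by positivity)
    have m : Monotone fun t => Real.exp (a * t) *
        (⟪X t, X' t⟫ / √(‖X t‖ ^ 2 + ε ^ 2) - a * (√(‖X t‖ ^ 2 + ε ^ 2) - ε)) :=
      monotone_of_hasDerivAt_nonneg (fun t => (((hasDerivAt_id t).const_mul a).exp).mul
        ((h2 t).sub (((h1 t).sub_const ε).const_mul a))) fun t => by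
          have := mul_nonneg (Real.exp_pos (a * t)).le (sub_nonneg.2 (h3 t))
          simp only [Pi.zero_apply, id]
          nlinarith
    have h4 := m hst
    have h5 : -δ ≤ ⟪X s, X' s⟫ / √(‖X s‖ ^ 2 + ε ^ 2) - a * (√(‖X s‖ ^ 2 + ε ^ 2) - ε) := by
      have lo : ‖X s‖ ≤ √(‖X s‖ ^ 2 + ε ^ 2) := Real.le_sqrt_of_sq_le (by nlinarith [sq_nonneg ε])
      have hi : √(‖X s‖ ^ 2 + ε ^ 2) ≤ ‖X s‖ + ε :=
        Real.sqrt_le_iff.2 ⟨by positivity, by nlinarith [mul_nonneg (norm_nonneg (X s)) hε.le]⟩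
      have h6 : -‖X' s‖ ≤ ⟪X s, X' s⟫ / √(‖X s‖ ^ 2 + ε ^ 2) := by
        rw [le_div_iff₀ (r0 s)]
        nlinarith [neg_le_of_abs_le (abs_real_inner_le_norm (X s) (X' s)), norm_nonneg (X' s)]
      nlinarith
    have h6 : Real.exp (a * s) ≤ Real.exp (a * t) := Real.exp_le_exp.2 (by gcongr)
    have h7 : Real.exp (a * t) * -δ ≤ Real.exp (a * t) *
        (⟪X t, X' t⟫ / √(‖X t‖ ^ 2 + ε ^ 2) - a * (√(‖X t‖ ^ 2 + ε ^ 2) - ε)) := by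
      refine le_trans ?_ h4
      nlinarith [mul_le_mul_of_nonneg_left h5 (Real.exp_pos (a * s)).le]
    have h8 := le_of_mul_le_mul_left h7 (Real.exp_pos _)
    rw [mul_comm, ← le_div_iff₀ (r0 t)]
    linarith
  have c : Continuous fun ε : ℝ => √(‖X t‖ ^ 2 + ε ^ 2) * (a * (√(‖X t‖ ^ 2 + ε ^ 2) - ε) - δ) := by
    fun_prop
  have := le_of_tendsto ((c.tendsto 0).mono_left (nhdsWithin_le_nhds (s := Ioi 0)))
    (eventually_mem_nhdsWithin.mono k)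
  simp only [ne_eq, OfNat.ofNat_ne_zero, not_false_eq_true, zero_pow, add_zero,
    Real.sqrt_sq (norm_nonneg _), sub_zero] at this
  rw [← hδ]
  nlinarith

end Fld

end

end Pool.Agent.MP_3ee8cb_gt.D3.Dia
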