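import Pool.Agent.MP_3ee8cb_gt.D3OD.LinkA
import Pool.Agent.MP_3ee8cb_gt.D3SC.Sc

/-! Block OD: Jacobi fields in parallel frames. -/

namespace Pool.Agent.MP_3ee8cb_gt.D3.LK

open Matrix Filter Topology
open D3OD (OB co pv mat Sol Cur co_pv pv_perp pv_co inner_co mat_mulVec co_add inn)
open scoped RealInnerProductSpace

noncomputable section

variable {m m' : MF} {z ξ η : V × V} {β β' : ℝ → OB} {φ : V × V → V × V}

/-- A parallel orthonormal frame along the orbit of `z`. -/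
structure Fr (m : MF) (z : V × V) (β : ℝ → OB) : Prop where
  b0 : ∀ t, β t 0 = (m.Z t z).2
  der : ∀ i t, HasDerivAt (fun s => β s i) (-m.w z t (β t i)) t

theorem exists_fr (j : m.Jac) (hz : ‖z.2‖ = 1) : ∃ β, Fr m z β := by
  obtain ⟨O, -, h1, h2⟩ := j.par z
  obtain ⟨b, hb⟩ := Orthonormal.exists_orthonormalBasis_extension_of_card_eq (𝕜 := ℝ)
    (ι := Fin 3) (v := fun _ => z.2) (s := {0}) (by simp)
    ⟨fun _ => hz, fun i l h => absurd (Subsingleton.elim i l) h⟩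
  exact ⟨fun t => b.map (O t), fun t => by rw [OrthonormalBasis.map_apply, hb 0 rfl, h1],
    fun i t => h2 (b i) t⟩

/-- The curvature matrix along the orbit. -/
def kk (m : MF) (z : V × V) (β : ℝ → OB) (t : ℝ) : D3OD.M := Matrix.of fun i l =>
  -⟪β t i.succ, m.K (m.Z t z).1 (β t l.succ) (m.Z t z).2 (m.Z t z).2⟫

theorem kk_mul (j : m.Jac) (t : ℝ) (x : D3OD.V) (i : Fin 2) : (kk m z β t *ᵥ x) i =
    -⟪β t i.succ, m.K (m.Z t z).1 (pv (β t) x) (m.Z t z).2 (m.Z t z).2⟫ := by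
  obtain ⟨L, hL⟩ := j.lK (m.Z t z).1
  simp only [kk, hL, pv, mulVec, dotProduct, map_sum, map_smul, _root_.sum_apply,
    _root_.smul_apply, inner_sum, inner_smul_right, of_apply,
    ← Finset.sum_neg_distrib, mul_neg, mul_comm]

theorem cur (o : m.OK) (j : m.Jac) (F : Fr m z β) {a : ℝ} (h : m.Up a) : Cur a (kk m z β) := by
  have cb : ∀ i, Continuous fun t => β t i := fun i =>
    continuous_iff_continuousAt.2 fun t => (F.der i t).continuousAt
  have cz : Continuous fun t => m.Z t z :=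
    continuous_iff_continuousAt.2 fun t => (o.ode z t).continuousAt
  refine ⟨fun i l => ((cb _).inner (j.cK.comp (cz.fst.prodMk ((cb l.succ).prodMk
    (cz.snd.prodMk cz.snd))))).neg, fun t => ?_, fun t x => ?_⟩
  · ext i l
    simp only [kk, transpose_apply, of_apply]
    rw [real_inner_comm, j.pK, j.aK, inner_neg_left, j.sK, neg_neg]
  · have h1 := h (m.Z t z).1 (pv (β t) x) (m.Z t z).2
    have h2 := pv_perp (β t) x
    have h3 := inner_co h2
    rw [co_pv] at h3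
    rw [← real_inner_self_eq_norm_sq, h3, co_pv, real_inner_comm, ← F.b0, h2,
      (β t).orthonormal.1 0, real_inner_comm, h3, F.b0] at h1
    refine (le_of_eq (by ring)).trans (h1.trans (le_of_eq ?_))
    rw [← dotProduct_neg]
    exact congrArg _ (funext fun i => (kk_mul j t x i).symm)

theorem Z0 (o : m.OK) (z ξ : V × V) : fderiv ℝ (m.Z 0) z ξ = ξ := by
  rw [show m.Z 0 = id from funext o.zero, fderiv_id]
  rfl

theorem J0 (o : m.OK) (z ξ : V × V) : m.J z ξ 0 = m.hor z ξ := by rw [MF.J, Z0 o, o.zero]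

theorem J0' (o : m.OK) (z ξ : V × V) : m.J' z ξ 0 = m.ver z ξ := by rw [MF.J', Z0 o, o.zero]

theorem dJ (o : m.OK) (j : m.Jac) (F : Fr m z β) (ξ : V × V) (i : Fin 3) (t : ℝ) :
    HasDerivAt (fun s => ⟪β s i, m.J z ξ s⟫) ⟪β t i, m.J' z ξ t⟫ t ∧
    HasDerivAt (fun s => ⟪β s i, m.J' z ξ s⟫)
      (-⟪β t i, m.K (m.Z t z).1 (m.J z ξ t) (m.Z t z).2 (m.Z t z).2⟫) t := by
  have h1 := (F.der i t).inner ℝ (j.d1 z ξ t)
  have h2 := (F.der i t).inner ℝ (j.d2 z ξ t)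
  rw [inner_sub_right, inner_neg_left, MF.w, o.skew, neg_neg, sub_add_cancel] at h1 h2
  exact ⟨h1, inner_neg_right (𝕜 := ℝ) (β t i) _ ▸ h2⟩

/-- The tangent vector is orthogonal to the flow and tangent to the sphere bundle. -/
def Pp (m : MF) (z ξ : V × V) : Prop := ⟪z.2, m.hor z ξ⟫ = 0 ∧ ⟪z.2, m.ver z ξ⟫ = 0

theorem perp (o : m.OK) (j : m.Jac) (F : Fr m z β) (h : Pp m z ξ) (t : ℝ) :
    ⟪β t 0, m.J z ξ t⟫ = 0 ∧ ⟪β t 0, m.J' z ξ t⟫ = 0 := by
  have h1 : ∀ t, ⟪β t 0, m.J' z ξ t⟫ = 0 := fun t => by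
    have := is_const_of_deriv_eq_zero (f := fun s => ⟪β s 0, m.J' z ξ s⟫)
      (fun s => (dJ o j F ξ 0 s).2.differentiableAt) (fun s => by
        rw [(dJ o j F ξ 0 s).2.deriv, F.b0]
        have := j.sK (m.Z s z).1 (m.J z ξ s) (m.Z s z).2 (m.Z s z).2 (m.Z s z).2
        rw [real_inner_comm] at this
        linarith) t 0
    rw [this, F.b0, o.zero, J0' o, h.2]
  refine ⟨?_, h1 t⟩
  have := is_const_of_deriv_eq_zero (f := fun s => ⟪β s 0, m.J z ξ s⟫)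
    (fun s => (dJ o j F ξ 0 s).1.differentiableAt)
    (fun s => by rw [(dJ o j F ξ 0 s).1.deriv, h1]) t 0
  rw [this, F.b0, o.zero, J0 o, h.1]

theorem sol (o : m.OK) (j : m.Jac) (F : Fr m z β) (h : Pp m z ξ) :
    Sol (kk m z β) (fun t => co (β t) (m.J z ξ t)) fun t => co (β t) (m.J' z ξ t) :=
  ⟨fun t => hasDerivAt_pi.2 fun i => (dJ o j F ξ i.succ t).1, fun t => hasDerivAt_pi.2 fun i => by
    rw [kk_mul j, pv_co (perp o j F h t).1]
    exact (dJ o j F ξ i.succ t).2⟩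

/-- The horizontal lift. -/
def tH (m : MF) (z : V × V) : V →L[ℝ] V × V :=
  (m.R z.1).prod (-((m.om z.1).flip z.2).comp (m.R z.1))

/-- The tangent vector with given horizontal and vertical parts. -/
def tv (m : MF) (z : V × V) (x e : V) : V × V := tH m z x + ContinuousLinearMap.inr ℝ V V e

theorem hor_tv (o : m.OK) (x e : V) : m.hor z (tv m z x e) = x := by
  simp [MF.hor, tv, tH, o.SR]

theorem ver_tv (x e : V) : m.ver z (tv m z x e) = e := by simp [MF.ver, tv, tH]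

theorem tv_eq (o : m.OK) (z ξ : V × V) : tv m z (m.hor z ξ) (m.ver z ξ) = ξ := by
  simp [MF.hor, MF.ver, tv, tH, o.RS]

theorem ver_inner (o : m.OK) (z ξ : V × V) : ⟪z.2, m.ver z ξ⟫ = ⟪z.2, ξ.2⟫ := by
  have h := o.skew z.1 ξ.1 z.2 z.2
  rw [real_inner_comm] at h
  change ⟪z.2, ξ.2 + m.om z.1 ξ.1 z.2⟫ = _
  rw [inner_add_right]
  linarith

theorem ver_phi (o : m.OK) (o' : m'.OK) (cf : CF m m' φ) (hz : z.2 ≠ 0) (ξ : V × V) :
    ⟪(φ z).2, m'.ver (φ z) (fderiv ℝ φ z ξ)⟫ = ⟪z.2, m.ver z ξ⟫ := by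
  have d1 := ((SC.diffAt cf.c1 hz).hasFDerivAt.snd).norm_sq
  have d2 := ((hasFDerivAt_snd (𝕜 := ℝ) (p := z)).norm_sq).congr_of_eventuallyEq
    (f₁ := fun w => ‖(φ w).2‖ ^ 2) (by
      filter_upwards [SC.isOpen_U.mem_nhds hz] with w hw using by rw [cf.norm w hw])
  have e := DFunLike.congr_fun (d1.unique d2) ξ
  rw [ver_inner o, ver_inner o']
  simpa using e

theorem pp_phi (o : m.OK) (o' : m'.OK) (cf : CF m m' φ) (sy : Sy m m' φ) (hz : z.2 ≠ 0)
    (h : Pp m z ξ) : Pp m' (φ z) (fderiv ℝ φ z ξ) :=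
  ⟨(sy.al z ξ hz).trans h.1, (ver_phi o o' cf hz ξ).trans h.2⟩

theorem chain (o : m.OK) (j : m.Jac) (o' : m'.OK) (cf : CF m m' φ) (hz : z.2 ≠ 0) (t : ℝ)
    (ξ : V × V) : fderiv ℝ φ (m.Z t z) (fderiv ℝ (m.Z t) z ξ) =
      fderiv ℝ (m'.Z t) (φ z) (fderiv ℝ φ z ξ) := by
  have dz : ∀ {m : MF}, m.OK → ∀ z, DifferentiableAt ℝ (m.Z t) z := fun o z =>
    ((o.cZ.comp (contDiff_const.prodMk contDiff_id)).differentiable one_ne_zero) z
  have h1 : (m.Z t z).2 ≠ 0 := norm_ne_zero_iff.1 (j.norm t z ▸ norm_ne_zero_iff.2 hz)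
  have d1 := (SC.diffAt cf.c1 h1).hasFDerivAt.comp z (dz o z).hasFDerivAt
  have d2 := ((dz o' (φ z)).hasFDerivAt.comp z
    (SC.diffAt cf.c1 hz).hasFDerivAt).congr_of_eventuallyEq (f₁ := φ ∘ m.Z t) (by
      filter_upwards [SC.isOpen_U.mem_nhds hz] with w hw using cf.flow t w hw)
  exact DFunLike.congr_fun (d1.unique d2) ξ

theorem radial (cf : CF m m' φ) (hz : z.2 ≠ 0) : fderiv ℝ φ z (0, z.2) = (0, (φ z).2) := by
  have d0 : ∀ w : V × V, HasDerivAt (fun r : ℝ => (w.1, r • w.2)) (0, w.2) 1 := fun w => by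
    simpa using (hasDerivAt_const (1 : ℝ) w.1).prodMk ((hasDerivAt_id (1 : ℝ)).smul_const w.2)
  have d1 := HasFDerivAt.comp_hasDerivAt_of_eq (1 : ℝ) (SC.diffAt cf.c1 hz).hasFDerivAt (d0 z)
    (by simp)
  refine d1.unique ((d0 (φ z)).congr_of_eventuallyEq ?_)
  filter_upwards [isOpen_ne.mem_nhds (one_ne_zero' ℝ)] with r hr using cf.hom r z.1 z.2 hr hz

end

end Pool.Agent.MP_3ee8cb_gt.D3.LK
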