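import Pool.Agent.MP_3ee8cb_gt.D3OD.Spec

/-! Existence and uniqueness for the equation `j'' = k j`. -/

namespace Pool.Agent.MP_3ee8cb_gt.D3OD

open Matrix

namespace REX

open Set Metric
open scoped NNReal

variable {W : Type} [NormedAddCommGroup W] [NormedSpace ℝ W]

theorem uq {a : ℝ → W →L[ℝ] W} (ha : Continuous a) {p q s : ℝ} (hs : s ∈ Ioo p q) {y z : ℝ → W}
    (hy : ∀ t ∈ Ioo p q, HasDerivAt y (a t (y t)) t)
    (hz : ∀ t ∈ Ioo p q, HasDerivAt z (a t (z t)) t) (h : y s = z s) : EqOn y z (Ioo p q) := by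
  obtain ⟨C, hC⟩ := (isCompact_Icc (a := p) (b := q)).exists_bound_of_continuousOn ha.continuousOn
  refine ODE_solution_unique_of_mem_Ioo (v := fun t x => a t x) (s := fun _ => univ)
    (K := Real.toNNReal C) (fun t ht => ?_) hs (fun t ht => ⟨hy t ht, mem_univ _⟩)
    (fun t ht => ⟨hz t ht, mem_univ _⟩) h
  refine LipschitzOnWith.of_dist_le_mul fun x _ w _ => ?_
  rw [dist_eq_norm, dist_eq_norm, ← map_sub]
  exact (a t).le_of_opNorm_le ((hC t (Ioo_subset_Icc_self ht)).trans (Real.le_coe_toNNReal C)) _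

theorem bnd {T C : ℝ} (hC : 0 ≤ C) {Y Y' : ℝ → W}
    (hY : ∀ t ∈ Icc (-T) T, HasDerivWithinAt Y (Y' t) (Icc (-T) T) t)
    (hb : ∀ t ∈ Icc (-T) T, ‖Y' t‖ ≤ C * ‖Y t‖) {t : ℝ} (ht : t ∈ Icc 0 T) :
    ‖Y t‖ ≤ ‖Y 0‖ * Real.exp (C * T) := by
  have hT : 0 ≤ T := ht.1.trans ht.2
  have hs : Icc 0 T ⊆ Icc (-T) T := Icc_subset_Icc_left (by linarith)
  have h := norm_le_gronwallBound_of_norm_deriv_right_le (f := Y) (f' := Y') (δ := ‖Y 0‖) (K := C)
    (ε := 0) (a := 0) (b := T)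
    (fun u hu => ((hY u (hs hu)).mono hs).continuousWithinAt)
    (fun u hu => ((hY u (hs (Ico_subset_Icc_self hu))).mono hs).mono_of_mem_nhdsWithin
      (Icc_mem_nhdsGE_of_mem hu)) le_rfl
    (fun u hu => by rw [add_zero]; exact hb u (hs (Ico_subset_Icc_self hu))) t ht
  refine h.trans ?_
  rw [gronwallBound_ε0]
  exact mul_le_mul_of_nonneg_left (Real.exp_le_exp.2 (by nlinarith [ht.1, ht.2])) (norm_nonneg _)

theorem bnd2 {T C : ℝ} (hC : 0 ≤ C) {Y Y' : ℝ → W}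
    (hY : ∀ t ∈ Icc (-T) T, HasDerivWithinAt Y (Y' t) (Icc (-T) T) t)
    (hb : ∀ t ∈ Icc (-T) T, ‖Y' t‖ ≤ C * ‖Y t‖) {t : ℝ} (ht : t ∈ Icc (-T) T) :
    ‖Y t‖ ≤ ‖Y 0‖ * Real.exp (C * T) := by
  rcases le_total 0 t with h | h
  · exact bnd hC hY hb ⟨h, ht.2⟩
  · have hm : ∀ u ∈ Icc (-T) T, -u ∈ Icc (-T) T := fun u hu =>
      ⟨by linarith [hu.2], by linarith [hu.1]⟩
    have := bnd (Y := fun u => Y (-u)) (Y' := fun u => (-1 : ℝ) • Y' (-u)) hC
      (fun u hu => (hY (-u) (hm u hu)).scomp u (hasDerivAt_neg u).hasDerivWithinAt hm)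
      (fun u hu => by rw [neg_one_smul, norm_neg]; exact hb (-u) (hm u hu))
      (t := -t) ⟨by linarith, by linarith [ht.1]⟩
    simpa only [neg_neg, neg_zero] using this

theorem loc [CompleteSpace W] {a : ℝ → W →L[ℝ] W} (ha : Continuous a) (x₀ : W) {T : ℝ}
    (hT : 0 < T) : ∃ Y : ℝ → W, Y 0 = x₀ ∧ ∀ t ∈ Ioo (-T) T, HasDerivAt Y (a t (Y t)) t := by
  obtain ⟨C, hM⟩ :=
    (isCompact_Icc (a := -T) (b := T)).exists_bound_of_continuousOn ha.continuousOn
  have h0 : (0 : ℝ) ∈ Icc (-T) T := ⟨by linarith, hT.le⟩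
  have hM0 : 0 ≤ C := (norm_nonneg _).trans (hM 0 h0)
  set R := ‖x₀‖ * Real.exp (C * T) with hR
  have hR0 : 0 ≤ R := by positivity
  set χ : W → ℝ := fun x => max 0 (min 1 (R + 1 - ‖x‖)) with hχ
  have hχ0 : ∀ x, 0 ≤ χ x := fun x => le_max_left _ _
  have hχ1 : ∀ x, χ x ≤ 1 := fun x => max_le zero_le_one (min_le_left _ _)
  have hχl : ∀ x y, |χ x - χ y| ≤ ‖x - y‖ := fun x y => by
    refine (abs_max_sub_max_le_max _ _ _ _).trans (max_le (by simp) ?_)
    refine (abs_min_sub_min_le_max _ _ _ _).trans (max_le (by simp) ?_)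
    rw [show R + 1 - ‖x‖ - (R + 1 - ‖y‖) = ‖y‖ - ‖x‖ by ring, norm_sub_rev]
    exact abs_norm_sub_norm_le _ _
  have hχb : ∀ x, χ x * ‖x‖ ≤ R + 1 := fun x => by
    rcases le_total ‖x‖ (R + 1) with h | h
    · nlinarith [hχ0 x, hχ1 x, norm_nonneg x]
    · have : χ x = 0 := max_eq_left ((min_le_right _ _).trans (by linarith))
      rw [this]; linarith
  have hap : ∀ t ∈ Icc (-T) T, ∀ x, ‖a t x‖ ≤ ‖x‖ * C := fun t ht x => by
    rw [mul_comm]; exact (a t).le_of_opNorm_le (hM t ht) x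
  set L : ℝ≥0 := ⟨(R + 1) * C, by positivity⟩ with hL
  set ρ : ℝ≥0 := ⟨(R + 1) * C * T, by positivity⟩ with hρ
  have hpl : IsPicardLindelof (fun t x => a t (χ x • x)) (⟨0, h0⟩ : Icc (-T) T) x₀
      ρ 0 L ⟨((R + 1) * C * T + ‖x₀‖ + 1) * C, by positivity⟩ := by
    refine ⟨fun t ht => LipschitzOnWith.of_dist_le_mul fun x hx y _ => ?_,
      fun x _ => (ha.clm_apply continuous_const).continuousOn, fun t ht x _ => ?_, ?_⟩
    · have hx' : ‖x‖ ≤ (R + 1) * C * T + ‖x₀‖ := by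
        have h1 : ‖x - x₀‖ ≤ (R + 1) * C * T := mem_closedBall_iff_norm.1 hx
        linarith [norm_le_norm_sub_add x x₀]
      rw [dist_eq_norm, dist_eq_norm, ← map_sub]
      have e : χ x • x - χ y • y = (χ x - χ y) • x + χ y • (x - y) := by module
      have h1 : ‖χ x • x - χ y • y‖ ≤ ((R + 1) * C * T + ‖x₀‖ + 1) * ‖x - y‖ := by
        rw [e]
        refine (norm_add_le _ _).trans ?_
        rw [norm_smul, norm_smul, Real.norm_eq_abs, Real.norm_eq_abs, abs_of_nonneg (hχ0 y)]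
        have h2 := mul_le_mul (hχl x y) hx' (norm_nonneg _) (norm_nonneg _)
        nlinarith [hχ1 y, norm_nonneg (x - y)]
      refine (hap t ht _).trans ((mul_le_mul_of_nonneg_right h1 hM0).trans_eq ?_)
      show _ = ((R + 1) * C * T + ‖x₀‖ + 1) * C * ‖x - y‖
      ring
    · refine (hap t ht _).trans ?_
      rw [norm_smul, Real.norm_eq_abs, abs_of_nonneg (hχ0 x)]
      exact mul_le_mul_of_nonneg_right (hχb x) hM0
    · show (R + 1) * C * max (T - 0) (0 - -T) ≤ (R + 1) * C * T - 0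
      rw [sub_zero, zero_sub, neg_neg, max_self, sub_zero]
  obtain ⟨Y, hY0, hY⟩ := hpl.exists_eq_forall_mem_Icc_hasDerivWithinAt₀
  have hY0' : Y 0 = x₀ := hY0
  refine ⟨Y, hY0', fun t ht => ?_⟩
  have ht' := Ioo_subset_Icc_self ht
  have h1 : ‖Y t‖ ≤ R := by
    have := bnd2 hM0 hY (fun u hu => by
      refine (hap u hu _).trans ?_
      rw [norm_smul, Real.norm_eq_abs, abs_of_nonneg (hχ0 _), mul_comm C]
      exact mul_le_mul_of_nonneg_right (mul_le_of_le_one_left (norm_nonneg _) (hχ1 _)) hM0) ht'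
    rwa [hY0'] at this
  have h2 : χ (Y t) = 1 := by
    simp only [hχ]; rw [min_eq_left (by linarith), max_eq_right zero_le_one]
  have h3 := (hY t ht').hasDerivAt (Icc_mem_nhds ht.1 ht.2)
  simpa only [h2, one_smul] using h3

theorem glob0 [CompleteSpace W] {a : ℝ → W →L[ℝ] W} (ha : Continuous a) (x₀ : W) :
    ∃ y : ℝ → W, y 0 = x₀ ∧ ∀ t, HasDerivAt y (a t (y t)) t := by
  choose Y h0 hY using fun n : ℕ => loc ha x₀ (T := (n : ℝ) + 1) (by positivity)
  have hc : ∀ m n : ℕ, m ≤ n → EqOn (Y m) (Y n) (Ioo (-((m : ℝ) + 1)) (m + 1)) := fun m n h => by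
    have h' : (m : ℝ) ≤ n := Nat.cast_le.2 h
    have hm : (0 : ℝ) ≤ m := Nat.cast_nonneg m
    exact uq ha (s := 0) ⟨by linarith, by linarith⟩ (hY m)
      (fun t ht => hY n t ⟨by linarith [ht.1], by linarith [ht.2]⟩) ((h0 m).trans (h0 n).symm)
  have hin : ∀ t : ℝ, t ∈ Ioo (-((⌈|t|⌉₊ : ℝ) + 1)) (⌈|t|⌉₊ + 1) := fun t =>
    ⟨by linarith [Nat.le_ceil |t|, neg_abs_le t], by linarith [Nat.le_ceil |t|, le_abs_self t]⟩
  refine ⟨fun t => Y ⌈|t|⌉₊ t, h0 _, fun t => ?_⟩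
  have he : ∀ u ∈ Ioo (-(|t| + 1)) (|t| + 1), Y ⌈|u|⌉₊ u = Y (⌈|t|⌉₊ + 1) u := fun u hu => by
    refine hc _ _ (Nat.ceil_le.2 ?_) (hin u)
    push_cast
    linarith [Nat.le_ceil |t|, abs_lt.2 hu]
  have ht : t ∈ Ioo (-(|t| + 1)) (|t| + 1) :=
    ⟨by linarith [neg_abs_le t], by linarith [le_abs_self t]⟩
  have h1 := hY (⌈|t|⌉₊ + 1) t ⟨by push_cast; linarith [(hin t).1], by
    push_cast; linarith [(hin t).2]⟩
  show HasDerivAt _ (a t (Y ⌈|t|⌉₊ t)) t
  rw [he t ht]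
  exact h1.congr_of_eventuallyEq (Filter.mem_of_superset (Ioo_mem_nhds ht.1 ht.2) he)

theorem glob [CompleteSpace W] {a : ℝ → W →L[ℝ] W} (ha : Continuous a) (s : ℝ) (x₀ : W) :
    ∃ y : ℝ → W, y s = x₀ ∧ ∀ t, HasDerivAt y (a t (y t)) t := by
  obtain ⟨y, h0, hy⟩ := glob0 (a := fun t => a (t + s)) (ha.comp (continuous_id.add continuous_const)) x₀
  refine ⟨fun t => y (t - s), by simpa only [sub_self] using h0, fun t => ?_⟩
  have h := (hy (t - s)).comp_sub_const t s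
  simpa only [sub_add_cancel] using h

/-- The first order system. -/
noncomputable def sys (m : M) : (V × V) →L[ℝ] (V × V) :=
  (ContinuousLinearMap.snd ℝ V V).prod
    ((LinearMap.toContinuousLinearMap (Matrix.toLin' m)).comp (ContinuousLinearMap.fst ℝ V V))

theorem sys_apply (m : M) (p : V × V) : sys m p = (p.2, m *ᵥ p.1) := rfl

theorem sys_cont {k : ℝ → M} (hk : Cont k) : Continuous fun t => sys (k t) := by
  refine continuous_clm_apply.2 fun p => ?_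
  simp only [sys_apply]
  refine continuous_const.prodMk ?_
  exact (continuous_matrix hk).matrix_mulVec continuous_const

end REX

theorem rUQ : S_UQ := by
  intro k hk j j' i i' s hj hi h1 h2 t
  have h := REX.uq (REX.sys_cont hk) (p := min s t - 1) (q := max s t + 1) (s := s)
    ⟨by linarith [min_le_left s t], by linarith [le_max_left s t]⟩
    (y := fun u => (j u, j' u)) (z := fun u => (i u, i' u))
    (fun u _ => (hj.d1 u).prodMk (hj.d2 u)) (fun u _ => (hi.d1 u).prodMk (hi.d2 u))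
    (Prod.ext h1 h2) (x := t) ⟨by linarith [min_le_right s t], by linarith [le_max_right s t]⟩
  exact ⟨congrArg Prod.fst h, congrArg Prod.snd h⟩

theorem rEX : R_EX := by
  intro _ k hk s a b
  obtain ⟨y, h0, hy⟩ := REX.glob (REX.sys_cont hk) s (a, b)
  refine ⟨fun t => (y t).1, fun t => (y t).2, ⟨fun t => ?_, fun t => ?_⟩,
    congrArg Prod.fst h0, congrArg Prod.snd h0⟩
  · exact (ContinuousLinearMap.fst ℝ V V).hasFDerivAt.comp_hasDerivAt t (hy t)
  · exact (ContinuousLinearMap.snd ℝ V V).hasFDerivAt.comp_hasDerivAt t (hy t)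

end Pool.Agent.MP_3ee8cb_gt.D3OD
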