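import Pool.Agent.MP_3ee8cb_gt.D3OD.Spec

/-! Change of frames, continuous dependence and the equality case. -/

namespace Pool.Agent.MP_3ee8cb_gt.D3OD

open Matrix

namespace RFRM

theorem det_conj {R : M} (hR : R * Rᵀ = 1) (B : M) : (R * B * Rᵀ).det = B.det := by
  have h := congrArg det hR
  rw [det_mul, det_one] at h
  rw [det_mul, det_mul, mul_right_comm, h, one_mul]

theorem abs_det {R : M} (hR : R * Rᵀ = 1) : |R.det| = 1 := by
  have h := congrArg det hR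
  rw [det_mul, det_one, det_transpose] at h
  rcases mul_self_eq_one_iff.1 h with e | e <;> simp [e]

theorem quad (R B : M) (x : V) :
    x ⬝ᵥ (R * B * Rᵀ) *ᵥ x = (Rᵀ *ᵥ x) ⬝ᵥ B *ᵥ (Rᵀ *ᵥ x) := by
  rw [← mulVec_mulVec, ← mulVec_mulVec, dotProduct_mulVec, ← mulVec_transpose]

theorem det_ne {B : M} (h : ∀ x : V, x ≠ 0 → |x ⬝ᵥ B *ᵥ x| < x ⬝ᵥ x) {c : ℝ} (hc : |c| < 1) :
    (1 + c • B).det ≠ 0 := fun e => by
  obtain ⟨v, hv, h0⟩ := exists_mulVec_eq_zero_iff.2 e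
  have h1 := congrArg (v ⬝ᵥ ·) h0
  simp only [add_mulVec, one_mulVec, smul_mulVec, dotProduct_add, dotProduct_smul,
    dotProduct_zero, smul_eq_mul] at h1
  have h2 := h v hv
  have h3 : v ⬝ᵥ v ≤ |c| * |v ⬝ᵥ B *ᵥ v| := by
    rw [← abs_mul]
    have := neg_abs_le (c * (v ⬝ᵥ B *ᵥ v))
    linarith
  nlinarith [abs_nonneg c, abs_nonneg (v ⬝ᵥ B *ᵥ v)]

end RFRM

open RFRM

theorem rFRM : S_FRM := by
  intro A A' R S c hR hS
  have hR' : Rᵀ * R = 1 := mul_eq_one_comm.1 hR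
  have h1 : Bm (R * A * S) (R * A' * S) = R * Bm A A' * Rᵀ := by
    rw [Bm, Bm, Matrix.mul_inv_rev, Matrix.mul_inv_rev, inv_eq_right_inv hR, inv_eq_right_inv hS,
      mul_assoc (R * A), ← mul_assoc S, hS, one_mul]
    simp only [mul_assoc]
  have h2 : |(R * A' * S).det| = |A'.det| := by
    rw [det_mul, det_mul, abs_mul, abs_mul, abs_det hR, abs_det hS, one_mul, mul_one]
  have h3 : ∀ d : ℝ, (1 + d • (R * Bm A A' * Rᵀ)).det = (1 + d • Bm A A').det := fun d => by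
    rw [← det_conj hR (1 + d • Bm A A'), mul_add, add_mul, mul_one, hR, Matrix.mul_smul,
      Matrix.smul_mul]
  refine ⟨h1, h2, by rw [h1, det_conj hR], ?_, ?_, fun G => ⟨fun e => G.det ?_, ?_, fun x hx => ?_⟩⟩
  · have e : R * Bm A A' * Rᵀ * (R * Bm A A' * Rᵀ) = R * (Bm A A' * Bm A A' * Rᵀ) := by
      rw [mul_assoc (R * Bm A A'), mul_assoc R (Bm A A') Rᵀ, ← mul_assoc Rᵀ, hR', one_mul]
      simp only [mul_assoc]
    rw [h1, e, trace_mul_comm, mul_assoc _ Rᵀ, hR', mul_one]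
  · rw [h1, Fm, Fm, sub_eq_add_neg 1, sub_eq_add_neg 1, ← neg_smul, ← neg_smul, h3, h3]
  · rw [e, abs_zero] at h2
    exact abs_eq_zero.1 h2.symm
  · rw [h1, transpose_mul, transpose_mul, transpose_transpose, G.symm, mul_assoc]
  · have e : (Rᵀ *ᵥ x) ⬝ᵥ (Rᵀ *ᵥ x) = x ⬝ᵥ x := by
      have := quad R 1 x
      rw [mul_one, hR, one_mulVec, one_mulVec] at this
      exact this.symm
    rw [h1, quad, ← e]
    refine G.lt _ fun h0 => hx ?_
    rw [← one_mulVec x, ← hR, ← mulVec_mulVec, h0, mulVec_zero]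

theorem rCONT : S_CONT := by
  intro X _ A A' c x h0 h1 hA hA' G
  have hi : ContinuousAt (fun y => (A' y)⁻¹) x := by
    refine ContinuousAt.comp (g := Inv.inv) (continuousAt_matrix_inv _ ?_) hA'
    rw [Ring.inverse_eq_inv']
    exact continuousAt_inv₀ G.det
  have hB : ContinuousAt (fun y => Bm (A y) (A' y)) x := hA.mul hi
  have k : ∀ d : ℝ, |d| < 1 →
      ContinuousAt (fun y => Real.log (1 + d • Bm (A y) (A' y)).det) x := fun d hd => by
    have : Continuous fun B : M => (1 + d • B).det :=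
      (continuous_const.add (continuous_id.const_smul d)).matrix_det
    exact (this.continuousAt.comp (f := fun y => Bm (A y) (A' y)) hB).log (det_ne G.lt hd)
  refine ⟨hB, ?_⟩
  have hc : |c| < 1 := by rw [abs_of_pos h0]; exact h1
  have := ((k c hc).sub (k (-c) (by rwa [abs_neg]))).div_const (2 * c)
  simpa only [Fm, neg_smul, ← sub_eq_add_neg, Pi.sub_apply] using this

theorem rEND : S_END := by
  intro A A' G
  have hs : Bm A A' 1 0 = Bm A A' 0 1 := by
    have := congrFun (congrFun G.symm 0) 1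
    rwa [transpose_apply] at this
  have e : (Bm A A' * Bm A A').trace =
      Bm A A' 0 0 ^ 2 + 2 * Bm A A' 0 1 ^ 2 + Bm A A' 1 1 ^ 2 := by
    simp only [trace_fin_two, mul_apply, Fin.sum_univ_two, hs]
    ring
  refine ⟨by rw [e]; positivity, fun h => ?_⟩
  rw [e] at h
  have a0 : Bm A A' 0 0 = 0 := by nlinarith [sq_nonneg (Bm A A' 0 1), sq_nonneg (Bm A A' 1 1)]
  have a1 : Bm A A' 0 1 = 0 := by nlinarith [sq_nonneg (Bm A A' 0 0), sq_nonneg (Bm A A' 1 1)]
  have a2 : Bm A A' 1 1 = 0 := by nlinarith [sq_nonneg (Bm A A' 0 1), sq_nonneg (Bm A A' 0 0)]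
  have hB : Bm A A' = 0 := by
    ext i j
    fin_cases i <;> fin_cases j
    exacts [a0, a1, hs.trans a1, a2]
  rw [← nonsing_inv_mul_cancel_right A' A (Ne.isUnit G.det)]
  change Bm A A' * A' = 0
  rw [hB, zero_mul]

end Pool.Agent.MP_3ee8cb_gt.D3OD
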