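import Pool.Agent.MP_3ee8cb_gt.D3OD.Spec

/-! Block OD, row POSV: positivity after a uniform time. -/

namespace Pool.Agent.MP_3ee8cb_gt.D3OD

open Matrix

namespace RPOSV

theorem self_nonneg (x : V) : 0 ≤ x ⬝ᵥ x := by
  simp only [dotProduct, Fin.sum_univ_two]
  nlinarith [mul_self_nonneg (x 0), mul_self_nonneg (x 1)]

theorem self_pos {x : V} (hx : x ≠ 0) : 0 < x ⬝ᵥ x := by
  rcases (self_nonneg x).lt_or_eq with h | h
  · exact h
  · exact absurd (dotProduct_self_eq_zero.mp h.symm) hx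

theorem dot_ge (x y : V) : -(n2 x y / 2) ≤ x ⬝ᵥ y := by
  simp only [n2, dotProduct, Fin.sum_univ_two]
  nlinarith [mul_self_nonneg (x 0 + y 0), mul_self_nonneg (x 1 + y 1)]

theorem grow {h h' : ℝ → ℝ} {a s t : ℝ} (hd : ∀ u, HasDerivAt h (h' u) u)
    (hl : ∀ u, s ≤ u → a ≤ h' u) (hst : s ≤ t) : h s + a * (t - s) ≤ h t := by
  have hg : ∀ u, HasDerivAt (fun v => h v - a * v) (h' u - a) u := fun u => by
    have h1 : HasDerivAt (fun v : ℝ => a * v) a u := by
      simpa using (hasDerivAt_id u).const_mul a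
    exact (hd u).sub h1
  have hm : MonotoneOn (fun v => h v - a * v) (Set.Ici s) := by
    refine monotoneOn_of_deriv_nonneg (convex_Ici s) ?_ ?_ ?_
    · exact fun u _ => (hg u).continuousAt.continuousWithinAt
    · exact fun u _ => (hg u).differentiableAt.differentiableWithinAt
    · intro u hu
      rw [(hg u).deriv]
      have hu' : s ≤ u := interior_subset hu
      linarith [hl u hu']
  have := hm (Set.mem_Ici.mpr le_rfl) (Set.mem_Ici.mpr hst) hst
  simp only at this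
  linarith

end RPOSV

open RPOSV in
theorem rPOSV : R_POSV := by
  intro hEX hUQ hOM hGROW hLOW C kM kN hh hv vh vv hO s e J J' hJ hs hs' he t ht
  obtain ⟨hC, hlow, -⟩ := hLOW C kM kN hh hv vh vv hO
  obtain ⟨j, j', hj, hj0, hj1⟩ := hEX kM hO.cM.cont s 0 e
  have hmap := hO.map j j' hj
  have huq := hUQ kN hO.cN.cont J J' _ _ s hJ hmap (by simp [hs, hj0, hj1])
    (by simp [hs', hj0, hj1])
  have hd := (hOM kN hO.cN.symm J J' J J' hJ hJ).2.2
  have hE : 0 < e ⬝ᵥ e := self_pos he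
  have hl : ∀ u, s ≤ u → e ⬝ᵥ e / C ≤ J' u ⬝ᵥ J' u + J u ⬝ᵥ kN u *ᵥ J u := by
    intro u hu
    have h1 := hGROW kM hO.cM j j' hj s hj0 u hu
    have h2 := hlow u (j u) (j' u)
    have h3 := hO.cN.low u (J u)
    rw [← (huq u).1, ← (huq u).2] at h2
    rw [hj1] at h1
    have h4 := self_nonneg (j u)
    have h5 : e ⬝ᵥ e ≤ C * n2 (J u) (J' u) := by
      unfold n2 at h2 ⊢
      linarith
    rw [div_le_iff₀ hC]
    have h6 : n2 (J u) (J' u) ≤ J' u ⬝ᵥ J' u + J u ⬝ᵥ kN u *ᵥ J u := by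
      unfold n2
      linarith
    nlinarith [mul_le_mul_of_nonneg_left h6 hC.le]
  have hst : s ≤ t := by nlinarith [sq_nonneg C]
  have hg := grow hd hl hst
  have h0 := dot_ge (J s) (J' s)
  have hup := hO.up s 0 e
  simp only [mulVec_zero, zero_add] at hup
  rw [← hs, ← hs'] at hup
  have hn : n2 (0 : V) e = e ⬝ᵥ e := by simp [n2]
  rw [hn] at hup
  have h7 : C * (e ⬝ᵥ e) ≤ e ⬝ᵥ e / C * (t - s) := by
    have h8 : C ^ 2 ≤ t - s := by linarith
    have h9 : e ⬝ᵥ e / C * C ^ 2 = C * (e ⬝ᵥ e) := by field_simp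
    rw [← h9]
    exact mul_le_mul_of_nonneg_left h8 (div_pos hE hC).le
  have h10 : 0 < C * (e ⬝ᵥ e) := mul_pos hC hE
  linarith

end Pool.Agent.MP_3ee8cb_gt.D3OD
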