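import Pool.Agent.MP_3ee8cb_gt.D3.Defs

/-! Linear algebra and calculus for the Riccati inequality in three by three form. -/

namespace Pool.Agent.MP_3ee8cb_gt.D3.RicA

open Module
open scoped RealInnerProductSpace

noncomputable section

theorem clm_diff {E F : Type} [NormedAddCommGroup E] [NormedSpace ℝ E] [FiniteDimensional ℝ E]
    [NormedAddCommGroup F] [NormedSpace ℝ F] {P : ℝ → E →L[ℝ] F} {t : ℝ}
    (h : ∀ x, DifferentiableAt ℝ (fun s => P s x) t) : DifferentiableAt ℝ P t := by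
  let b := finBasis ℝ E
  have e : P = fun s => ∑ i, ContinuousLinearMap.smulRightL ℝ E F
      (LinearMap.toContinuousLinearMap (b.coord i)) (P s (b i)) := by
    funext s
    ext x
    conv_lhs => rw [← b.sum_repr x, map_sum]
    simp
  rw [e]
  exact DifferentiableAt.fun_sum fun i _ =>
    (ContinuousLinearMap.differentiableAt _).comp t (h (b i))

/-- The curve of preimages of a fixed vector. -/
theorem path {E : Type} [NormedAddCommGroup E] [NormedSpace ℝ E] [FiniteDimensional ℝ E]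
    {P : ℝ → E →L[ℝ] E} (hi : ∀ t x, P t x = 0 → x = 0)
    (h : ∀ x, DifferentiableAt ℝ (fun s => P s x) 0) (η : E) :
    ∃ ξ : ℝ → E, (∀ t, P t (ξ t) = η) ∧ DifferentiableAt ℝ ξ 0 := by
  have := FiniteDimensional.complete ℝ E
  have k : ∀ t, ∃ e : E ≃L[ℝ] E, (e : E →L[ℝ] E) = P t := fun t =>
    ⟨(LinearEquiv.ofInjectiveEndo (P t).toLinearMap
      ((injective_iff_map_eq_zero _).2 (hi t))).toContinuousLinearEquiv, by ext x; rfl⟩
  refine ⟨fun t => (P t).inverse η, fun t => ?_, ?_⟩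
  · obtain ⟨e, he⟩ := k t
    simp [← he]
  · obtain ⟨e, he⟩ := k 0
    have h1 := (contDiffAt_map_inverse (𝕜 := ℝ) (n := 1) e).differentiableAt one_ne_zero
    rw [he] at h1
    exact (h1.comp 0 (clm_diff h)).clm_apply (differentiableAt_const _)

theorem der_app {E F : Type} [NormedAddCommGroup E] [NormedSpace ℝ E] [FiniteDimensional ℝ E]
    [NormedAddCommGroup F] [NormedSpace ℝ F] {P : ℝ → E →L[ℝ] F} {D : E → F}
    (h : ∀ x, HasDerivAt (fun s => P s x) (D x) 0) {ξ : ℝ → E} {ζ : E} (hξ : HasDerivAt ξ ζ 0) :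
    HasDerivAt (fun s => P s (ξ s)) (D (ξ 0) + P 0 ζ) 0 := by
  have h1 := (clm_diff fun x => (h x).differentiableAt).hasDerivAt
  have h2 := (h1.clm_apply (hasDerivAt_const 0 (ξ 0))).unique (h (ξ 0))
  rw [map_zero, add_zero] at h2
  exact h2 ▸ h1.clm_apply hξ

/-- An orthonormal basis of eigenvectors which starts with a given vector of the kernel. -/
theorem onb {B : V →ₗ[ℝ] V} (hB : B.IsSymmetric) {n : V} (hn : ‖n‖ = 1) (h0 : B n = 0) :
    ∃ (f : OrthonormalBasis (Fin 3) ℝ V) (b : Fin 3 → ℝ), f 0 = n ∧ b 0 = 0 ∧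
      ∀ i, B (f i) = b i • f i := by
  have n0 : n ≠ 0 := norm_ne_zero_iff.1 (hn ▸ one_ne_zero)
  have iv : ∀ v ∈ (ℝ ∙ n)ᗮ, B v ∈ (ℝ ∙ n)ᗮ := fun v _ => by
    rw [Submodule.mem_orthogonal_singleton_iff_inner_right, ← hB, h0, inner_zero_left]
  have : Fact (finrank ℝ V = 2 + 1) := ⟨finrank_euclideanSpace_fin⟩
  have h2 : finrank ℝ (ℝ ∙ n)ᗮ = 2 := Submodule.finrank_orthogonal_span_singleton n0
  have hR := hB.restrict_invariant iv
  let g := hR.eigenvectorBasis h2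
  have gn : ∀ i, ⟪n, (g i : V)⟫ = 0 := fun i =>
    Submodule.mem_orthogonal_singleton_iff_inner_right.1 (g i).2
  have g1 : ∀ i, ‖(g i : V)‖ = 1 := fun i => g.orthonormal.1 i
  have g2 : ⟪(g 0 : V), (g 1 : V)⟫ = 0 := g.orthonormal.2 (show (0 : Fin 2) ≠ 1 by decide)
  have ge : ∀ i, B (g i) = hR.eigenvalues h2 i • (g i : V) := fun i =>
    congrArg Subtype.val (hR.apply_eigenvectorBasis h2 i)
  have o : Orthonormal ℝ ![n, g 0, g 1] := by
    refine ⟨fun i => ?_, fun i j hij => ?_⟩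
    · fin_cases i <;> simp [hn, g1]
    · fin_cases i <;> fin_cases j <;> simp_all [real_inner_comm]
  let u := basisOfOrthonormalOfCardEqFinrank o (by simp)
  have hu : ⇑u = ![n, g 0, g 1] := coe_basisOfOrthonormalOfCardEqFinrank _ _
  refine ⟨u.toOrthonormalBasis (hu ▸ o), ![0, hR.eigenvalues h2 0, hR.eigenvalues h2 1], ?_, rfl,
    fun i => ?_⟩
  · simp [hu]
  · fin_cases i <;> simp [hu, h0, ge]

theorem det_mul (f : OrthonormalBasis (Fin 3) ℝ V) (e : Fin 3 → V) (L : V →L[ℝ] V) :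
    L.det * f.toBasis.det e = (Matrix.of fun i j => ⟪f i, L (e j)⟫).det := by
  rw [ContinuousLinearMap.det, ← Basis.det_comp, Basis.det_apply]
  congr 1
  ext i j
  simp [Basis.toMatrix_apply, OrthonormalBasis.repr_apply_apply]

theorem det_diag (f : OrthonormalBasis (Fin 3) ℝ V) (e : Fin 3 → V) (L : V →L[ℝ] V)
    (d : Fin 3 → ℝ) (h : ∀ j, L (e j) = d j • f j) :
    L.det * f.toBasis.det e = d 0 * d 1 * d 2 := by
  rw [det_mul, Matrix.det_fin_three]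
  simp [h, inner_smul_right, f.inner_eq_ite]

theorem hadamard (f : OrthonormalBasis (Fin 3) ℝ V) (e : Fin 3 → V) :
    |f.toBasis.det e| ≤ ‖e 0‖ * ‖e 1‖ * ‖e 2‖ := by
  have : Fact (finrank ℝ V = 3) := ⟨finrank_euclideanSpace_fin⟩
  have := f.toBasis.orientation.abs_volumeForm_apply_le e
  rwa [Orientation.volumeForm_robust' _ f, Fin.prod_univ_three] at this

/-- The logarithmic derivative of a determinant at a diagonal point. -/
theorem log_det (f : OrthonormalBasis (Fin 3) ℝ V) (e X : Fin 3 → V) (L : ℝ → V →L[ℝ] V)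
    (d : Fin 3 → ℝ) (hδ : f.toBasis.det e ≠ 0) (hd : ∀ j, d j ≠ 0)
    (h0 : ∀ j, L 0 (e j) = d j • f j) (h : ∀ j, HasDerivAt (fun t => L t (e j)) (X j) 0) :
    HasDerivAt (fun t => Real.log (L t).det)
      (⟪f 0, X 0⟫ / d 0 + ⟪f 1, X 1⟫ / d 1 + ⟪f 2, X 2⟫ / d 2) 0 := by
  have k : ∀ i j, HasDerivAt (fun t => ⟪f i, L t (e j)⟫) ⟪f i, X j⟫ 0 := fun i j =>
    (innerSL ℝ (f i)).hasFDerivAt.comp_hasDerivAt 0 (h j)
  have e1 : (fun t => (L t).det) = fun t => (Matrix.of fun i j => ⟪f i, L t (e j)⟫).det /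
      f.toBasis.det e := funext fun t => by rw [← det_mul, mul_div_cancel_right₀ _ hδ]
  have k1 : HasDerivAt (fun t => (L t).det) ((⟪f 0, X 0⟫ * d 1 * d 2 + d 0 * ⟪f 1, X 1⟫ * d 2 +
      d 0 * d 1 * ⟪f 2, X 2⟫) / f.toBasis.det e) 0 := by
    rw [e1]
    simp only [Matrix.det_fin_three, Matrix.of_apply]
    refine (HasDerivAt.congr_deriv (((((((((k 0 0).fun_mul (k 1 1)).fun_mul (k 2 2)).fun_sub
      (((k 0 0).fun_mul (k 1 2)).fun_mul (k 2 1))).fun_sub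
      (((k 0 1).fun_mul (k 1 0)).fun_mul (k 2 2))).fun_add
      (((k 0 1).fun_mul (k 1 2)).fun_mul (k 2 0))).fun_add
      (((k 0 2).fun_mul (k 1 0)).fun_mul (k 2 1))).fun_sub
      (((k 0 2).fun_mul (k 1 1)).fun_mul (k 2 0)))) ?_).div_const _
    simp [h0, inner_smul_right, f.inner_eq_ite]
    ring
  have k2 : (L 0).det = d 0 * d 1 * d 2 / f.toBasis.det e := by
    rw [← det_diag f e (L 0) d h0, mul_div_cancel_right₀ _ hδ]
  have := hd 0
  have := hd 1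
  have := hd 2
  refine (k1.log (by rw [k2]; positivity)).congr_deriv ?_
  rw [k2]
  field_simp

/-- The scalar inequality. -/
theorem scal {a c b1 b2 W1 W2 k1 k2 δ y : ℝ} (hc : 0 < c) (hca : c < a) (h1 : a * |b1| ≤ 1)
    (h2 : a * |b2| ≤ 1) (w1 : 0 ≤ W1) (w2 : 0 ≤ W2) (hk1 : a ^ 2 ≤ k1) (hk2 : a ^ 2 ≤ k2)
    (hd : δ ^ 2 ≤ W1 * W2) (hy : y * δ = 1) :
    ((1 - W1 - b1 ^ 2 * k1) / (1 - c ^ 2 * b1 ^ 2) + (1 - W2 - b2 ^ 2 * k2) / (1 - c ^ 2 * b2 ^ 2)) / 2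
      ≤ |y| - c ^ 2 * |y * (b1 * b2)| - 1 - (a ^ 2 - c ^ 2) / 2 * (b1 ^ 2 + b2 ^ 2) := by
  have one : ∀ b W k : ℝ, a * |b| ≤ 1 → a ^ 2 ≤ k → c * |b| < 1 ∧ ∃ g : ℝ, 0 < g ∧
      g * (1 - (c * |b|) ^ 2) = 1 ∧
      (1 - W - b ^ 2 * k) / (1 - c ^ 2 * b ^ 2) ≤ 1 - g * W - (a ^ 2 - c ^ 2) * b ^ 2 := by
    intro b W k hb hk
    have p0 := abs_nonneg b
    have p1 : c * |b| < 1 := by
      rcases p0.eq_or_lt with z | z
      · simp [← z]
      · nlinarith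
    have p2 : 0 < 1 - c ^ 2 * b ^ 2 := by
      rw [← sq_abs b]
      nlinarith [mul_nonneg hc.le p0]
    refine ⟨p1, (1 - c ^ 2 * b ^ 2)⁻¹, inv_pos.2 p2, ?_, ?_⟩
    · rw [mul_pow, sq_abs, inv_mul_cancel₀ p2.ne']
    · rw [div_le_iff₀ p2, show (1 - (1 - c ^ 2 * b ^ 2)⁻¹ * W - (a ^ 2 - c ^ 2) * b ^ 2) *
        (1 - c ^ 2 * b ^ 2) = (1 - (a ^ 2 - c ^ 2) * b ^ 2) * (1 - c ^ 2 * b ^ 2) - W by field_simp; ring]
      have q1 : 0 ≤ a ^ 2 - c ^ 2 := by nlinarith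
      nlinarith [mul_nonneg (sq_nonneg b) (sub_nonneg.2 hk),
        mul_nonneg (mul_nonneg q1 (sq_nonneg b)) (mul_nonneg (sq_nonneg c) (sq_nonneg b))]
  obtain ⟨p1, g1, g10, e1, i1⟩ := one b1 W1 k1 h1 hk1
  obtain ⟨p2, g2, g20, e2, i2⟩ := one b2 W2 k2 h2 hk2
  have y0 : 0 < |y| := abs_pos.2 (left_ne_zero_of_mul_eq_one hy)
  have yy : |y| ^ 2 * δ ^ 2 = 1 := by rw [sq_abs, ← mul_pow, hy, one_pow]
  have e3 : c ^ 2 * |y * (b1 * b2)| = |y| * (c * |b1| * (c * |b2|)) := by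
    rw [abs_mul, abs_mul]; ring
  have q1 : 0 ≤ c * |b1| := by positivity
  have q2 : 0 ≤ c * |b2| := by positivity
  rw [e3]
  generalize c * |b1| = β1 at *
  generalize c * |b2| = β2 at *
  generalize |y| = Y at *
  have u0 : 0 < 1 - β1 * β2 := by nlinarith
  have k3 : 1 ≤ g1 * g2 * (1 - β1 * β2) ^ 2 := by
    have : g1 * g2 * ((1 - β1 ^ 2) * (1 - β2 ^ 2)) = 1 := by
      rw [mul_mul_mul_comm, e1, e2, one_mul]
    rw [← this]
    exact mul_le_mul_of_nonneg_left (by nlinarith [sq_nonneg (β1 - β2)]) (mul_pos g10 g20).le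
  have k4 : 4 * (g1 * g2 * δ ^ 2) ≤ (g1 * W1 + g2 * W2) ^ 2 := by
    nlinarith [sq_nonneg (g1 * W1 - g2 * W2), mul_le_mul_of_nonneg_left hd (mul_pos g10 g20).le]
  have X0 : 0 ≤ g1 * W1 + g2 * W2 := by positivity
  have k8 : 2 ≤ Y * (1 - β1 * β2) + (g1 * W1 + g2 * W2) / 2 := by
    generalize g1 * W1 + g2 * W2 = X at *
    generalize 1 - β1 * β2 = u at *
    have a0 : 0 < Y * u := mul_pos y0 u0
    have k5 : 2 ^ 2 ≤ (Y * u * X) ^ 2 := by
      have := mul_le_mul_of_nonneg_left k4 (sq_nonneg (Y * u))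
      rw [show (Y * u) ^ 2 * (4 * (g1 * g2 * δ ^ 2)) = 4 * (g1 * g2 * u ^ 2) * (Y ^ 2 * δ ^ 2) by
        ring, yy] at this
      rw [mul_pow (Y * u)]
      linarith
    have k6 : 2 ≤ Y * u * X := le_of_sq_le_sq k5 (mul_nonneg a0.le X0)
    exact le_of_sq_le_sq (by nlinarith [sq_nonneg (Y * u - X / 2)]) (by positivity)
  linarith

end

end Pool.Agent.MP_3ee8cb_gt.D3.RicA
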