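import Pool.Agent.MP_3ee8cb_gt.D3OD.Link
import Pool.Agent.MP_3ee8cb_gt.D3OD.DiaG

/-! Block OD from the statements on the equation in the plane. -/

namespace Pool.Agent.MP_3ee8cb_gt.D3

theorem sod_of (uq : D3OD.S_UQ) (dg : D3OD.S_DIAG) (rc : D3OD.S_RIC) (en : D3OD.S_END) : SOD :=
  fun m m' φ a hi o j o' j' cf ha u u' d sy =>
    ⟨(good45 m m' φ a hi o j o' j' cf ha u u' d sy).1,
      ric_of uq dg rc en m m' φ a hi o j o' j' cf ha u u' d sy⟩

end Pool.Agent.MP_3ee8cb_gt.D3
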