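import Pool.Agent.MP_3ee8cb_gt.D3OD.Sod
import Pool.Agent.MP_3ee8cb_gt.D3OD.Fin0
import Pool.Agent.MP_3ee8cb_gt.D3OD.RFRM

/-! Block OD. -/

namespace Pool.Agent.MP_3ee8cb_gt.D3

theorem sOD : SOD := sod_of D3OD.rUQ D3OD.sDIAG D3OD.sRIC D3OD.rEND

end Pool.Agent.MP_3ee8cb_gt.D3
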