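import Pool.Agent.MP_3ee8cb_gt.D3OD.Defs

/-! Block OD: inner statements and rows. -/

namespace Pool.Agent.MP_3ee8cb_gt.D3OD

open Matrix

/-- `j` does not tend to infinity at `+∞`. -/
def Fwd (j : ℝ → V) : Prop := ∃ K : ℝ, ∀ T : ℝ, ∃ t, T ≤ t ∧ j t ⬝ᵥ j t ≤ K

/-- `j` does not tend to infinity at `-∞`. -/
def Bwd (j : ℝ → V) : Prop := ∃ K : ℝ, ∀ T : ℝ, ∃ t, t ≤ T ∧ j t ⬝ᵥ j t ≤ K

/-- Entrywise derivative of a matrix valued function. -/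
def MD (A : ℝ → M) (X : M) (t : ℝ) : Prop := ∀ i l, HasDerivAt (fun s => A s i l) (X i l) t

/-- The symplectic form is a first integral; `⟨j, j'⟩` and its derivative. -/
def S_OM : Prop := ∀ k : ℝ → M, (∀ t, (k t)ᵀ = k t) → ∀ j j' i i', Sol k j j' → Sol k i i' →
  (∀ t s, om (j t) (j' t) (i t) (i' t) = om (j s) (j' s) (i s) (i' s)) ∧
  (∀ t, HasDerivAt (fun s => j s ⬝ᵥ j s) (2 * (j t ⬝ᵥ j' t)) t) ∧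
  ∀ t, HasDerivAt (fun s => j s ⬝ᵥ j' s) (j' t ⬝ᵥ j' t + j t ⬝ᵥ k t *ᵥ j t) t

/-- Convexity: bounded solutions for `k ≥ 0`. -/
def S_BND : Prop := ∀ k, Cur 0 k → ∀ j j', Sol k j j' →
  (Fwd j → (∀ t, j t ⬝ᵥ j' t ≤ 0) ∧ ∀ s, j s = 0 → j' s = 0) ∧
  (Bwd j → (∀ t, 0 ≤ j t ⬝ᵥ j' t) ∧ ∀ s, j s = 0 → j' s = 0)

/-- Bounded solutions for `k ≥ 1`. -/
def S_STB : Prop := ∀ k, Cur 1 k → ∀ j j', Sol k j j' →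
  (Fwd j → (∀ t, j t ⬝ᵥ j' t ≤ -(j t ⬝ᵥ j t)) ∧
    ∀ ε : ℝ, 0 < ε → ∀ T : ℝ, ∃ t, T ≤ t ∧ n2 (j t) (j' t) < ε) ∧
  (Bwd j → (∀ t, j t ⬝ᵥ j t ≤ j t ⬝ᵥ j' t) ∧
    ∀ ε : ℝ, 0 < ε → ∀ T : ℝ, ∃ t, t ≤ T ∧ n2 (j t) (j' t) < ε)

/-- A forward bounded solution through every position. -/
def S_STA : Prop := ∀ k, Cur 0 k → ∀ a : V,
  (∃ j j', Sol k j j' ∧ j 0 = a ∧ ∀ t, 0 ≤ t → j t ⬝ᵥ j t ≤ a ⬝ᵥ a) ∧
  ∃ j j', Sol k j j' ∧ j 0 = a ∧ ∀ t, t ≤ 0 → j t ⬝ᵥ j t ≤ a ⬝ᵥ a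

/-- Stable and unstable parts. -/
def S_SPLIT : Prop := ∀ k, Cur 1 k → ∀ J J', Sol k J J' → ∃ a a' b b', Sol k a a' ∧ Sol k b b' ∧
  (∀ t, J t = a t + b t ∧ J' t = a' t + b' t) ∧ Fwd a ∧ Bwd b

/-- The lower bound and the inverse of the orbit map. -/
def S_LOW : Prop := ∀ C kM kN hh hv vh vv, Orb C kM kN hh hv vh vv → 0 < C ∧
  (∀ t x e, n2 x e ≤ C * n2 (hh t *ᵥ x + hv t *ᵥ e) (vh t *ᵥ x + vv t *ᵥ e)) ∧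
  ∀ J J', Sol kN J J' → ∃ j j', Sol kM j j' ∧
    ∀ t, J t = hh t *ᵥ j t + hv t *ᵥ j' t ∧ J' t = vh t *ᵥ j t + vv t *ᵥ j' t

/-- The diamond, vector form. -/
def S_DIAV : Prop := ∀ C kM kN hh hv vh vv, Orb C kM kN hh hv vh vv →
  ∀ (s : ℝ) (e : V) J J', Sol kN J J' → J s = hv s *ᵥ e → J' s = vv s *ᵥ e → e ≠ 0 →
    ∀ t μ : ℝ, |μ| ≤ 1 → J' t ≠ μ • J t

/-- Growth of solutions which vanish once. -/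
def S_GROW : Prop := ∀ k, Cur 0 k → ∀ j j', Sol k j j' → ∀ s, j s = 0 → ∀ t, s ≤ t →
  j' s ⬝ᵥ j' s ≤ j' t ⬝ᵥ j' t

/-- Positivity after a uniform time, vector form. -/
def S_POSV : Prop := ∀ C kM kN hh hv vh vv, Orb C kM kN hh hv vh vv →
  ∀ (s : ℝ) (e : V) J J', Sol kN J J' → J s = hv s *ᵥ e → J' s = vv s *ᵥ e → e ≠ 0 →
    ∀ t, s + C ^ 2 ≤ t → 0 < J t ⬝ᵥ J' t

/-- From the pencil to the bounds on `B`. -/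
def S_MAT : Prop := ∀ A A' : M, (∀ x y : V, om (A *ᵥ x) (A' *ᵥ x) (A *ᵥ y) (A' *ᵥ y) = 0) →
  (∀ (μ : ℝ) (e : V), |μ| ≤ 1 → e ≠ 0 → A' *ᵥ e ≠ μ • A *ᵥ e) → Good A A'

/-- Derivative of the orbit map along the orbit. -/
def S_DER : Prop := ∀ C kM kN hh hv vh vv, Orb C kM kN hh hv vh vv → ∀ t,
  MD hv (vv t - hh t) t ∧ MD vv (kN t * hv t - vh t) t

/-- Derivative of `B`. -/
def S_BDER : Prop := ∀ (A A' : ℝ → M) (X X' : M) (t : ℝ), MD A X t → MD A' X' t →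
  (A' t).det ≠ 0 → MD (fun s => Bm (A s) (A' s))
    (X * (A' t)⁻¹ - Bm (A t) (A' t) * X' * (A' t)⁻¹) t

/-- Derivative of the potential. -/
def S_FDER : Prop := ∀ (B : ℝ → M) (Y : M) (c t : ℝ), MD B Y t → c ≠ 0 →
  (1 + c • B t).det ≠ 0 → (1 - c • B t).det ≠ 0 →
  HasDerivAt (fun s => Fm c (B s)) ((((1 + c • B t)⁻¹ + (1 - c • B t)⁻¹) * Y).trace / 2) t

/-- The Schur complement of a symplectic matrix. -/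
def S_SCH : Prop := ∀ H A D A' : M,
  (∀ x e x' e' : V, om (H *ᵥ x + A *ᵥ e) (D *ᵥ x + A' *ᵥ e) (H *ᵥ x' + A *ᵥ e')
    (D *ᵥ x' + A' *ᵥ e') = om x e x' e') → A'.det ≠ 0 →
  (H - Bm A A' * D) * A'⁻¹ = (A'⁻¹)ᵀ * A'⁻¹

/-- A symmetric matrix has an orthonormal basis of eigenvectors. -/
def S_EIG : Prop := ∀ B : M, Bᵀ = B → ∃ (R : M) (b : V), R * Rᵀ = 1 ∧ Rᵀ * R = 1 ∧
  B = R * diagonal b * Rᵀ

/-- The algebraic inequality of step 3. -/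
def S_ALG : Prop := ∀ (B κ Z : M) (c lam : ℝ), Bᵀ = B →
  (∀ x : V, x ≠ 0 → |x ⬝ᵥ B *ᵥ x| < x ⬝ᵥ x) → (∀ x : V, x ⬝ᵥ x ≤ x ⬝ᵥ κ *ᵥ x) → Z.det ≠ 0 →
  0 < c → c < 1 → |lam| ≤ c ^ 2 → 0 < (1 + c • B).det ∧ 0 < (1 - c • B).det ∧
  1 + (1 - c ^ 2) / 2 * (B * B).trace +
    (((1 + c • B)⁻¹ + (1 - c • B)⁻¹) * (1 - B * κ * B - (Z⁻¹)ᵀ * Z⁻¹)).trace / 2 / 2 ≤
    |Z.det| * (1 - lam * B.det)

/-- Comparison of a matrix solution with a solution. -/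
def S_CMP : Prop := ∀ k, Cur 0 k → ∀ A A', MSol k A A' →
  (∀ t, (A' t).det ≠ 0 ∧ (Bm (A t) (A' t))ᵀ = Bm (A t) (A' t)) → ∀ K K', Sol k K K' →
  ∀ s T : ℝ, s ≤ T → K' T ⬝ᵥ Bm (A T) (A' T) *ᵥ K' T - K T ⬝ᵥ K' T ≤
    K' s ⬝ᵥ Bm (A s) (A' s) *ᵥ K' s - K s ⬝ᵥ K' s

def R_EX : Prop := S_UQ → S_EX
def R_MEX : Prop := S_EX → S_MEX
def R_BND : Prop := S_OM → S_BND
def R_STB : Prop := S_OM → S_BND → S_STB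
def R_STA : Prop := S_EX → S_UQ → S_OM → S_LAM → S_STA
def R_SPLIT : Prop := S_EX → S_UQ → S_OM → S_BND → S_STA → S_SPLIT
def R_ELL : Prop := S_EX → S_STB → S_SPLIT → S_ELL
def R_LOW : Prop := S_EX → S_UQ → S_LOW
def R_DIAV : Prop := S_UQ → S_OM → S_BND → S_STB → S_SPLIT → S_LOW → S_DIAV
def R_GROW : Prop := S_OM → S_GROW
def R_POSV : Prop := S_EX → S_UQ → S_OM → S_GROW → S_LOW → S_POSV
def R_MAT : Prop := S_EIG → S_MAT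
def R_DIA : Prop := S_OM → S_DIAV → S_POSV → S_MAT → S_DIA
def R_DIAG : Prop := S_MEX → S_DIA → S_DIAG
def R_DER : Prop := S_EX → S_UQ → S_OM → S_DER
def R_ALG : Prop := S_EIG → S_ALG
def R_RIC : Prop := S_DIAG → S_DER → S_BDER → S_FDER → S_SCH → S_ALG → S_RIC
def R_RICI : Prop := S_DIAG → S_DER → S_BDER → S_RIC → S_RICI
def R_LAM : Prop := S_EX → S_UQ → S_OM → S_LAM
def R_CMP : Prop := S_BDER → S_CMP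
def R_HESS : Prop := S_UQ → S_DIA → S_LAM → S_CMP → S_HESS

end Pool.Agent.MP_3ee8cb_gt.D3OD
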